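import Pool.Agent.Helper65.XR.St

set_option autoImplicit false

namespace Pool.Agent.Helper65.XR

open Finset

private theorem ee_symm_LOC {n : ℕ} (p u : Fin n → Pt) (i j : Fin n) : ee p u i j = ee p u j i := by
  unfold ee
  rw [← neg_sub (p j) (p i), ← neg_sub (u j) (u i), neg_dotProduct_neg]

private theorem ee_self_LOC {n : ℕ} (p u : Fin n → Pt) (i : Fin n) : ee p u i i = 0 := by
  unfold ee
  rw [sub_self, zero_dotProduct]

private theorem qv_eq_LOC {n : ℕ} (p v : Fin n → Pt) (A : Fin 4 → Fin n) (x : Fin 4 → ℝ) :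
    qv p v A x = ∑ m, x m * Dl p v A (A m) x := by
  unfold qv Dl
  rw [Finset.sum_comm]
  refine Finset.sum_congr rfl fun m _ => ?_
  rw [Finset.mul_sum]
  refine Finset.sum_congr rfl fun k _ => ?_
  ring

theorem loc (hb : StBAR) (hc : StCOO) : StLOC := by
  intro n H t j0 p ht hB x hx v hv
  have hA : Function.Injective (oth t j0) := fun a b h =>
    Fin.succAbove_right_injective (ht h)
  obtain ⟨h1, h2⟩ := hB.typA x hx v hv
  have hq : qv p v (oth t j0) x = 0 := by
    rw [qv_eq_LOC, ← h2]
    unfold Dl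
    refine Finset.sum_congr rfl fun m _ => ?_
    have h3 := h1 m
    unfold Dl at h3
    rw [← h3, ee_symm_LOC]
  have hV : v (t j0) = ∑ k, x k • v (oth t j0 k) := by
    have h3 := (hc n p (oth t j0) hA hB.gpos).2.2 (∑ k, x k • v (oth t j0 k) - v (t j0))
      (p (t j0)) (fun k => ?_)
    · exact (sub_eq_zero.1 h3).symm
    · have h4 := hb n p v (oth t j0) (p (t j0)) x hx (oth t j0 k)
      rw [hq, ← h1 k] at h4
      unfold ee at h4
      have h5 : ∑ k, x k • v (oth t j0 k) - v (t j0)
          = (∑ k, x k • v (oth t j0 k) - v (oth t j0 k)) - (v (t j0) - v (oth t j0 k)) := by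
        abel
      rw [h5, dotProduct_sub, h4]
      ring
  refine ⟨hq, hV, fun l hl => ?_⟩
  have h4 := hb n p v (oth t j0) (p (t j0)) x hx l
  rw [← hV, hq] at h4
  have h5 := hv _ _ hl
  unfold ee at h5
  linarith

theorem three (hc : StCOO) : StTHREE := by
  intro n H t j0 p ht hB
  have hA : Function.Injective (oth t j0) := fun a b h =>
    Fin.succAbove_right_injective (ht h)
  obtain ⟨x, hx⟩ := (hc n p (oth t j0) hA hB.gpos).1 (p (t j0))
  obtain ⟨u, hu, hind⟩ := hB.three
  refine ⟨u, hu, fun c hcz => hind c ?_⟩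
  have key : ∀ m : Fin 4, ∑ k, c k * ee p (u k) (t j0) (oth t j0 m) = 0 := by
    intro m
    have h1 : ∀ k, ee p (u k) (t j0) (oth t j0 m)
        = ∑ r, x r * ee p (u k) (oth t j0 r) (oth t j0 m) := fun k =>
      (hB.typA x hx (u k) (hu k)).1 m
    calc ∑ k, c k * ee p (u k) (t j0) (oth t j0 m)
        = ∑ k, ∑ r, x r * (c k * ee p (u k) (oth t j0 r) (oth t j0 m)) := by
          refine Finset.sum_congr rfl fun k _ => ?_
          rw [h1, Finset.mul_sum]
          refine Finset.sum_congr rfl fun r _ => ?_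
          ring
      _ = ∑ r, x r * ∑ k, c k * ee p (u k) (oth t j0 r) (oth t j0 m) := by
          rw [Finset.sum_comm]
          refine Finset.sum_congr rfl fun r _ => ?_
          rw [Finset.mul_sum]
      _ = 0 := by
          refine Finset.sum_eq_zero fun r _ => ?_
          rw [hcz, mul_zero]
  intro i m
  unfold e5
  rcases Fin.eq_self_or_eq_succAbove j0 i with hi | ⟨i', hi⟩
  · rcases Fin.eq_self_or_eq_succAbove j0 m with hm | ⟨m', hm⟩
    · rw [hi, hm]
      refine Finset.sum_eq_zero fun k _ => ?_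
      rw [ee_self_LOC, mul_zero]
    · rw [hi, hm]
      exact key m'
  · rcases Fin.eq_self_or_eq_succAbove j0 m with hm | ⟨m', hm⟩
    · rw [hi, hm]
      have := key i'
      calc ∑ k, c k * ee p (u k) (t (j0.succAbove i')) (t j0)
          = ∑ k, c k * ee p (u k) (t j0) (oth t j0 i') := by
            refine Finset.sum_congr rfl fun k _ => ?_
            rw [ee_symm_LOC]
            rfl
        _ = 0 := this
    · rw [hi, hm]
      exact hcz i' m'

end Pool.Agent.Helper65.XR
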