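import Pool.Agent.Helper65.XR.St

/-!
# Project XR, module TA: the algebra leading to type A
-/

set_option autoImplicit false

namespace Pool.Agent.Helper65.XR

open Finset

private theorem sum3_TA (f : Fin 5 → ℝ) (i j k : Fin 5) (a b c : ℝ) :
    ∑ m, f m * ((Pi.single i a + Pi.single j b + Pi.single k c : Fin 5 → ℝ) m) =
      f i * a + f j * b + f k * c := by
  simp [Pi.single_apply, mul_add, Finset.sum_add_distrib]

private theorem sum1_TA (i j k : Fin 5) (a b c : ℝ) :
    ∑ m, ((Pi.single i a + Pi.single j b + Pi.single k c : Fin 5 → ℝ) m) = a + b + c := by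
  have h := sum3_TA (fun _ => 1) i j k a b c
  simpa using h

private theorem Qf_TA (ε : Fin 5 → Fin 5 → ℝ) (hs : ∀ i j, ε i j = ε j i) (hd : ∀ i, ε i i = 0)
    (i j k : Fin 5) (a b c : ℝ) :
    Qf ε (Pi.single i a + Pi.single j b + Pi.single k c) =
      2 * (ε i j * (a * b) + ε i k * (a * c) + ε j k * (b * c)) := by
  set μ : Fin 5 → ℝ := Pi.single i a + Pi.single j b + Pi.single k c with hμ
  have h1 : Qf ε μ = ∑ p, (∑ m, ε p m * μ m) * μ p := by
    unfold Qf
    refine Finset.sum_congr rfl fun p _ => ?_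
    rw [Finset.sum_mul]
    refine Finset.sum_congr rfl fun m _ => ?_
    ring
  have h2 : ∑ p, (∑ m, ε p m * μ m) * μ p =
      (∑ m, ε i m * μ m) * a + (∑ m, ε j m * μ m) * b + (∑ m, ε k m * μ m) * c :=
    sum3_TA (fun p => ∑ m, ε p m * μ m) i j k a b c
  have h3 : ∀ p, ∑ m, ε p m * μ m = ε p i * a + ε p j * b + ε p k * c :=
    fun p => sum3_TA (ε p) i j k a b c
  rw [h1, h2, h3, h3, h3, hd, hd, hd, hs j i, hs k i, hs k j]
  ring

private theorem Lf_TA (ε : Fin 5 → Fin 5 → ℝ) (α : Fin 5 → ℝ) (i j k : Fin 5) (a b c : ℝ) :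
    Lf ε α (Pi.single i a + Pi.single j b + Pi.single k c) =
      (∑ p, α p * ε p i) * a + (∑ p, α p * ε p j) * b + (∑ p, α p * ε p k) * c := by
  have h1 : ∀ μ : Fin 5 → ℝ, Lf ε α μ = ∑ m, (∑ p, α p * ε p m) * μ m := by
    intro μ
    unfold Lf
    rw [Finset.sum_comm]
    refine Finset.sum_congr rfl fun m _ => ?_
    rw [Finset.sum_mul]
  rw [h1, sum3_TA]

theorem ta : StTA := by
  intro S α hα hs hd hQ hid x y hxy εu hu εv hv εw hw hu01 hu23 hv01 hv23 hw01 hw23 hwxy
  -- (1)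
  have key : ∀ ε ∈ S, ∀ ε' ∈ S, ∀ i j : Fin 5,
      ε i j * (∑ p, α p * ε' p i) = ε' i j * (∑ p, α p * ε p i) ∧
      ε i j * (∑ p, α p * ε' p j) = ε' i j * (∑ p, α p * ε p j) := by
    intro ε hε ε' hε' i j
    have h1 := hid ε hε ε' hε' (Pi.single i 1 + Pi.single j 1 + Pi.single i 0)
      (by rw [sum1_TA]; norm_num)
    have h2 := hid ε hε ε' hε' (Pi.single i 1 + Pi.single j 2 + Pi.single i 0)
      (by rw [sum1_TA]; norm_num)
    rw [Qf_TA ε (hs ε hε) (hd ε hε), Qf_TA ε' (hs ε' hε') (hd ε' hε'), Lf_TA, Lf_TA] at h1 h2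
    constructor
    · linarith
    · linarith
  -- (3)
  have key2 : ∀ ε ∈ S, ε 0 1 = 0 → ε 2 3 = 0 → ∀ m, ∑ p, α p * ε p m = 0 := by
    intro ε hε h01 h23
    have a0 := (key εu hu ε hε 0 1).1
    have a1 := (key εu hu ε hε 0 1).2
    have a2 := (key εv hv ε hε 2 3).1
    have a3 := (key εv hv ε hε 2 3).2
    rw [hu01, h01, one_mul, zero_mul] at a0 a1
    rw [hv23, h23, one_mul, zero_mul] at a2 a3
    have h4 : Qf ε α = ∑ m, (∑ p, α p * ε p m) * α m := by
      unfold Qf
      rw [Finset.sum_comm]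
      refine Finset.sum_congr rfl fun m _ => ?_
      rw [Finset.sum_mul]
      refine Finset.sum_congr rfl fun p _ => ?_
      ring
    rw [hQ ε hε, Fin.sum_univ_five, a0, a1, a2, a3] at h4
    have h5 : (∑ p, α p * ε p 4) * α 4 = 0 := by linarith
    have a4 := (mul_eq_zero.1 h5).resolve_right (hα 4)
    intro m
    fin_cases m
    · exact a0
    · exact a1
    · exact a2
    · exact a3
    · exact a4
  have hw0 := key2 εw hw hw01 hw23
  intro ε hε
  have hx : ∑ p, α p * ε p x = 0 := by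
    have h := (key εw hw ε hε x y).1
    rw [hwxy, hw0, one_mul, mul_zero] at h
    exact h
  have hy : ∑ p, α p * ε p y = 0 := by
    have h := (key εw hw ε hε x y).2
    rw [hwxy, hw0, one_mul, mul_zero] at h
    exact h
  intro k
  have h1 := hid εw hw ε hε (Pi.single x 1 + Pi.single y 1 + Pi.single k 1)
    (by rw [sum1_TA]; norm_num)
  have h2 := hid εw hw ε hε (Pi.single x 1 + Pi.single y 1 + Pi.single k 2)
    (by rw [sum1_TA]; norm_num)
  rw [Qf_TA εw (hs εw hw) (hd εw hw), Lf_TA, Lf_TA, hx, hy, hw0, hw0, hw0, hwxy] at h1 h2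
  by_contra hne
  have e1 : (2 * (1 + (εw x k + εw y k))) * (∑ p, α p * ε p k) = 0 := by
    linarith
  have e2 : (2 * (1 + 2 * (εw x k + εw y k))) * (∑ p, α p * ε p k) = 0 := by
    linarith
  have f1 := (mul_eq_zero.1 e1).resolve_right hne
  have f2 := (mul_eq_zero.1 e2).resolve_right hne
  linarith

end Pool.Agent.Helper65.XR
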