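import Pool.Agent.Helper65.XR.St

set_option autoImplicit false

namespace Pool.Agent.Helper65.XR

open Finset

theorem badm_ee_symm {n : ℕ} (p v : Fin n → Pt) (i j : Fin n) : ee p v i j = ee p v j i := by
  unfold ee
  rw [← neg_sub (p j) (p i), ← neg_sub (v j) (v i), neg_dotProduct, dotProduct_neg, neg_neg]

theorem badm_ee_self {n : ℕ} (p v : Fin n → Pt) (i : Fin n) : ee p v i i = 0 := by
  unfold ee
  rw [sub_self, zero_dotProduct]

theorem badm_ee_add {n : ℕ} (p u v : Fin n → Pt) (i j : Fin n) :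
    ee p (u + v) i j = ee p u i j + ee p v i j := by
  unfold ee
  rw [← dotProduct_add]
  congr 1
  simp only [Pi.add_apply]
  abel

theorem badm_ee_smul {n : ℕ} (p v : Fin n → Pt) (c : ℝ) (i j : Fin n) :
    ee p (c • v) i j = c * ee p v i j := by
  unfold ee
  rw [Pi.smul_apply, Pi.smul_apply, ← smul_sub, dotProduct_smul, smul_eq_mul]

theorem badm_ee_zero {n : ℕ} (p : Fin n → Pt) (i j : Fin n) :
    ee p 0 i j = 0 := by
  unfold ee
  simp

/-- dual motions -/
theorem badm_dual (hr : StRow) (hd : StDU) {n : ℕ} (G : SimpleGraph (Fin n)) (p : Fin n → Pt)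
    (hRI : RI G p) (a b : Fin n) (hab : G.Adj a b) :
    ∃ u : Fin n → Pt, ee p u a b = 1 ∧
      ∀ i j, G.Adj i j → ¬ (s(i, j) = s(a, b)) → ee p u i j = 0 := by
  classical
  have main : ∀ a b : Fin n, G.Adj a b → a < b → ∃ u : Fin n → Pt, ee p u a b = 1 ∧
      ∀ i j, G.Adj i j → ¬ (s(i, j) = s(a, b)) → ee p u i j = 0 := by
    intro a b hab hlt
    haveI : Fintype {q : Fin n × Fin n // q.1 < q.2 ∧ G.Adj q.1 q.2} := Fintype.ofFinite _
    obtain ⟨u, hu⟩ := hd n {q : Fin n × Fin n // q.1 < q.2 ∧ G.Adj q.1 q.2}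
      (fun x => Row p x.1.1 x.1.2) hRI ⟨(a, b), hlt, hab⟩
    have key : ∀ i j, G.Adj i j → i < j →
        ee p u i j = if (i, j) = (a, b) then 1 else 0 := by
      intro i j hij hl
      have h1 := hu ⟨(i, j), hl, hij⟩
      have h2 := hr n p u i j (ne_of_lt hl)
      rw [← h2]
      refine h1.trans ?_
      by_cases h : (i, j) = (a, b)
      · rw [if_pos h, if_pos]
        exact Subtype.ext h
      · rw [if_neg h, if_neg]
        intro h'
        exact h (congrArg Subtype.val h')
    refine ⟨u, ?_, ?_⟩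
    · rw [key a b hab hlt, if_pos rfl]
    · intro i j hij hs
      rcases lt_or_gt_of_ne hij.ne with hl | hl
      · rw [key i j hij hl, if_neg]
        intro h
        apply hs
        rw [Prod.mk.injEq] at h
        rw [h.1, h.2]
      · rw [badm_ee_symm, key j i hij.symm hl, if_neg]
        intro h
        apply hs
        rw [Prod.mk.injEq] at h
        rw [h.1, h.2, Sym2.eq_swap]
  rcases lt_or_gt_of_ne hab.ne with hl | hl
  · exact main a b hab hl
  · obtain ⟨u, h1, h2⟩ := main b a hab.symm hl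
    refine ⟨u, by rw [badm_ee_symm]; exact h1, ?_⟩
    intro i j hij hs
    apply h2 i j hij
    intro h
    apply hs
    rw [h, Sym2.eq_swap]

theorem badm_RI_mono {n : ℕ} (G H : SimpleGraph (Fin n)) (hHG : H ≤ G) (p : Fin n → Pt)
    (h : RI G p) : RI H p := by
  unfold RI at h ⊢
  have := h.comp (fun x : {q : Fin n × Fin n // q.1 < q.2 ∧ H.Adj q.1 q.2} =>
    (⟨x.1, x.2.1, hHG x.2.2⟩ : {q : Fin n × Fin n // q.1 < q.2 ∧ G.Adj q.1 q.2})) (by
      intro x y hxy
      have := congrArg Subtype.val hxy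
      exact Subtype.ext this)
  exact this

theorem badm_mot {n : ℕ} (G H : SimpleGraph (Fin n)) (hHG : H ≤ G) (p u : Fin n → Pt)
    (a b : Fin n) (hnab : ¬ H.Adj a b)
    (hu : ∀ i j, G.Adj i j → ¬ (s(i, j) = s(a, b)) → ee p u i j = 0) : Mot H p u := by
  intro i j hij
  apply hu i j (hHG hij)
  intro hs
  apply hnab
  have h1 : s(i, j) ∈ H.edgeSet := hij
  rw [hs] at h1
  exact h1

/-- The submodule of arrays of motions. -/
def badmS {n : ℕ} (H : SimpleGraph (Fin n)) (p : Fin n → Pt) (t : Fin 5 → Fin n) :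
    Submodule ℝ (Fin 5 → Fin 5 → ℝ) where
  carrier := {ε | ∃ v, Mot H p v ∧ e5 p v t = ε}
  add_mem' := by
    rintro a b ⟨u, hu, rfl⟩ ⟨v, hv, rfl⟩
    refine ⟨u + v, ?_, ?_⟩
    · intro i j hij
      rw [badm_ee_add, hu i j hij, hv i j hij, add_zero]
    · funext i j
      exact badm_ee_add p u v (t i) (t j)
  zero_mem' := by
    refine ⟨0, ?_, ?_⟩
    · intro i j _
      exact badm_ee_zero p i j
    · funext i j
      exact badm_ee_zero p (t i) (t j)
  smul_mem' := by
    rintro c a ⟨u, hu, rfl⟩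
    refine ⟨c • u, ?_, ?_⟩
    · intro i j hij
      rw [badm_ee_smul, hu i j hij, mul_zero]
    · funext i j
      exact badm_ee_smul p u c (t i) (t j)

theorem badm_Qf {n : ℕ} (p v : Fin n → Pt) (t : Fin 5 → Fin n) (α : Fin 5 → ℝ)
    (h0 : ∑ i, α i = 0) (h1 : ∑ i, α i • p (t i) = 0) : Qf (e5 p v t) α = 0 := by
  unfold Qf e5 ee
  have hc : ∀ r : Fin 3, ∑ i, α i * p (t i) r = 0 := by
    intro r
    have := congrFun h1 r
    simpa [Finset.sum_apply] using this
  have hterm : ∀ i j : Fin 5, (p (t i) - p (t j)) ⬝ᵥ (v (t i) - v (t j)) * α i * α j =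
      ∑ r : Fin 3, ((α i * p (t i) r * v (t i) r) * α j + (α j * p (t j) r * v (t j) r) * α i
        - (α i * p (t i) r) * (α j * v (t j) r) - (α j * p (t j) r) * (α i * v (t i) r)) := by
    intro i j
    unfold dotProduct
    rw [Finset.sum_mul, Finset.sum_mul]
    apply Finset.sum_congr rfl
    intro r _
    simp only [Pi.sub_apply]
    ring
  simp only [hterm]
  have hswap : ∑ i : Fin 5, ∑ j : Fin 5, ∑ r : Fin 3,
      ((α i * p (t i) r * v (t i) r) * α j + (α j * p (t j) r * v (t j) r) * α i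
        - (α i * p (t i) r) * (α j * v (t j) r) - (α j * p (t j) r) * (α i * v (t i) r)) =
      ∑ r : Fin 3, (2 * ((∑ i, α i * p (t i) r * v (t i) r) * (∑ j, α j))
        - 2 * ((∑ i, α i * p (t i) r) * (∑ j, α j * v (t j) r))) := by
    have e1 : ∀ i : Fin 5, ∑ j : Fin 5, ∑ r : Fin 3,
      ((α i * p (t i) r * v (t i) r) * α j + (α j * p (t j) r * v (t j) r) * α i
        - (α i * p (t i) r) * (α j * v (t j) r) - (α j * p (t j) r) * (α i * v (t i) r)) =
      ∑ r : Fin 3, ∑ j : Fin 5, 
      ((α i * p (t i) r * v (t i) r) * α j + (α j * p (t j) r * v (t j) r) * α i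
        - (α i * p (t i) r) * (α j * v (t j) r) - (α j * p (t j) r) * (α i * v (t i) r)) :=
      fun i => Finset.sum_comm
    simp only [e1]
    rw [Finset.sum_comm]
    apply Finset.sum_congr rfl
    intro r _
    simp only [Fin.sum_univ_five]
    ring
  rw [hswap]
  apply Finset.sum_eq_zero
  intro r _
  rw [h0, hc r]
  ring

theorem bad (hr : StRow) (hd : StDU) (hc : StCOO) (hi : StID) (ht : StTA) : StBAD := by
  intro n G H t x y j0 htinj hxy hHG h01 h23 nh01 nh23 hxyG nhxy hs1 hs2 hXI p hgood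
  obtain ⟨hRIG, hgp, hP4⟩ := hgood
  have hRIH : RI H p := badm_RI_mono G H hHG p hRIG
  obtain ⟨u, hu1, hu0⟩ := badm_dual hr hd G p hRIG (t 0) (t 1) h01
  obtain ⟨v, hv1, hv0⟩ := badm_dual hr hd G p hRIG (t 2) (t 3) h23
  obtain ⟨w, hw1, hw0⟩ := badm_dual hr hd G p hRIG (t x) (t y) hxyG
  have hmu : Mot H p u := badm_mot G H hHG p u _ _ nh01 hu0
  have hmv : Mot H p v := badm_mot G H hHG p v _ _ nh23 hv0
  have hmw : Mot H p w := badm_mot G H hHG p w _ _ nhxy hw0
  have hne : ¬ (s(t 2, t 3) = s(t 0, t 1)) := by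
    intro h
    rw [Sym2.eq_iff] at h
    rcases h with ⟨h1, _⟩ | ⟨h1, _⟩
    · have := htinj h1
      exact absurd this (by decide)
    · have := htinj h1
      exact absurd this (by decide)
  have eu01 : e5 p u t 0 1 = 1 := hu1
  have eu23 : e5 p u t 2 3 = 0 := hu0 _ _ h23 hne
  have ev01 : e5 p v t 0 1 = 0 := hv0 _ _ h01 (fun h => hne h.symm)
  have ev23 : e5 p v t 2 3 = 1 := hv1
  have ew01 : e5 p w t 0 1 = 0 := hw0 _ _ h01 (fun h => hs1 h.symm)
  have ew23 : e5 p w t 2 3 = 0 := hw0 _ _ h23 (fun h => hs2 h.symm)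
  have ewxy : e5 p w t x y = 1 := hw1
  have euxy : e5 p u t x y = 0 := hu0 _ _ hxyG hs1
  have evxy : e5 p v t x y = 0 := hv0 _ _ hxyG hs2
  refine ⟨hgp, hP4, ?_, ?_⟩
  · refine ⟨![u, v, w], ?_, ?_⟩
    · intro k
      fin_cases k
      · exact hmu
      · exact hmv
      · exact hmw
    · intro c hcc
      have c0 := hcc 0 1
      have c1 := hcc 2 3
      have c2 := hcc x y
      rw [Fin.sum_univ_three] at c0 c1 c2
      simp only [Matrix.cons_val_zero, Matrix.cons_val_one, Matrix.cons_val_two,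
        Matrix.head_cons, Matrix.tail_cons, Matrix.cons_val] at c0 c1 c2
      rw [eu01, ev01, ew01] at c0
      rw [eu23, ev23, ew23] at c1
      rw [euxy, evxy, ewxy] at c2
      funext k
      fin_cases k
      · simpa using c0
      · simpa using c1
      · simpa using c2
  · intro xx hbar vv hvv
    obtain ⟨hb1, hb2⟩ := hbar
    have hA : ∀ k, oth t j0 k ≠ t j0 := by
      intro k h
      exact Fin.succAbove_ne j0 k (htinj h)
    have hAinj : Function.Injective (oth t j0) := by
      intro k k' h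
      exact Fin.succAbove_right_injective (htinj h)
    have hxk : ∀ k, xx k ≠ 0 := ((hc n p (oth t j0) hAinj hgp).2.1 (t j0) xx hA ⟨hb1, hb2⟩).1
    let α : Fin 5 → ℝ := Fin.insertNth (α := fun _ => ℝ) j0 (-1) xx
    have hα0 : α j0 = -1 := by simp [α]
    have hαk : ∀ k, α (j0.succAbove k) = xx k := by intro k; simp [α]
    have hαs : ∑ i, α i = 0 := by
      rw [Fin.sum_univ_succAbove α j0, hα0]
      simp only [hαk]
      rw [hb1]; ring
    have hαp : ∑ i, α i • p (t i) = 0 := by
      rw [Fin.sum_univ_succAbove (fun i => α i • p (t i)) j0, hα0]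
      simp only [hαk]
      have : ∑ k : Fin 4, xx k • p (t (j0.succAbove k)) = p (t j0) := hb2
      rw [this, neg_smul, one_smul, neg_add_cancel]
    have hαne : ∀ i, α i ≠ 0 := by
      intro i
      rcases Fin.eq_self_or_eq_succAbove j0 i with h | ⟨k, h⟩
      · rw [h, hα0]; norm_num
      · rw [h, hαk]; exact hxk k
    have hdep : ∀ β : Fin 5 → ℝ, ∑ i, β i = 0 → ∑ i, β i • p (t i) = 0 →
        ∃ c : ℝ, β = c • α := by
      intro β hβs hβp
      have hy : (fun k => β (j0.succAbove k) + β j0 * xx k) = (0 : Fin 4 → ℝ) := by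
        have hdet := hgp (oth t j0) hAinj
        unfold D4 at hdet
        apply Matrix.eq_zero_of_vecMul_eq_zero hdet
        have hs : ∑ k, (β (j0.succAbove k) + β j0 * xx k) = 0 := by
          rw [Finset.sum_add_distrib, ← Finset.mul_sum, hb1]
          rw [Fin.sum_univ_succAbove β j0] at hβs
          linarith
        have hp : ∀ r : Fin 3, ∑ k, (β (j0.succAbove k) + β j0 * xx k) * p (oth t j0 k) r = 0 := by
          intro r
          have h1 := congrFun hβp r
          rw [Finset.sum_apply, Fin.sum_univ_succAbove _ j0] at h1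
          have h2 := congrFun hb2 r
          rw [Finset.sum_apply] at h2
          simp only [Pi.smul_apply, smul_eq_mul, Pi.zero_apply] at h1 h2
          have h3 : ∑ k, (β (j0.succAbove k) + β j0 * xx k) * p (oth t j0 k) r =
              ∑ k, β (j0.succAbove k) * p (t (j0.succAbove k)) r +
              β j0 * ∑ k, xx k * p (oth t j0 k) r := by
            rw [Finset.mul_sum, ← Finset.sum_add_distrib]
            apply Finset.sum_congr rfl
            intro k _
            show (β (j0.succAbove k) + β j0 * xx k) * p (oth t j0 k) r =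
              β (j0.succAbove k) * p (oth t j0 k) r + β j0 * (xx k * p (oth t j0 k) r)
            ring
          rw [h3, h2]
          linarith
        funext c
        have hp0 := hp 0
        have hp1 := hp 1
        have hp2 := hp 2
        fin_cases c
        · simpa [Matrix.vecMul, dotProduct] using hs
        · simpa [Matrix.vecMul, dotProduct] using hp0
        · simpa [Matrix.vecMul, dotProduct] using hp1
        · simpa [Matrix.vecMul, dotProduct] using hp2
      refine ⟨- β j0, ?_⟩
      funext i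
      rcases Fin.eq_self_or_eq_succAbove j0 i with h | ⟨k, h⟩
      · rw [h, Pi.smul_apply, hα0, smul_eq_mul]; ring
      · rw [h, Pi.smul_apply, hαk, smul_eq_mul]
        have := congrFun hy k
        simp only [Pi.zero_apply] at this
        linarith
    have hfin : ∀ m, ∑ i, α i * e5 p vv t i m = 0 := by
      apply ht (badmS H p t) α hαne _ _ _ _ x y hxy (e5 p u t) ⟨u, hmu, rfl⟩ (e5 p v t)
        ⟨v, hmv, rfl⟩ (e5 p w t) ⟨w, hmw, rfl⟩ eu01 eu23 ev01 ev23 ew01 ew23 ewxy
        (e5 p vv t) ⟨vv, hvv, rfl⟩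
      · rintro ε ⟨a, _, rfl⟩ i j
        exact badm_ee_symm p a (t i) (t j)
      · rintro ε ⟨a, _, rfl⟩ i
        exact badm_ee_self p a (t i)
      · rintro ε ⟨a, _, rfl⟩
        exact badm_Qf p a t α hαs hαp
      · rintro ε ⟨a, ha, rfl⟩ ε' ⟨b, hb, rfl⟩ μ hμ
        exact hi n H t htinj hXI p hRIH α hαs hαp hdep a b ha hb μ hμ
    have hsplit : ∀ m, -(ee p vv (t j0) (t m)) + Dl p vv (oth t j0) (t m) xx = 0 := by
      intro m
      have h := hfin m
      rw [Fin.sum_univ_succAbove _ j0, hα0] at h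
      simp only [hαk] at h
      have h2 : ∑ k, xx k * e5 p vv t (j0.succAbove k) m = Dl p vv (oth t j0) (t m) xx := rfl
      rw [h2] at h
      have h3 : e5 p vv t j0 m = ee p vv (t j0) (t m) := rfl
      rw [h3] at h
      linarith
    refine ⟨?_, ?_⟩
    · intro m
      have h := hsplit (j0.succAbove m)
      have : t (j0.succAbove m) = oth t j0 m := rfl
      rw [this] at h
      linarith
    · have h := hsplit j0
      rw [badm_ee_self] at h
      linarith

end Pool.Agent.Helper65.XR
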