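import Pool.Agent.Helper65.XR.St

/-! XR module BARCOO: barycentric coordinates -/

set_option autoImplicit false

namespace Pool.Agent.Helper65.XR

open Finset

theorem bar : StBAR := by
  intro n p v A z x hx l
  obtain ⟨h1, h2⟩ := hx
  subst h2
  unfold Dl qv ee
  simp only [Fin.sum_univ_four, sub_dotProduct, dotProduct_sub, add_dotProduct, dotProduct_add,
    smul_dotProduct, dotProduct_smul, smul_eq_mul] at h1 ⊢
  linear_combination (x 0 * (p (A 0) ⬝ᵥ v (A 0)) + x 1 * (p (A 1) ⬝ᵥ v (A 1)) +
    x 2 * (p (A 2) ⬝ᵥ v (A 2)) + x 3 * (p (A 3) ⬝ᵥ v (A 3)) - p l ⬝ᵥ v l) * h1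

/-- the matrix of four points -/
private noncomputable def MB {n : ℕ} (p : Fin n → Pt) (i : Fin 4 → Fin n) :
    Matrix (Fin 4) (Fin 4) ℝ := Matrix.of fun r : Fin 4 => ![1, p (i r) 0, p (i r) 1, p (i r) 2]

private theorem D4_MB {n : ℕ} (p : Fin n → Pt) (i : Fin 4 → Fin n) : D4 p i = (MB p i).det := rfl

theorem coo : StCOO := by
  intro n p A hA hG
  have hdet : (MB p A).det ≠ 0 := hG A hA
  refine ⟨?_, ?_, ?_⟩
  · intro z
    let y : Fin 4 → ℝ := ![1, z 0, z 1, z 2]
    let x : Fin 4 → ℝ := Matrix.vecMul y (MB p A)⁻¹
    have hx : Matrix.vecMul x (MB p A) = y := by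
      rw [Matrix.vecMul_vecMul, Matrix.nonsing_inv_mul _ (isUnit_iff_ne_zero.2 hdet),
        Matrix.vecMul_one]
    have hx' : ∀ j, ∑ k, x k * MB p A k j = y j := by
      intro j
      have := congrFun hx j
      exact this
    refine ⟨x, ?_, ?_⟩
    · have := hx' 0
      simpa [MB, y] using this
    · funext j
      rw [Finset.sum_apply]
      fin_cases j
      · have := hx' 1
        simpa [MB, y] using this
      · have := hx' 2
        simpa [MB, y] using this
      · have := hx' 3
        simpa [MB, y] using this
  · intro l x hl hx
    have hrow : (![1, p l 0, p l 1, p l 2] : Fin 4 → ℝ) = ∑ k, x k • (MB p A) k := by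
      obtain ⟨h1, h2⟩ := hx
      funext j
      rw [Finset.sum_apply]
      fin_cases j
      · have : (∑ k, x k * 1) = 1 := by simpa using h1
        simpa [MB] using this.symm
      · have := congrFun h2 0
        rw [Finset.sum_apply] at this
        simpa [MB] using this.symm
      · have := congrFun h2 1
        rw [Finset.sum_apply] at this
        simpa [MB] using this.symm
      · have := congrFun h2 2
        rw [Finset.sum_apply] at this
        simpa [MB] using this.symm
    have hD : ∀ k, D4 p (Function.update A k l) = x k * D4 p A := by
      intro k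
      have h3 : MB p (Function.update A k l) = (MB p A).updateRow k (∑ m, x m • (MB p A) m) := by
        ext r j
        by_cases hr : r = k
        · subst hr
          rw [Matrix.updateRow_self, ← hrow]
          unfold MB
          rw [Matrix.of_apply, Function.update_self]
        · rw [Matrix.updateRow_ne hr]
          unfold MB
          rw [Matrix.of_apply, Matrix.of_apply, Function.update_of_ne hr]
      rw [D4_MB, h3, Matrix.det_updateRow_sum, D4_MB, smul_eq_mul]
    refine ⟨?_, hD⟩
    intro k hk
    have h4 : Function.Injective (Function.update A k l) := by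
      intro a b hab
      by_cases ha : a = k
      · by_cases hb : b = k
        · rw [ha, hb]
        · rw [ha, Function.update_self, Function.update_of_ne hb] at hab
          exact absurd hab.symm (hl b)
      · by_cases hb : b = k
        · rw [hb, Function.update_self, Function.update_of_ne ha] at hab
          exact absurd hab (hl a)
        · rw [Function.update_of_ne ha, Function.update_of_ne hb] at hab
          exact hA hab
    apply hG _ h4
    rw [hD k, hk, zero_mul]
  · intro w z hw
    have h5 : (MB p A).mulVec ![z ⬝ᵥ w, - w 0, - w 1, - w 2] = 0 := by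
      funext k
      have h6 := hw k
      simp only [dotProduct, Fin.sum_univ_three, Pi.sub_apply] at h6
      simp only [Matrix.mulVec, dotProduct, MB, Fin.sum_univ_four, Fin.sum_univ_three,
        Matrix.of_apply, Pi.zero_apply, Matrix.cons_val]
      linear_combination h6
    have h7 := Matrix.eq_zero_of_mulVec_eq_zero hdet h5
    funext j
    fin_cases j
    · have := congrFun h7 1
      simpa using this
    · have := congrFun h7 2
      simpa using this
    · have := congrFun h7 3
      simpa using this

end Pool.Agent.Helper65.XR
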