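import Pool.Agent.Helper65.XR.St

set_option autoImplicit false

namespace Pool.Agent.Helper65.XR

open Finset

theorem ex_sub {α : Type} [Fintype α] {M : Type} [AddCommMonoid M] (P : α → Prop)
    [DecidablePred P] (f : α → M) (h : ∀ x, ¬ P x → f x = 0) :
    ∑ x : {x // P x}, f x.1 = ∑ x, f x := by
  rw [← Finset.sum_subtype (univ.filter P) (fun x => by simp) f]
  exact Finset.sum_filter_of_ne fun x _ hx => by
    by_contra h'
    exact hx (h x h')

theorem ex (hr : StRow) : StEX := by
  classical
  intro n H t ht p q hRI hlam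
  set p' : Fin (n + 1) → Pt := Fin.snoc (α := fun _ => Pt) p q with hp'
  have hl : p' (Fin.last n) = q := by simp [hp']
  have hs : ∀ u : Fin n, p' u.castSucc = p u := by intro u; simp [hp']
  refine ⟨p', ?_⟩
  let P : Fin (n + 1) × Fin (n + 1) → Prop := fun q => q.1 < q.2 ∧
    ((∃ u v : Fin n, q.1 = u.castSucc ∧ q.2 = v.castSucc ∧ H.Adj u v) ∨
      (q.2 = Fin.last n ∧ ∃ i, q.1 = (t i).castSucc))
  change LinearIndependent ℝ (fun x : {q // P q} => Row p' x.1.1 x.1.2)
  rw [Fintype.linearIndependent_iff]
  intro c hc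
  let C : Fin (n + 1) → Fin (n + 1) → ℝ := fun a b => if h : P (a, b) then c ⟨(a, b), h⟩ else 0
  have hC0 : ∀ a b, ¬ P (a, b) → C a b = 0 := fun a b h => dif_neg h
  have hC1 : ∀ x : {q // P q}, C x.1.1 x.1.2 = c x := fun x => dif_pos x.2
  have hne : ∀ v : Fin n, Fin.last n ≠ v.castSucc := fun v => (Fin.castSucc_lt_last v).ne'
  -- coefficients of the three kinds of pairs
  have hCl : ∀ b, C (Fin.last n) b = 0 := fun b => hC0 _ _ fun h =>
    absurd h.1 (not_lt.2 (Fin.le_last b))
  have hCs : ∀ u v : Fin n, C u.castSucc v.castSucc ≠ 0 → u < v ∧ H.Adj u v := by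
    intro u v h
    have h1 : P (u.castSucc, v.castSucc) := by
      by_contra h2
      exact h (hC0 _ _ h2)
    rcases h1.2 with ⟨a, b, ha, hb, hab⟩ | ⟨h2, -⟩
    · refine ⟨by simpa using h1.1, ?_⟩
      rw [Fin.castSucc_inj.1 ha, Fin.castSucc_inj.1 hb]
      exact hab
    · exact absurd h2.symm (hne v)
  have hCt : ∀ u : Fin n, u ∉ univ.image t → C u.castSucc (Fin.last n) = 0 := by
    intro u hu
    refine hC0 _ _ fun h => ?_
    rcases h.2 with ⟨a, b, -, hb, -⟩ | ⟨-, i, hi⟩
    · exact hne b hb
    · exact hu (mem_image.2 ⟨i, mem_univ _, (Fin.castSucc_inj.1 hi).symm⟩)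
  -- the relation as a sum over all pairs
  have hsum : ∑ a, ∑ b, C a b • Row p' a b = 0 := by
    rw [← Fintype.sum_prod_type' (f := fun a b => C a b • Row p' a b)]
    rw [← ex_sub P (fun x => C x.1 x.2 • Row p' x.1 x.2)
      (fun x hx => by rw [hC0 _ _ hx, zero_smul])]
    rw [← hc]
    exact Finset.sum_congr rfl fun x _ => by rw [hC1]
  have himg : ∀ {M : Type} [AddCommMonoid M] (f : Fin n → M),
      (∀ u, u ∉ univ.image t → f u = 0) → ∑ u, f u = ∑ i, f (t i) := by
    intro M _ f hf
    rw [← Finset.sum_subset (Finset.subset_univ (univ.image t)) (fun u _ hu => hf u hu),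
      Finset.sum_image fun a _ b _ h => ht h]
  set lam : Fin 5 → ℝ := fun i => C (t i).castSucc (Fin.last n) with hlamdef
  have hsplit : ∑ u : Fin n, ∑ v : Fin n, C u.castSucc v.castSucc • Row p' u.castSucc v.castSucc
      + ∑ i, lam i • Row p' (t i).castSucc (Fin.last n) = 0 := by
    rw [← hsum, Fin.sum_univ_castSucc (f := fun a => ∑ b, C a b • Row p' a b)]
    have e1 : ∑ b, C (Fin.last n) b • Row p' (Fin.last n) b = 0 :=
      Finset.sum_eq_zero fun b _ => by rw [hCl, zero_smul]
    rw [e1, add_zero]
    have e2 : ∀ u : Fin n, ∑ b, C u.castSucc b • Row p' u.castSucc b =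
        ∑ v : Fin n, C u.castSucc v.castSucc • Row p' u.castSucc v.castSucc +
          C u.castSucc (Fin.last n) • Row p' u.castSucc (Fin.last n) := fun u =>
      Fin.sum_univ_castSucc _
    simp only [e2, Finset.sum_add_distrib]
    congr 1
    rw [himg (fun u => C u.castSucc (Fin.last n) • Row p' u.castSucc (Fin.last n))
      (fun u hu => by rw [hCt u hu, zero_smul])]
  have hlam0 : lam = 0 := by
    refine hlam lam ?_ ?_
    · have h1 := congrFun hsplit (Fin.last n)
      simp only [Pi.add_apply, Finset.sum_apply, Pi.smul_apply, Pi.zero_apply] at h1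
      have e1 : ∀ u v : Fin n, Row p' u.castSucc v.castSucc (Fin.last n) = 0 := by
        intro u v
        simp [Row, hne]
      have e2 : ∀ i, Row p' (t i).castSucc (Fin.last n) (Fin.last n) = q - p (t i) := by
        intro i
        simp [Row, hne, hl, hs]
      simp only [e1, e2, smul_zero, Finset.sum_const_zero, zero_add] at h1
      have : ∑ i, lam i • (p (t i) - q) = - ∑ i, lam i • (q - p (t i)) := by
        rw [← Finset.sum_neg_distrib]
        exact Finset.sum_congr rfl fun i _ => by rw [← smul_neg, neg_sub]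
      rw [this, h1, neg_zero]
    · intro u hu
      set u' : Fin (n + 1) → Pt := Fin.snoc (α := fun _ => Pt) u 0 with hu'
      have hul : u' (Fin.last n) = 0 := by simp [hu']
      have hus : ∀ k : Fin n, u' k.castSucc = u k := by intro k; simp [hu']
      -- pairing with u'
      let φ : (Fin (n + 1) → Pt) →ₗ[ℝ] ℝ :=
        { toFun := fun w => ∑ k, (w k) ⬝ᵥ (u' k)
          map_add' := fun a b => by simp [add_dotProduct, Finset.sum_add_distrib]
          map_smul' := fun a b => by simp [smul_dotProduct, Finset.mul_sum] }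
      have hφ : ∀ i j, i ≠ j → φ (Row p' i j) = ee p' u' i j := fun i j hij => hr _ p' u' i j hij
      have h1 := congrArg φ hsplit
      rw [map_add, map_zero, map_sum, map_sum] at h1
      have e1 : ∑ a : Fin n, φ (∑ v : Fin n,
          C a.castSucc v.castSucc • Row p' a.castSucc v.castSucc) = 0 := by
        refine Finset.sum_eq_zero fun a _ => ?_
        rw [map_sum]
        refine Finset.sum_eq_zero fun v _ => ?_
        rw [map_smul]
        by_cases h0 : C a.castSucc v.castSucc = 0
        · rw [h0, zero_smul]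
        · obtain ⟨h2, h3⟩ := hCs a v h0
          rw [hφ _ _ (by simpa using h2.ne)]
          have : ee p' u' a.castSucc v.castSucc = ee p u a v := by
            simp only [ee, hs, hus]
          rw [this, hu a v h3, smul_zero]
      rw [e1, zero_add] at h1
      rw [← h1]
      refine Finset.sum_congr rfl fun i _ => ?_
      rw [map_smul, hφ _ _ (hne (t i)).symm, smul_eq_mul]
      simp only [ee, hs, hus, hl, hul, sub_zero]
  -- now the rows of H
  have hrest : ∑ u : Fin n, ∑ v : Fin n,
      C u.castSucc v.castSucc • Row p' u.castSucc v.castSucc = 0 := by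
    rw [hlam0] at hsplit
    simpa using hsplit
  have hrest2 : ∑ u : Fin n, ∑ v : Fin n, C u.castSucc v.castSucc • Row p u v = 0 := by
    funext k
    have h1 := congrFun hrest k.castSucc
    simp only [Finset.sum_apply, Pi.smul_apply, Pi.zero_apply] at h1 ⊢
    rw [← h1]
    refine Finset.sum_congr rfl fun u _ => Finset.sum_congr rfl fun v _ => ?_
    congr 1
    simp [Row, hs]
  unfold RI at hRI
  rw [Fintype.linearIndependent_iff] at hRI
  have hH := hRI (fun x => C x.1.1.castSucc x.1.2.castSucc) (by
    rw [ex_sub (fun q : Fin n × Fin n => q.1 < q.2 ∧ H.Adj q.1 q.2)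
      (fun x => C x.1.castSucc x.2.castSucc • Row p x.1 x.2) (fun x hx => by
        have : C x.1.castSucc x.2.castSucc = 0 := by
          by_contra h0
          exact hx (hCs _ _ h0)
        rw [this, zero_smul]),
      Fintype.sum_prod_type' (f := fun a b => C a.castSucc b.castSucc • Row p a b)]
    exact hrest2)
  intro x
  rw [← hC1 x]
  rcases x.2.2 with ⟨u, v, h1, h2, h3⟩ | ⟨h1, i, h2⟩
  · have hlt : u < v := by
      have := x.2.1
      rw [h1, h2] at this
      simpa using this
    have := hH ⟨(u, v), hlt, h3⟩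
    rw [h1, h2]
    exact this
  · rw [h1, h2]
    exact congrFun hlam0 i

end Pool.Agent.Helper65.XR
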