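import Pool.Agent.Helper65.XR.Asm

set_option autoImplicit false

namespace Pool.Agent.Helper65.XR

open Finset

/-- Some placement in 3-space has linearly independent rigidity matrix rows. -/
def Indep3 {n : ℕ} (G : SimpleGraph (Fin n)) : Prop :=
  ∃ p : Fin n → Fin 3 → ℝ, LinearIndependent ℝ
    (fun x : {q : Fin n × Fin n // q.1 < q.2 ∧ G.Adj q.1 q.2} =>
      fun k : Fin n =>
        if k = x.1.1 then p x.1.1 - p x.1.2
        else if k = x.1.2 then p x.1.2 - p x.1.1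
        else (0 : Fin 3 → ℝ))

/-- The graph obtained by deleting `ab`, `cd` and adding a vertex joined to `a,b,c,d,e`
is independent. -/
def XIndep {n : ℕ} (G : SimpleGraph (Fin n)) (a b c d e : Fin n) : Prop :=
  ∃ p : Fin (n + 1) → Fin 3 → ℝ, LinearIndependent ℝ
    (fun x : {q : Fin (n + 1) × Fin (n + 1) // q.1 < q.2 ∧
        ((∃ u v : Fin n, q.1 = u.castSucc ∧ q.2 = v.castSucc ∧ G.Adj u v ∧
            s(u, v) ≠ s(a, b) ∧ s(u, v) ≠ s(c, d)) ∨
         (q.2 = Fin.last n ∧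
            ∃ u ∈ ({a, b, c, d, e} : Finset (Fin n)), q.1 = u.castSucc))} =>
      fun k : Fin (n + 1) =>
        if k = x.1.1 then p x.1.1 - p x.1.2
        else if k = x.1.2 then p x.1.2 - p x.1.1
        else (0 : Fin 3 → ℝ))

theorem mem_t {n : ℕ} (a b c d e : Fin n) (x : Fin n) :
    x ∈ ({a, b, c, d, e} : Finset (Fin n)) ↔ ∃ i, (![a, b, c, d, e] : Fin 5 → Fin n) i = x := by
  constructor
  · intro h
    simp only [Finset.mem_insert, Finset.mem_singleton] at h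
    rcases h with h | h | h | h | h
    · exact ⟨0, h.symm⟩
    · exact ⟨1, h.symm⟩
    · exact ⟨2, h.symm⟩
    · exact ⟨3, h.symm⟩
    · exact ⟨4, h.symm⟩
  · rintro ⟨i, rfl⟩
    fin_cases i <;> simp

theorem t_inj {n : ℕ} (a b c d e : Fin n) (h : [a, b, c, d, e].Nodup) :
    Function.Injective (![a, b, c, d, e] : Fin 5 → Fin n) := by
  simp only [List.nodup_cons, List.mem_cons, List.not_mem_nil, or_false, not_or,
    List.nodup_nil, and_true] at h
  obtain ⟨⟨h1, h2, h3, h4⟩, ⟨h5, h6, h7⟩, ⟨h8, h9⟩, h10, -⟩ := h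
  intro i j hij
  fin_cases i <;> fin_cases j <;> simp_all [eq_comm]

theorem XI_to {n : ℕ} (G : SimpleGraph (Fin n)) (a b c d e : Fin n)
    (h : XI (G.deleteEdges {s(a, b), s(c, d)}) ![a, b, c, d, e]) : XIndep G a b c d e := by
  obtain ⟨p, hp⟩ := h
  refine ⟨p, ?_⟩
  let φ : {q : Fin (n + 1) × Fin (n + 1) // q.1 < q.2 ∧
        ((∃ u v : Fin n, q.1 = u.castSucc ∧ q.2 = v.castSucc ∧ G.Adj u v ∧
            s(u, v) ≠ s(a, b) ∧ s(u, v) ≠ s(c, d)) ∨
         (q.2 = Fin.last n ∧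
            ∃ u ∈ ({a, b, c, d, e} : Finset (Fin n)), q.1 = u.castSucc))} →
      {q : Fin (n + 1) × Fin (n + 1) // q.1 < q.2 ∧
        ((∃ u v : Fin n, q.1 = u.castSucc ∧ q.2 = v.castSucc ∧
            (G.deleteEdges {s(a, b), s(c, d)}).Adj u v) ∨
         (q.2 = Fin.last n ∧ ∃ i, q.1 = ((![a, b, c, d, e] : Fin 5 → Fin n) i).castSucc))} :=
    fun q => ⟨q.1, q.2.1, by
      rcases q.2.2 with ⟨u, v, h1, h2, h3, h4, h5⟩ | ⟨h1, u, hu, h2⟩
      · refine Or.inl ⟨u, v, h1, h2, ?_⟩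
        rw [SimpleGraph.deleteEdges_adj]
        exact ⟨h3, by simp [h4, h5]⟩
      · obtain ⟨i, hi⟩ := (mem_t a b c d e u).1 hu
        exact Or.inr ⟨h1, i, by rw [hi]; exact h2⟩⟩
  have hφ : Function.Injective φ := fun x y hxy => by
    have h1 : (φ x).1 = (φ y).1 := congrArg (fun z => z.1) hxy
    exact Subtype.ext h1
  exact hp.comp φ hφ

theorem final (hrow : StRow) (hdu : StDU) (hcoo : StCOO) (hk : StK6) (hgen : StGEN)
    (hd2 : StD2) (hd3 : StD3) (hd4 : StD4) (hbad : StBAD)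
    (n : ℕ) (G : SimpleGraph (Fin n)) (a b c d e : Fin n) (hnd : [a, b, c, d, e].Nodup)
    (hab : G.Adj a b) (hcd : G.Adj c d)
    (h : ((∃ x ∈ ({a, b, c, d, e} : Finset (Fin n)), ∃ y ∈ ({a, b, c, d, e} : Finset (Fin n)),
            x ≠ y ∧ ¬ G.Adj x y ∧ Indep3 (G ⊔ SimpleGraph.edge x y)) ∧
          (∃ j ∈ ({a, b, c, d, e} : Finset (Fin n)), ∃ N : Finset (Fin n), N.card ≤ 4 ∧
            ∀ l, G.Adj j l → s(j, l) ≠ s(a, b) → s(j, l) ≠ s(c, d) → l ∈ N)) ∨
        (∃ G' : SimpleGraph (Fin n), G ≤ G' ∧ Indep3 G' ∧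
          ∃ F : Finset (Fin n × Fin n), F.card = 4 ∧ ∀ q ∈ F, q.1 < q.2 ∧
            q.1 ∈ ({a, b, c, d, e} : Finset (Fin n)) ∧
            q.2 ∈ ({a, b, c, d, e} : Finset (Fin n)) ∧ G'.Adj q.1 q.2 ∧ ¬ G.Adj q.1 q.2)) :
    XIndep G a b c d e := by
  classical
  apply XI_to
  set H : SimpleGraph (Fin n) := G.deleteEdges {s(a, b), s(c, d)} with hHdef
  set t : Fin 5 → Fin n := ![a, b, c, d, e] with htdef
  have hHadj : ∀ u v, H.Adj u v ↔ G.Adj u v ∧ s(u, v) ≠ s(a, b) ∧ s(u, v) ≠ s(c, d) := by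
    intro u v
    rw [hHdef, SimpleGraph.deleteEdges_adj]
    simp only [Set.mem_insert_iff, Set.mem_singleton_iff, not_or, ne_eq]
  have htinj : Function.Injective t := t_inj a b c d e hnd
  have hHG : H ≤ G := fun u v huv => ((hHadj u v).1 huv).1
  have n01 : ¬ H.Adj (t 0) (t 1) := fun hc => ((hHadj _ _).1 hc).2.1 rfl
  have n23 : ¬ H.Adj (t 2) (t 3) := fun hc => ((hHadj _ _).1 hc).2.2 rfl
  rcases h with ⟨⟨x, hx, y, hy, hxy, hnadj, hG2⟩, ⟨j, hj, N, hNc, hN⟩⟩ | ⟨G', hGG', hG', F, hFc, hF⟩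
  · obtain ⟨ix, hix⟩ := (mem_t a b c d e x).1 hx
    obtain ⟨iy, hiy⟩ := (mem_t a b c d e y).1 hy
    obtain ⟨j0, hj0⟩ := (mem_t a b c d e j).1 hj
    have hixy : ix ≠ iy := by
      rintro rfl
      exact hxy (hix.symm.trans hiy)
    have hadj : (G ⊔ SimpleGraph.edge x y).Adj x y := by
      rw [SimpleGraph.sup_adj, SimpleGraph.edge_adj]
      exact Or.inr ⟨Or.inl ⟨rfl, rfl⟩, hxy⟩
    refine core hgen hd2 hd3 hd4 hbad n (G ⊔ SimpleGraph.edge x y) H t ix iy j0 htinj hixy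
      (hHG.trans le_sup_left) (Or.inl hab) (Or.inl hcd) n01 n23 ?_ ?_ ?_ ?_ hG2
      (Finset.univ.filter fun l => H.Adj (t j0) l) ?_ ?_
    · rw [show t ix = x from hix, show t iy = y from hiy]; exact hadj
    · rw [show t ix = x from hix, show t iy = y from hiy]
      exact fun hc => hnadj (hHG hc)
    · rw [show t ix = x from hix, show t iy = y from hiy]
      intro hc
      have : G.Adj x y := by
        rw [← SimpleGraph.mem_edgeSet, hc, SimpleGraph.mem_edgeSet]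
        exact hab
      exact hnadj this
    · rw [show t ix = x from hix, show t iy = y from hiy]
      intro hc
      have : G.Adj x y := by
        rw [← SimpleGraph.mem_edgeSet, hc, SimpleGraph.mem_edgeSet]
        exact hcd
      exact hnadj this
    · intro l
      simp
    · refine le_trans (Finset.card_le_card ?_) hNc
      intro l hl
      rw [Finset.mem_filter] at hl
      have h1 := (hHadj _ _).1 hl.2
      rw [show t j0 = j from hj0] at h1
      exact hN l h1.1 h1.2.1 h1.2.2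
  · -- six edges
    have key : ∀ u v : Fin n, G.Adj u v → u ∈ ({a, b, c, d, e} : Finset (Fin n)) →
        v ∈ ({a, b, c, d, e} : Finset (Fin n)) → ¬ H.Adj u v → ∃ q : Fin n × Fin n,
        s(q.1, q.2) = s(u, v) ∧ q.1 < q.2 ∧ q.1 ∈ ({a, b, c, d, e} : Finset (Fin n)) ∧
        q.2 ∈ ({a, b, c, d, e} : Finset (Fin n)) ∧ G.Adj q.1 q.2 ∧ ¬ H.Adj q.1 q.2 := by
      intro u v huv hu hv hH
      rcases lt_or_gt_of_ne (G.ne_of_adj huv) with hlt | hlt
      · exact ⟨(u, v), rfl, hlt, hu, hv, huv, hH⟩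
      · exact ⟨(v, u), Sym2.eq_swap, hlt, hv, hu, huv.symm, fun hc => hH hc.symm⟩
    obtain ⟨q1, q1s, q1a, q1b, q1c, q1d, q1e⟩ := key a b hab (by simp) (by simp) n01
    obtain ⟨q2, q2s, q2a, q2b, q2c, q2d, q2e⟩ := key c d hcd (by simp) (by simp) n23
    have hq12 : q1 ≠ q2 := by
      intro hc
      rw [hc, q2s] at q1s
      simp only [List.nodup_cons, List.mem_cons, List.not_mem_nil, or_false, not_or,
        List.nodup_nil, and_true] at hnd
      rw [Sym2.eq_iff] at q1s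
      rcases q1s with ⟨h1, h2⟩ | ⟨h1, h2⟩
      · exact hnd.1.2.1 h1.symm
      · exact hnd.2.1.1 h1.symm
    have hF1 : q1 ∉ F := fun hc => (hF q1 hc).2.2.2.2 q1d
    have hF2 : q2 ∉ F := fun hc => (hF q2 hc).2.2.2.2 q2d
    have hcard : (insert q1 (insert q2 F)).card = 6 := by
      rw [Finset.card_insert_of_notMem, Finset.card_insert_of_notMem hF2, hFc]
      rw [Finset.mem_insert, not_or]
      exact ⟨hq12, hF1⟩
    let E := (insert q1 (insert q2 F)).equivFinOfCardEq hcard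
    let F6 : Fin 6 → Fin n × Fin n := fun k => (E.symm k).1
    have hF6 : Function.Injective F6 := fun x y hxy => E.symm.injective (Subtype.ext hxy)
    have hF6m : ∀ k, F6 k = q1 ∨ F6 k = q2 ∨ F6 k ∈ F := by
      intro k
      have := (E.symm k).2
      rw [Finset.mem_insert, Finset.mem_insert] at this
      exact this
    have hall : ∀ k, (F6 k).1 < (F6 k).2 ∧ G'.Adj (F6 k).1 (F6 k).2 ∧
        ¬ H.Adj (F6 k).1 (F6 k).2 ∧ (F6 k).1 ∈ ({a, b, c, d, e} : Finset (Fin n)) ∧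
        (F6 k).2 ∈ ({a, b, c, d, e} : Finset (Fin n)) := by
      intro k
      rcases hF6m k with h | h | h
      · rw [h]; exact ⟨q1a, hGG' q1d, q1e, q1b, q1c⟩
      · rw [h]; exact ⟨q2a, hGG' q2d, q2e, q2b, q2c⟩
      · obtain ⟨h1, h2, h3, h4, h5⟩ := hF _ h
        exact ⟨h1, h4, fun hc => h5 (hHG hc), h2, h3⟩
    obtain ⟨q, hq⟩ : F.Nonempty := by
      rw [← Finset.card_pos, hFc]; norm_num
    obtain ⟨g1, g2, g3, g4, g5⟩ := hF q hq
    obtain ⟨ix, hix⟩ := (mem_t a b c d e q.1).1 g2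
    obtain ⟨iy, hiy⟩ := (mem_t a b c d e q.2).1 g3
    have hixy : ix ≠ iy := by
      rintro rfl
      exact (ne_of_lt g1) (hix.symm.trans hiy)
    refine core6 hrow hdu hcoo hk hgen hbad n G' H t ix iy htinj hixy (hHG.trans hGG')
      (hGG' hab) (hGG' hcd) n01 n23 ?_ ?_ ?_ ?_ hG' F6 hF6
      (fun k => ⟨(hall k).1, (hall k).2.1, (hall k).2.2.1⟩)
      (fun k => ⟨(mem_t a b c d e _).1 (hall k).2.2.2.1, (mem_t a b c d e _).1 (hall k).2.2.2.2⟩)
    · rw [show t ix = q.1 from hix, show t iy = q.2 from hiy]; exact g4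
    · rw [show t ix = q.1 from hix, show t iy = q.2 from hiy]
      exact fun hc => g5 (hHG hc)
    · rw [show t ix = q.1 from hix, show t iy = q.2 from hiy]
      intro hc
      have : G.Adj q.1 q.2 := by
        rw [← SimpleGraph.mem_edgeSet, hc, SimpleGraph.mem_edgeSet]
        exact hab
      exact g5 this
    · rw [show t ix = q.1 from hix, show t iy = q.2 from hiy]
      intro hc
      have : G.Adj q.1 q.2 := by
        rw [← SimpleGraph.mem_edgeSet, hc, SimpleGraph.mem_edgeSet]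
        exact hcd
      exact g5 this

end Pool.Agent.Helper65.XR
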