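import Mathlib

set_option autoImplicit false

namespace Pool.Agent.Helper65.XR

open Finset

/-- Positions and velocities in 3-space. -/
abbrev Pt := Fin 3 → ℝ

/-- First order change of (half) the squared length of the pair `i, j`. -/
def ee {n : ℕ} (p u : Fin n → Pt) (i j : Fin n) : ℝ := (p i - p j) ⬝ᵥ (u i - u j)

/-- Row of the rigidity matrix. -/
def Row {n : ℕ} (p : Fin n → Pt) (i j : Fin n) : Fin n → Pt :=
  fun k => if k = i then p i - p j else if k = j then p j - p i else 0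

/-- The rows of the rigidity matrix of `G` at `p` are independent. -/
def RI {n : ℕ} (G : SimpleGraph (Fin n)) (p : Fin n → Pt) : Prop :=
  LinearIndependent ℝ
    (fun x : {q : Fin n × Fin n // q.1 < q.2 ∧ G.Adj q.1 q.2} => Row p x.1.1 x.1.2)

/-- Infinitesimal motions. -/
def Mot {n : ℕ} (H : SimpleGraph (Fin n)) (p u : Fin n → Pt) : Prop :=
  ∀ i j, H.Adj i j → ee p u i j = 0

/-- `H` plus a new vertex joined to the five vertices `t i` is generically independent. -/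
def XI {n : ℕ} (H : SimpleGraph (Fin n)) (t : Fin 5 → Fin n) : Prop :=
  ∃ p : Fin (n + 1) → Pt, LinearIndependent ℝ
    (fun x : {q : Fin (n + 1) × Fin (n + 1) // q.1 < q.2 ∧
        ((∃ u v : Fin n, q.1 = u.castSucc ∧ q.2 = v.castSucc ∧ H.Adj u v) ∨
         (q.2 = Fin.last n ∧ ∃ i, q.1 = (t i).castSucc))} => Row p x.1.1 x.1.2)

/-- The array `e_{ij}` of a motion on the five vertices. -/
def e5 {n : ℕ} (p u : Fin n → Pt) (t : Fin 5 → Fin n) : Fin 5 → Fin 5 → ℝ :=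
  fun i j => ee p u (t i) (t j)

/-- Twice the quadratic form. -/
def Qf (ε : Fin 5 → Fin 5 → ℝ) (μ : Fin 5 → ℝ) : ℝ := ∑ i, ∑ j, ε i j * μ i * μ j

/-- The linear form. -/
def Lf (ε : Fin 5 → Fin 5 → ℝ) (α μ : Fin 5 → ℝ) : ℝ := ∑ i, ∑ j, α i * ε i j * μ j

/-- The determinant of four points (affine independence). -/
noncomputable def D4 {n : ℕ} (p : Fin n → Pt) (i : Fin 4 → Fin n) : ℝ :=
  (Matrix.of fun r : Fin 4 => ![1, p (i r) 0, p (i r) 1, p (i r) 2]).det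

/-- Any four distinct points are affinely independent. -/
def GPos {n : ℕ} (p : Fin n → Pt) : Prop :=
  ∀ i : Fin 4 → Fin n, Function.Injective i → D4 p i ≠ 0

/-- Condition that four points impose four conditions on quadrics through the simplex `i`. -/
noncomputable def P4 {n : ℕ} (p : Fin n → Pt) (i l : Fin 4 → Fin n) : ℝ :=
  (Matrix.of fun r : Fin 4 =>
    ![D4 p (Function.update i 0 (l r)) * D4 p (Function.update i 1 (l r)),
      D4 p (Function.update i 0 (l r)) * D4 p (Function.update i 2 (l r)),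
      D4 p (Function.update i 0 (l r)) * D4 p (Function.update i 3 (l r)),
      D4 p (Function.update i 1 (l r)) * D4 p (Function.update i 2 (l r))]).det

/-- Good placements for `G`. -/
def Good {n : ℕ} (G : SimpleGraph (Fin n)) (p : Fin n → Pt) : Prop :=
  RI G p ∧ GPos p ∧ ∀ i l : Fin 4 → Fin n, Function.Injective i → Function.Injective l →
    (∀ r s, i r ≠ l s) → P4 p i l ≠ 0

/-- The form `D_l(v)`. -/
def Dl {n : ℕ} (p v : Fin n → Pt) (A : Fin 4 → Fin n) (l : Fin n) (x : Fin 4 → ℝ) : ℝ :=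
  ∑ k, x k * ee p v (A k) l

/-- Twice the quadratic form of `v` on the simplex `A`. -/
def qv {n : ℕ} (p v : Fin n → Pt) (A : Fin 4 → Fin n) (x : Fin 4 → ℝ) : ℝ :=
  ∑ k, ∑ m, x k * x m * ee p v (A k) (A m)

/-- The four vertices of `t` other than `t j0`. -/
def oth {n : ℕ} (t : Fin 5 → Fin n) (j0 : Fin 5) : Fin 4 → Fin n := fun k => t (j0.succAbove k)

/-- Barycentric coordinates of a point with respect to the simplex `A`. -/
def Bar {n : ℕ} (p : Fin n → Pt) (A : Fin 4 → Fin n) (z : Pt) (x : Fin 4 → ℝ) : Prop :=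
  ∑ k, x k = 1 ∧ ∑ k, x k • p (A k) = z

/-- Motions of `H` without the vertex `j`. -/
def MotF {n : ℕ} (H : SimpleGraph (Fin n)) (j : Fin n) (p v : Fin n → Pt) : Prop :=
  ∀ i l, H.Adj i l → i ≠ j → l ≠ j → ee p v i l = 0

/-- What is known at a good placement if the X-replacement fails. -/
structure Bad {n : ℕ} (H : SimpleGraph (Fin n)) (t : Fin 5 → Fin n) (j0 : Fin 5)
    (p : Fin n → Pt) : Prop where
  gpos : GPos p
  p4 : ∀ i l : Fin 4 → Fin n, Function.Injective i → Function.Injective l →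
    (∀ r s, i r ≠ l s) → P4 p i l ≠ 0
  three : ∃ u : Fin 3 → Fin n → Pt, (∀ k, Mot H p (u k)) ∧
    ∀ c : Fin 3 → ℝ, (∀ i m, ∑ k, c k * e5 p (u k) t i m = 0) → c = 0
  typA : ∀ x, Bar p (oth t j0) (p (t j0)) x → ∀ v, Mot H p v →
    (∀ m, ee p v (t j0) (oth t j0 m) = Dl p v (oth t j0) (oth t j0 m) x) ∧
    Dl p v (oth t j0) (t j0) x = 0

/-! ### Statements of the modules -/

/-- (R0) pairing of a row with a velocity. -/
def StRow : Prop := ∀ (n : ℕ) (p u : Fin n → Pt) (i j : Fin n), i ≠ j →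
  ∑ k, (Row p i j k) ⬝ᵥ (u k) = ee p u i j

/-- (R1) dual vectors of an independent family. -/
def StDU : Prop := ∀ (n : ℕ) (ι : Type) [Fintype ι] [DecidableEq ι] (r : ι → Fin n → Pt),
  LinearIndependent ℝ r → ∀ x0, ∃ u : Fin n → Pt,
    ∀ x, (∑ k, (r x k) ⬝ᵥ (u k)) = if x = x0 then 1 else 0

/-- (R2) criterion for independence after adding the new vertex. -/
def StEX : Prop := ∀ (n : ℕ) (H : SimpleGraph (Fin n)) (t : Fin 5 → Fin n),
  Function.Injective t → ∀ (p : Fin n → Pt) (q : Pt), RI H p →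
  (∀ lam : Fin 5 → ℝ, (∑ i, lam i • (p (t i) - q)) = 0 →
    (∀ u, Mot H p u → ∑ i, lam i * ((p (t i) - q) ⬝ᵥ u (t i)) = 0) → lam = 0) → XI H t

/-- (R3) the cubic identity. -/
def StID : Prop := ∀ (n : ℕ) (H : SimpleGraph (Fin n)) (t : Fin 5 → Fin n),
  Function.Injective t → ¬ XI H t → ∀ (p : Fin n → Pt), RI H p → ∀ α : Fin 5 → ℝ,
  ∑ i, α i = 0 → ∑ i, α i • p (t i) = 0 →
  (∀ β : Fin 5 → ℝ, ∑ i, β i = 0 → ∑ i, β i • p (t i) = 0 → ∃ c : ℝ, β = c • α) →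
  ∀ u v, Mot H p u → Mot H p v → ∀ μ : Fin 5 → ℝ, ∑ i, μ i ≠ 0 →
    Qf (e5 p u t) μ * Lf (e5 p v t) α μ = Qf (e5 p v t) μ * Lf (e5 p u t) α μ

/-- (R4) the algebra leading to type A. -/
def StTA : Prop := ∀ (S : Submodule ℝ (Fin 5 → Fin 5 → ℝ)) (α : Fin 5 → ℝ),
  (∀ i, α i ≠ 0) → (∀ ε ∈ S, ∀ i j, ε i j = ε j i) → (∀ ε ∈ S, ∀ i, ε i i = 0) →
  (∀ ε ∈ S, Qf ε α = 0) →
  (∀ ε ∈ S, ∀ ε' ∈ S, ∀ μ : Fin 5 → ℝ, ∑ i, μ i ≠ 0 →
    Qf ε μ * Lf ε' α μ = Qf ε' μ * Lf ε α μ) →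
  ∀ x y : Fin 5, x ≠ y → ∀ εu ∈ S, ∀ εv ∈ S, ∀ εw ∈ S,
  εu 0 1 = 1 → εu 2 3 = 0 → εv 0 1 = 0 → εv 2 3 = 1 → εw 0 1 = 0 → εw 2 3 = 0 → εw x y = 1 →
  ∀ ε ∈ S, ∀ m, ∑ i, α i * ε i m = 0

/-- (R5) a polynomial whose nonvanishing implies good position. -/
def StGEN : Prop := ∀ (n : ℕ) (G : SimpleGraph (Fin n)), (∃ p, RI G p) →
  ∃ R : MvPolynomial (Fin n × Fin 3) ℝ, R ≠ 0 ∧
    ∀ p : Fin n → Pt, MvPolynomial.eval (fun a => p a.1 a.2) R ≠ 0 → Good G p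

/-- (R6) a polynomial nonzero at a point is nonzero at almost all points of a line. -/
def StLINE : Prop := ∀ (n : ℕ) (R : MvPolynomial (Fin n × Fin 3) ℝ) (p : Fin n → Pt)
  (j : Fin n) (d : Pt), MvPolynomial.eval (fun a => p a.1 a.2) R ≠ 0 →
  {s : ℝ | MvPolynomial.eval (fun a => Function.update p j (p j + s • d) a.1 a.2) R = 0}.Finite

/-- (R7) barycentric identity. -/
def StBAR : Prop := ∀ (n : ℕ) (p v : Fin n → Pt) (A : Fin 4 → Fin n) (z : Pt) (x : Fin 4 → ℝ),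
  Bar p A z x → ∀ l, (z - p l) ⬝ᵥ (∑ k, x k • v (A k) - v l) = Dl p v A l x - qv p v A x / 2

/-- (R8) existence of barycentric coordinates, with nonzero coordinates for the other points. -/
def StCOO : Prop := ∀ (n : ℕ) (p : Fin n → Pt) (A : Fin 4 → Fin n), Function.Injective A →
  GPos p → (∀ z : Pt, ∃ x, Bar p A z x) ∧
  (∀ l x, (∀ k, A k ≠ l) → Bar p A (p l) x →
    (∀ k, x k ≠ 0) ∧ ∀ k, D4 p (Function.update A k l) = x k * D4 p A) ∧
  (∀ w : Pt, ∀ z : Pt, (∀ k, (z - p (A k)) ⬝ᵥ w = 0) → w = 0)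

/-- (R9) consequences of type A at one placement. -/
def StLOC : Prop := ∀ (n : ℕ) (H : SimpleGraph (Fin n)) (t : Fin 5 → Fin n) (j0 : Fin 5)
  (p : Fin n → Pt), Function.Injective t → Bad H t j0 p →
  ∀ x, Bar p (oth t j0) (p (t j0)) x → ∀ v, Mot H p v →
    qv p v (oth t j0) x = 0 ∧ v (t j0) = ∑ k, x k • v (oth t j0 k) ∧
    ∀ l, H.Adj (t j0) l → Dl p v (oth t j0) l x = 0

/-- (R10) three motions with independent forms on the simplex. -/
def StTHREE : Prop := ∀ (n : ℕ) (H : SimpleGraph (Fin n)) (t : Fin 5 → Fin n) (j0 : Fin 5)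
  (p : Fin n → Pt), Function.Injective t → Bad H t j0 p →
  ∃ u : Fin 3 → Fin n → Pt, (∀ k, Mot H p (u k)) ∧
    ∀ c : Fin 3 → ℝ, (∀ i m, ∑ k, c k * ee p (u k) (oth t j0 i) (oth t j0 m) = 0) → c = 0

/-- (R11) degree at most two is impossible. -/
def StD2 : Prop := ∀ (n : ℕ) (H : SimpleGraph (Fin n)) (t : Fin 5 → Fin n) (j0 : Fin 5)
  (p : Fin n → Pt), Function.Injective t → Bad H t j0 p →
  ∀ N : Finset (Fin n), (∀ l, H.Adj (t j0) l → l ∈ N) → 2 < N.card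

/-- (R12) degree three is impossible. -/
def StD3 : Prop := ∀ (n : ℕ) (H : SimpleGraph (Fin n)) (t : Fin 5 → Fin n) (j0 : Fin 5)
  (R : MvPolynomial (Fin n × Fin 3) ℝ), Function.Injective t → R ≠ 0 →
  (∀ p : Fin n → Pt, MvPolynomial.eval (fun a => p a.1 a.2) R ≠ 0 → Bad H t j0 p) →
  ∀ N : Finset (Fin n), (∀ l, H.Adj (t j0) l ↔ l ∈ N) → N.card ≠ 3

/-- (R13) degree four: the identities. `A = oth t j0`, `j = t j0`. -/
def StD4I : Prop := ∀ (n : ℕ) (H : SimpleGraph (Fin n)) (t : Fin 5 → Fin n) (j0 : Fin 5)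
  (R : MvPolynomial (Fin n × Fin 3) ℝ), Function.Injective t →
  (∀ p : Fin n → Pt, MvPolynomial.eval (fun a => p a.1 a.2) R ≠ 0 → Bad H t j0 p) →
  ∀ N : Finset (Fin n), (∀ l, H.Adj (t j0) l ↔ l ∈ N) → N.card = 4 →
  ∀ p : Fin n → Pt, MvPolynomial.eval (fun a => p a.1 a.2) R ≠ 0 →
  ∀ v v', MotF H (t j0) p v → MotF H (t j0) p v' → ∀ x : Fin 4 → ℝ, ∑ k, x k = 1 →
    (∀ l ∈ N, Dl p v (oth t j0) l x * qv p v' (oth t j0) x
      = Dl p v' (oth t j0) l x * qv p v (oth t j0) x)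

/-- (R14) algebra for degree four. -/
def StALG : Prop := ∀ (xs : Fin 4 → ℝ), (∀ k, xs k ≠ 0) →
  ∀ (ℓ : Fin 4 → ℝ) (q0 : Fin 4 → Fin 4 → ℝ), (∀ i m, q0 i m = q0 m i) → (∀ i, q0 i i = 0) →
  (∀ d : Fin 4 → ℝ, ∑ k, d k * xs k = 0 → ∃ q : Fin 4 → Fin 4 → ℝ,
    (∀ i m, q i m = q m i) ∧ (∀ i, q i i = 0) ∧
    ∀ x : Fin 4 → ℝ, (∑ k, ℓ k * x k) * (∑ i, ∑ m, x i * x m * q i m)
      = (∑ k, d k * x k) * (∑ i, ∑ m, x i * x m * q0 i m)) →
  q0 = 0

/-- (R15) degree four is impossible. -/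
def StD4 : Prop := ∀ (n : ℕ) (H : SimpleGraph (Fin n)) (t : Fin 5 → Fin n) (j0 : Fin 5)
  (R : MvPolynomial (Fin n × Fin 3) ℝ), Function.Injective t → R ≠ 0 →
  (∀ p : Fin n → Pt, MvPolynomial.eval (fun a => p a.1 a.2) R ≠ 0 → Bad H t j0 p) →
  ∀ N : Finset (Fin n), (∀ l, H.Adj (t j0) l ↔ l ∈ N) → N.card ≠ 4

/-- (R16) failure of the X-replacement gives `Bad` at all good placements. -/
def StBAD : Prop := ∀ (n : ℕ) (G H : SimpleGraph (Fin n)) (t : Fin 5 → Fin n) (x y j0 : Fin 5),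
  Function.Injective t → x ≠ y → H ≤ G → G.Adj (t 0) (t 1) → G.Adj (t 2) (t 3) →
  ¬ H.Adj (t 0) (t 1) → ¬ H.Adj (t 2) (t 3) → G.Adj (t x) (t y) → ¬ H.Adj (t x) (t y) →
  ¬ (s(t x, t y) = s(t 0, t 1)) → ¬ (s(t x, t y) = s(t 2, t 3)) →
  ¬ XI H t → ∀ p, Good G p → Bad H t j0 p

/-- (R17) if type A holds for a submodule then it has dimension at most five. -/
def StK6 : Prop := ∀ (α : Fin 5 → ℝ), (∀ i, α i ≠ 0) →
  ∀ (ε : Fin 6 → Fin 5 → Fin 5 → ℝ), (∀ k i j, ε k i j = ε k j i) → (∀ k i, ε k i i = 0) →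
  (∀ k m, ∑ i, α i * ε k i m = 0) →
  ∃ c : Fin 6 → ℝ, c ≠ 0 ∧ ∀ i m, ∑ k, c k * ε k i m = 0

end Pool.Agent.Helper65.XR
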