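import Mathlib
import Pool.Agent.Helper65.XR.St

set_option autoImplicit false

namespace Pool.Agent.Helper65.XR

open Finset

/-- The functional `phi`. -/
private def ph (P U : Fin 5 → Pt) (q : Pt) (lam : Fin 5 → ℝ) : ℝ :=
  ∑ i, lam i * ((P i - q) ⬝ᵥ U i)

private lemma ph_lin (P U : Fin 5 → Pt) (q : Pt) (a b : ℝ) (x y : Fin 5 → ℝ) :
    ph P U q (fun i => a * x i + b * y i) = a * ph P U q x + b * ph P U q y := by
  unfold ph
  rw [Finset.mul_sum, Finset.mul_sum, ← Finset.sum_add_distrib]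
  refine Finset.sum_congr rfl fun i _ => ?_
  ring

private lemma id_Q (P U : Fin 5 → Pt) (q : Pt) (μ : Fin 5 → ℝ)
    (hq : ∀ k, (∑ i, μ i) * q k = ∑ i, μ i * P i k) :
    Qf (fun i j => (P i - P j) ⬝ᵥ (U i - U j)) μ = 2 * (∑ i, μ i) * ph P U q μ := by
  have h0 := hq 0
  have h1 := hq 1
  have h2 := hq 2
  simp only [Fin.sum_univ_five] at h0 h1 h2
  simp only [Qf, ph, dotProduct, Fin.sum_univ_five, Fin.sum_univ_three, Pi.sub_apply]
  linear_combination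
    (2 * (μ 0 * U 0 0 + μ 1 * U 1 0 + μ 2 * U 2 0 + μ 3 * U 3 0 + μ 4 * U 4 0)) * h0
    + (2 * (μ 0 * U 0 1 + μ 1 * U 1 1 + μ 2 * U 2 1 + μ 3 * U 3 1 + μ 4 * U 4 1)) * h1
    + (2 * (μ 0 * U 0 2 + μ 1 * U 1 2 + μ 2 * U 2 2 + μ 3 * U 3 2 + μ 4 * U 4 2)) * h2

private lemma id_L (P U : Fin 5 → Pt) (q : Pt) (α μ : Fin 5 → ℝ)
    (hq : ∀ k, (∑ i, μ i) * q k = ∑ i, μ i * P i k) (hα : ∑ i, α i = 0)
    (hα1 : ∀ k, ∑ i, α i * P i k = 0) :
    Lf (fun i j => (P i - P j) ⬝ᵥ (U i - U j)) α μ = (∑ i, μ i) * ph P U q α := by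
  have h0 := hq 0
  have h1 := hq 1
  have h2 := hq 2
  have a0 := hα1 0
  have a1 := hα1 1
  have a2 := hα1 2
  simp only [Fin.sum_univ_five] at h0 h1 h2 hα a0 a1 a2
  simp only [Lf, ph, dotProduct, Fin.sum_univ_five, Fin.sum_univ_three, Pi.sub_apply]
  linear_combination
    (α 0 * U 0 0 + α 1 * U 1 0 + α 2 * U 2 0 + α 3 * U 3 0 + α 4 * U 4 0) * h0
    + (α 0 * U 0 1 + α 1 * U 1 1 + α 2 * U 2 1 + α 3 * U 3 1 + α 4 * U 4 1) * h1
    + (α 0 * U 0 2 + α 1 * U 1 2 + α 2 * U 2 2 + α 3 * U 3 2 + α 4 * U 4 2) * h2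
    - (μ 0 * U 0 0 + μ 1 * U 1 0 + μ 2 * U 2 0 + μ 3 * U 3 0 + μ 4 * U 4 0) * a0
    - (μ 0 * U 0 1 + μ 1 * U 1 1 + μ 2 * U 2 1 + μ 3 * U 3 1 + μ 4 * U 4 1) * a1
    - (μ 0 * U 0 2 + μ 1 * U 1 2 + μ 2 * U 2 2 + μ 3 * U 3 2 + μ 4 * U 4 2) * a2
    + (μ 0 * (P 0 0 * U 0 0 + P 0 1 * U 0 1 + P 0 2 * U 0 2)
      + μ 1 * (P 1 0 * U 1 0 + P 1 1 * U 1 1 + P 1 2 * U 1 2)
      + μ 2 * (P 2 0 * U 2 0 + P 2 1 * U 2 1 + P 2 2 * U 2 2)
      + μ 3 * (P 3 0 * U 3 0 + P 3 1 * U 3 1 + P 3 2 * U 3 2)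
      + μ 4 * (P 4 0 * U 4 0 + P 4 1 * U 4 1 + P 4 2 * U 4 2)) * hα

theorem idt (he : StEX) : StID := by
  intro n H t ht hX p hR α hα0 hα1 hu u v hmu hmv μ hs
  obtain ⟨s, hsdef⟩ : ∃ s : ℝ, s = ∑ i, μ i := ⟨_, rfl⟩
  rw [← hsdef] at hs
  obtain ⟨q, hq1⟩ : ∃ q : Pt, s • q = ∑ i, μ i • p (t i) :=
    ⟨s⁻¹ • ∑ i, μ i • p (t i), by rw [smul_smul, mul_inv_cancel₀ hs, one_smul]⟩
  have hq : ∀ k, (∑ i, μ i) * q k = ∑ i, μ i * (fun i => p (t i)) i k := by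
    intro k
    have := congrFun hq1 k
    simp only [Pi.smul_apply, Finset.sum_apply, smul_eq_mul] at this
    rw [← hsdef]
    exact this
  have hαk : ∀ k, ∑ i, α i * (fun i => p (t i)) i k = 0 := by
    intro k
    have := congrFun hα1 k
    simp only [Finset.sum_apply, Pi.smul_apply, smul_eq_mul, Pi.zero_apply] at this
    exact this
  have hne : ¬ (∀ lam : Fin 5 → ℝ, (∑ i, lam i • (p (t i) - q)) = 0 →
      (∀ u, Mot H p u → ∑ i, lam i * ((p (t i) - q) ⬝ᵥ u (t i)) = 0) → lam = 0) :=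
    fun h => hX (he n H t ht p q hR h)
  push Not at hne
  obtain ⟨lam, hl1, hl2, hl3⟩ := hne
  have hl4 : ∑ i, lam i • p (t i) = (∑ i, lam i) • q := by
    have : ∑ i, lam i • (p (t i) - q) = ∑ i, lam i • p (t i) - (∑ i, lam i) • q := by
      simp only [smul_sub, Finset.sum_sub_distrib, Finset.sum_smul]
    rw [this] at hl1
    exact sub_eq_zero.mp hl1
  obtain ⟨c0, hc0⟩ : ∃ c0 : ℝ, c0 * s = ∑ i, lam i := ⟨(∑ i, lam i) / s, div_mul_cancel₀ _ hs⟩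
  obtain ⟨c, hc⟩ := hu (fun i => lam i - c0 * μ i)
    (by
      rw [Finset.sum_sub_distrib, ← Finset.mul_sum, ← hsdef, hc0, sub_self])
    (by
      simp only [sub_smul, Finset.sum_sub_distrib, mul_smul]
      rw [← Finset.smul_sum, ← hq1, hl4, smul_smul, hc0, sub_self])
  have hlam : lam = fun i => c * α i + c0 * μ i := by
    funext i
    have := congrFun hc i
    simp only [Pi.smul_apply, smul_eq_mul] at this
    linarith
  have key : ∀ w, Mot H p w →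
      c * ph (fun i => p (t i)) (fun i => w (t i)) q α
        + c0 * ph (fun i => p (t i)) (fun i => w (t i)) q μ = 0 := by
    intro w hw
    rw [← ph_lin, ← hlam]
    exact hl2 w hw
  have hcc : c ≠ 0 ∨ c0 ≠ 0 := by
    by_contra hcon
    push Not at hcon
    apply hl3
    rw [hlam, hcon.1, hcon.2]
    funext i
    simp
  have ku := key u hmu
  have kv := key v hmv
  have hdet : ph (fun i => p (t i)) (fun i => u (t i)) q μ
        * ph (fun i => p (t i)) (fun i => v (t i)) q α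
      = ph (fun i => p (t i)) (fun i => v (t i)) q μ
        * ph (fun i => p (t i)) (fun i => u (t i)) q α := by
    rcases hcc with h | h
    · refine mul_left_cancel₀ h ?_
      linear_combination ph (fun i => p (t i)) (fun i => u (t i)) q μ * kv
        - ph (fun i => p (t i)) (fun i => v (t i)) q μ * ku
    · refine mul_left_cancel₀ h ?_
      linear_combination ph (fun i => p (t i)) (fun i => v (t i)) q α * ku
        - ph (fun i => p (t i)) (fun i => u (t i)) q α * kv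
  have eQ : ∀ w : Fin n → Pt, Qf (e5 p w t) μ
      = 2 * (∑ i, μ i) * ph (fun i => p (t i)) (fun i => w (t i)) q μ := fun w =>
    id_Q (fun i => p (t i)) (fun i => w (t i)) q μ hq
  have eL : ∀ w : Fin n → Pt, Lf (e5 p w t) α μ
      = (∑ i, μ i) * ph (fun i => p (t i)) (fun i => w (t i)) q α := fun w =>
    id_L (fun i => p (t i)) (fun i => w (t i)) q α μ hq hα0 hαk
  rw [eQ u, eL v, eQ v, eL u]
  linear_combination (2 * (∑ i, μ i) * (∑ i, μ i)) * hdet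

end Pool.Agent.Helper65.XR
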