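import Pool.Agent.Helper65.XR.St

/-! # Project XR, module ROW: rows of the rigidity matrix and dual vectors -/

set_option autoImplicit false

namespace Pool.Agent.Helper65.XR

open Finset

theorem row_pair : StRow := by
  intro n p u i j hij
  have h1 : ∀ k, (Row p i j k) ⬝ᵥ (u k) =
      (if k = i then (p i - p j) ⬝ᵥ (u i) else 0) + (if k = j then (p j - p i) ⬝ᵥ (u j) else 0) := by
    intro k
    unfold Row
    by_cases hki : k = i
    · subst hki
      rw [if_pos rfl, if_pos rfl, if_neg hij, add_zero]
    · rw [if_neg hki, if_neg hki, zero_add]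
      by_cases hkj : k = j
      · subst hkj
        rw [if_pos rfl, if_pos rfl]
      · rw [if_neg hkj, if_neg hkj, zero_dotProduct]
  rw [Finset.sum_congr rfl fun k _ => h1 k, Finset.sum_add_distrib, Finset.sum_ite_eq',
    Finset.sum_ite_eq', if_pos (mem_univ _), if_pos (mem_univ _)]
  unfold ee
  rw [dotProduct_sub, ← neg_sub (p i) (p j), neg_dotProduct]
  ring

private theorem functional_Row {n : ℕ} (f : (Fin n → Pt) →ₗ[ℝ] ℝ) (w : Fin n → Pt) :
    ∑ k, (w k) ⬝ᵥ (fun a => f (Pi.single k (Pi.single a 1))) = f w := by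
  have h1 : w = ∑ k, ∑ a, (w k a) • (Pi.single k (Pi.single a 1) : Fin n → Pt) := by
    funext k a
    simp only [Finset.sum_apply, Pi.smul_apply, smul_eq_mul, Pi.single_apply, ite_apply,
      Pi.zero_apply, mul_ite, mul_one, mul_zero]
    rw [Finset.sum_eq_single k]
    · rw [Finset.sum_eq_single a]
      · simp
      · intro b _ hb
        rw [if_pos rfl, if_neg (Ne.symm hb)]
      · intro h
        exact absurd (mem_univ _) h
    · intro b _ hb
      refine Finset.sum_eq_zero fun c _ => ?_
      rw [if_neg (Ne.symm hb)]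
    · intro h
      exact absurd (mem_univ _) h
  conv_rhs => rw [h1, map_sum]
  refine Finset.sum_congr rfl fun k _ => ?_
  rw [map_sum]
  unfold dotProduct
  refine Finset.sum_congr rfl fun a _ => ?_
  rw [map_smul, smul_eq_mul]

theorem dual : StDU := by
  intro n ι _ _ r hr x0
  have hinj : Function.Injective (Fintype.linearCombination ℝ r) :=
    hr.fintypeLinearCombination_injective
  obtain ⟨g, hg⟩ := (Fintype.linearCombination ℝ r).exists_leftInverse_of_injective
    (LinearMap.ker_eq_bot.2 hinj)
  refine ⟨fun k a => ((LinearMap.proj x0).comp g) (Pi.single k (Pi.single a 1)), fun x => ?_⟩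
  rw [functional_Row]
  have h1 : g (r x) = Pi.single x (1 : ℝ) := by
    have h2 := LinearMap.congr_fun hg (Pi.single x (1 : ℝ))
    rw [LinearMap.comp_apply, Fintype.linearCombination_apply_single, one_smul,
      LinearMap.id_apply] at h2
    exact h2
  rw [LinearMap.comp_apply, h1, LinearMap.proj_apply, Pi.single_apply]
  by_cases h : x = x0
  · rw [if_pos h, if_pos h.symm]
  · rw [if_neg h, if_neg (Ne.symm h)]

end Pool.Agent.Helper65.XR
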