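import Pool.Agent.Helper63.XR.StA

set_option autoImplicit false

namespace Pool.Agent.Helper65.XR

open Pool.Agent.Helper63.XR

open Finset

theorem hFIN : StFin := by
  intro hgen halc P _ _ k b a g S _ _ t C K lam eps tau z s0 Y Z κ z' β hb hlam hlC hK hpar hs hβ
    hcE hcZ hid hEE hinv
  obtain ⟨Bad, ψ, hBad, h1, h2, h3, h4, -, hcard⟩ := hinv
  obtain ⟨-, hg2, hg3, -, hg5⟩ := hgen P k b a g
  have hC0 : 0 < C := by linarith
  have hK0 : 0 < K := by linarith
  have hlam0 : 0 < lam := by linarith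
  -- choice of `j`
  have hAl : 0 < (Al g t 0).card := by
    rw [halc P k b a g S t 0 (Nat.zero_le _)]
    obtain ⟨s, hs⟩ := hs
    have h5 : 0 < (univ.filter fun s => t s = 1).card :=
      Finset.card_pos.2 ⟨s, Finset.mem_filter.2 ⟨Finset.mem_univ _, hs⟩⟩
    have h6 : 0 < a 0 := hpar.a_pos 0
    have h7 : 0 < b := hb
    positivity
  obtain ⟨j, hj, hjB⟩ : ∃ j ∈ Al g t 0, j ∉ Bad := by
    by_contra hcon
    push Not at hcon
    have h5 : (Al g t 0).card ≤ Bad.card := Finset.card_le_card hcon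
    have h6 : ((Al g t 0).card : ℝ) ≤ Bad.card := by exact_mod_cast h5
    have h7 : (0 : ℝ) < (Al g t 0).card := by exact_mod_cast hAl
    nlinarith
  have hj' : t j.1 = 1 ∧ g.lev j.2 = 0 := by
    have h5 := hj
    unfold Al at h5
    exact (Finset.mem_filter.1 h5).2
  obtain ⟨htj, hlj⟩ := hj'
  set ρ : ℝ := lam / C with hρ
  have hρ0 : 0 < ρ := by positivity
  have hρ1 : ρ < 1 := by rw [hρ, div_lt_one hC0]; exact hlC
  have hψ0 : ∀ q i, 0 ≤ ψ q j i ∧ ψ q j i ≤ 1 := fun q i => ⟨(h1 j hj q i).1, (h1 j hj q i).2.1⟩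
  have hψs : ∀ q i, ψ q j i ≠ 0 → i.1 = j.1 ∧ i.2 ∈ gen g.ch j.2 q ∧ g.lev i.2 = q := by
    intro q i hne
    obtain ⟨-, -, h5, h6⟩ := (h1 j hj q i).2.2 hne
    rw [Nat.sub_zero] at h6
    refine ⟨h5, h6, ?_⟩
    rw [hg2 _ _ _ h6, hlj, zero_add]
  let φ : S × P → ℝ := fun i => ∑ q ∈ range (k + 1), ρ ^ q * ψ q j i
  have hφ : ∀ i, φ i = ρ ^ (g.lev i.2) * ψ (g.lev i.2) j i := by
    intro i
    apply Finset.sum_eq_single (g.lev i.2)
    · intro q _ hq
      by_cases h0 : ψ q j i = 0
      · rw [h0, mul_zero]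
      · exact absurd (hψs q i h0).2.2.symm hq
    · intro h
      exact absurd (Finset.mem_range.2 (Nat.lt_succ_of_le (g.lev_le i.2))) h
  -- the real matrix
  let xr : S × P → S × P → ℝ := fun i' i =>
    if i'.1 = i.1 then t i'.1 * (if i'.2 ∈ g.ch i.2 then C / a (g.lev i'.2) else 0) else 0
  have hxr : ∀ i' i, blk t (xmat g C) i' i = (xr i' i : ℂ) := by
    intro i' i
    show (if i'.1 = i.1 then (t i'.1 : ℂ) * (if i'.2 ∈ g.ch i.2 then
      ((C / a (g.lev i'.2) : ℝ) : ℂ) else 0) else 0) =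
      ((if i'.1 = i.1 then t i'.1 * (if i'.2 ∈ g.ch i.2 then C / a (g.lev i'.2) else 0) else 0 : ℝ) : ℂ)
    split_ifs <;> push_cast <;> rfl
  have hφx : ∀ i : S × P, ∑ i', φ i' * xr i' i =
      ∑ c ∈ g.ch i.2, φ (i.1, c) * (t i.1 * (C / a (g.lev c))) := by
    intro i
    rw [Fintype.sum_prod_type]
    rw [Finset.sum_eq_single i.1]
    · show ∑ y, φ (i.1, y) * (if i.1 = i.1 then t i.1 *
        (if y ∈ g.ch i.2 then C / a (g.lev y) else 0) else 0) = _
      simp only [if_true]
      rw [← Finset.sum_subset (Finset.subset_univ (g.ch i.2))]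
      · apply Finset.sum_congr rfl
        intro c hc
        rw [if_pos hc]
      · intro c _ hc
        rw [if_neg hc]; ring
    · intro s _ hs
      apply Finset.sum_eq_zero
      intro y _
      show φ (s, y) * (if s = i.1 then _ else 0) = 0
      rw [if_neg hs, mul_zero]
    · intro h
      exact absurd (Finset.mem_univ _) h
  -- the claim
  have hclaim : ∀ i : S × P, |φ i - ∑ i', φ i' * xr i' i| ≤ 1 / (4 * K) := by
    intro i
    have hpos : 0 ≤ 1 / (4 * K) := by positivity
    rw [hφx i]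
    by_cases hs' : i.1 = j.1
    · have hlc : ∀ c ∈ g.ch i.2, g.lev c = g.lev i.2 + 1 := fun c hc => g.ch_lev _ c hc
      set q := g.lev i.2 with hq
      have e1 : ∑ c ∈ g.ch i.2, φ (i.1, c) * (t i.1 * (C / a (g.lev c))) =
          ρ ^ q * (lam / a (q + 1)) * ∑ c ∈ g.ch i.2, ψ (q + 1) j (j.1, c) := by
        rw [Finset.mul_sum]
        apply Finset.sum_congr rfl
        intro c hc
        rw [hφ (i.1, c)]
        show ρ ^ (g.lev c) * ψ (g.lev c) j (i.1, c) * (t i.1 * (C / a (g.lev c))) = _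
        rw [hlc c hc, hs', htj, pow_succ, hρ]
        field_simp
      rw [e1, hφ i, ← hq]
      have hlev : q ≤ k := g.lev_le i.2
      rcases hlev.lt_or_eq with hqk | hqk
      · have ha1 : (0 : ℝ) < a (q + 1) := by exact_mod_cast hpar.a_pos (q + 1)
        by_cases hu : i.2 ∈ gen g.ch j.2 q
        · have h6 := h3 j hj hjB q (Nat.zero_le _) hqk i.2 (by rw [Nat.sub_zero]; exact hu)
          have h7 : (j.1, i.2) = i := Prod.ext hs'.symm rfl
          rw [h7] at h6
          have h8 : ρ ^ q * (lam / a (q + 1)) * ∑ c ∈ g.ch i.2, ψ (q + 1) j (j.1, c) =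
              ρ ^ q * ψ q j i := by
            have : (lam / a (q + 1)) * ∑ c ∈ g.ch i.2, ψ (q + 1) j (j.1, c) = ψ q j i := by
              rw [div_mul_eq_mul_div, h6]
              field_simp
            rw [mul_assoc, this]
          rw [h8, sub_self, abs_zero]
          exact hpos
        · have h6 : ψ q j i = 0 := by
            by_contra h0
            exact hu (hψs q i h0).2.1
          rw [h6, mul_zero, zero_sub, abs_neg]
          have h7 : 0 ≤ ∑ c ∈ g.ch i.2, ψ (q + 1) j (j.1, c) :=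
            Finset.sum_nonneg fun c _ => (hψ0 _ _).1
          have h8 : ∑ c ∈ g.ch i.2, ψ (q + 1) j (j.1, c) ≤
              ((∏ i ∈ Finset.Icc 1 q, a i : ℕ) : ℝ) := by
            calc ∑ c ∈ g.ch i.2, ψ (q + 1) j (j.1, c)
                = ∑ c ∈ g.ch i.2 ∩ gen g.ch j.2 (q + 1), ψ (q + 1) j (j.1, c) := by
                  symm
                  apply Finset.sum_subset Finset.inter_subset_left
                  intro c hc hc2
                  by_contra h0
                  exact hc2 (Finset.mem_inter.2 ⟨hc, (hψs _ _ h0).2.1⟩)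
              _ ≤ ∑ c ∈ g.ch i.2 ∩ gen g.ch j.2 (q + 1), (1 : ℝ) :=
                  Finset.sum_le_sum fun c _ => (hψ0 _ _).2
              _ = ((g.ch i.2 ∩ gen g.ch j.2 (q + 1)).card : ℝ) := by simp
              _ ≤ ((gen g.ch j.2 q).card : ℝ) := by exact_mod_cast hg5 j.2 q i.2 hu
              _ ≤ _ := by exact_mod_cast hg3 j.2 q hlj
          have h9 := hpar.err q hqk
          rw [← hρ] at h9
          rw [abs_of_nonneg (by positivity)]
          calc ρ ^ q * (lam / a (q + 1)) * ∑ c ∈ g.ch i.2, ψ (q + 1) j (j.1, c)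
              ≤ ρ ^ q * (lam / a (q + 1)) * ((∏ i ∈ Finset.Icc 1 q, a i : ℕ) : ℝ) :=
                mul_le_mul_of_nonneg_left h8 (by positivity)
            _ = (lam * ρ ^ q * ((∏ i ∈ Finset.Icc 1 q, a i : ℕ) : ℝ) * (4 * K)) /
                (a (q + 1) * (4 * K)) := by field_simp
            _ ≤ (a (q + 1) : ℝ) / (a (q + 1) * (4 * K)) :=
                div_le_div_of_nonneg_right h9 (by positivity)
            _ = 1 / (4 * K) := by field_simp
      · have hch : g.ch i.2 = ∅ := by
          apply Finset.eq_empty_of_forall_notMem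
          intro c hc
          have h6 := hlc c hc
          have h7 := g.lev_le c
          omega
        rw [hch, Finset.sum_empty, mul_zero, sub_zero]
        obtain ⟨h6, h7⟩ := hψ0 q i
        rw [abs_of_nonneg (by positivity)]
        have h8 : ρ ^ q * (4 * K) ≤ 1 := by
          rw [hqk]; exact hpar.last
        calc ρ ^ q * ψ q j i ≤ ρ ^ q * 1 := mul_le_mul_of_nonneg_left h7 (by positivity)
          _ = ρ ^ q * (4 * K) / (4 * K) := by field_simp
          _ ≤ 1 / (4 * K) := div_le_div_of_nonneg_right h8 (by positivity)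
    · have e1 : ∀ c : P, φ (i.1, c) = 0 := by
        intro c
        rw [hφ]
        by_cases h0 : ψ (g.lev c) j (i.1, c) = 0
        · show ρ ^ (g.lev c) * ψ (g.lev c) j (i.1, c) = 0
          rw [h0, mul_zero]
        · exact absurd (hψs _ _ h0).1 hs'
      have e2 : φ i = 0 := e1 i.2
      rw [e2]
      simp only [e1, zero_mul, Finset.sum_const_zero, sub_zero, abs_zero]
      exact hpos
  -- linearity of the pairing
  have hpr_add : ∀ f f' : S × P → ℂ, pr φ (f + f') = pr φ f + pr φ f' := by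
    intro f f'
    unfold pr
    rw [← Finset.sum_add_distrib]
    apply Finset.sum_congr rfl
    intro i _
    rw [Pi.add_apply, mul_add]
  let e : S × P → ℂ := Pi.single j 1
  have hMe : ∀ (M : Matrix (S × P) (S × P) ℂ) i, M.mulVec e i = M i j := by
    intro M i
    show M.mulVec (Pi.single j 1) i = M i j
    rw [Matrix.mulVec_single_one]
    rfl
  have hpre : pr φ e = 1 := by
    unfold pr
    rw [Finset.sum_eq_single j]
    · show (φ j : ℂ) * (Pi.single j 1 : S × P → ℂ) j = 1
      rw [Pi.single_eq_same, mul_one, hφ j, hlj, h2 j hj j]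
      simp
    · intro i _ hi
      show (φ i : ℂ) * (Pi.single j 1 : S × P → ℂ) i = 0
      rw [Pi.single_eq_of_ne hi, mul_zero]
    · intro h
      exact absurd (Finset.mem_univ _) h
  set E := blk t (xmat g C) * Y with hE
  -- (A)
  have hA : ‖pr φ (E.mulVec e)‖ ≤ 1 / 4 := by
    have h5 : E.mulVec (E.mulVec e) = E.mulVec e := by
      rw [Matrix.mulVec_mulVec, hEE]
    have h6 : n1 (E.mulVec e) ≤ C * K := by
      unfold n1
      simp only [hMe]
      exact hcE j
    have h60 : 0 ≤ n1 (E.mulVec e) := Finset.sum_nonneg fun _ _ => norm_nonneg _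
    have h7 : pr φ (E.mulVec e) = ∑ q ∈ range (k + 1), ((ρ ^ q : ℝ) : ℂ) * pr (ψ q j) (E.mulVec e) := by
      unfold pr
      simp only [Finset.mul_sum]
      rw [Finset.sum_comm]
      apply Finset.sum_congr rfl
      intro i _
      show ((∑ q ∈ range (k + 1), ρ ^ q * ψ q j i : ℝ) : ℂ) * _ = _
      push_cast
      rw [Finset.sum_mul]
      apply Finset.sum_congr rfl
      intro q _
      ring
    have heps := (hpar.eps_pos 0 (Nat.zero_le _)).1
    rw [h7]
    calc ‖∑ q ∈ range (k + 1), ((ρ ^ q : ℝ) : ℂ) * pr (ψ q j) (E.mulVec e)‖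
        ≤ ∑ q ∈ range (k + 1), ‖((ρ ^ q : ℝ) : ℂ) * pr (ψ q j) (E.mulVec e)‖ := norm_sum_le _ _
      _ ≤ ∑ q ∈ range (k + 1), ρ ^ q * (eps 0 * (C * K)) := by
        apply Finset.sum_le_sum
        intro q hq
        rw [norm_mul, Complex.norm_real, Real.norm_of_nonneg (by positivity)]
        apply mul_le_mul_of_nonneg_left _ (by positivity)
        exact (h4 j hj hjB q (Nat.zero_le _) (Nat.lt_succ_iff.1 (Finset.mem_range.1 hq)) _ h5).trans
          (mul_le_mul_of_nonneg_left h6 heps.le)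
      _ = (∑ q ∈ range (k + 1), ρ ^ q) * (eps 0 * (C * K)) := by rw [Finset.sum_mul]
      _ ≤ (1 - ρ)⁻¹ * (eps 0 * (C * K)) := by
        apply mul_le_mul_of_nonneg_right _ (by positivity)
        exact (summable_geometric_of_lt_one hρ0.le hρ1).sum_le_tsum _
          (fun _ _ => by positivity) |>.trans (le_of_eq (tsum_geometric_of_lt_one hρ0.le hρ1))
      _ = (eps 0 * (C ^ 2 * K)) / (C - lam) := by
        have h8 : C - lam ≠ 0 := by linarith
        have h9 : (1 - ρ)⁻¹ = C / (C - lam) := by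
          rw [hρ]
          field_simp
        rw [h9]
        field_simp
      _ ≤ ((C - lam) / 4) / (C - lam) :=
        div_le_div_of_nonneg_right hpar.eps0 (by linarith)
      _ = 1 / 4 := by
        have h8 : C - lam ≠ 0 := by linarith
        field_simp
  -- (B)
  have hB : ‖pr φ ((1 - E).mulVec e)‖ ≤ 1 / 4 := by
    rw [hid, ← Matrix.mulVec_mulVec]
    set w := Z.mulVec e with hw
    have h6 : n1 w ≤ K := by
      unfold n1
      simp only [hw, hMe]
      exact hcZ j
    have h7 : pr φ ((1 - blk t (xmat g C)).mulVec w) =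
        ∑ i, ((φ i - ∑ i', φ i' * xr i' i : ℝ) : ℂ) * w i := by
      have h8 : ∀ i, (1 - blk t (xmat g C)).mulVec w i = w i - ∑ i', (xr i i' : ℂ) * w i' := by
        intro i
        rw [Matrix.sub_mulVec, Matrix.one_mulVec, Pi.sub_apply]
        congr 1
        show ∑ i', blk t (xmat g C) i i' * w i' = _
        simp only [hxr]
      unfold pr
      simp only [h8]
      have h9 : ∀ i, ((φ i - ∑ i', φ i' * xr i' i : ℝ) : ℂ) * w i =
          (φ i : ℂ) * w i - ∑ i', (φ i' : ℂ) * ((xr i' i : ℂ) * w i) := by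
        intro i
        push_cast
        rw [sub_mul, Finset.sum_mul]
        congr 1
        apply Finset.sum_congr rfl
        intro i' _
        ring
      simp only [h9, mul_sub, Finset.sum_sub_distrib]
      congr 1
      rw [Finset.sum_comm]
      apply Finset.sum_congr rfl
      intro i _
      rw [Finset.mul_sum]
    rw [h7]
    calc ‖∑ i, ((φ i - ∑ i', φ i' * xr i' i : ℝ) : ℂ) * w i‖
        ≤ ∑ i, ‖((φ i - ∑ i', φ i' * xr i' i : ℝ) : ℂ) * w i‖ := norm_sum_le _ _
      _ ≤ ∑ i, 1 / (4 * K) * ‖w i‖ := by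
        apply Finset.sum_le_sum
        intro i _
        rw [norm_mul, Complex.norm_real, Real.norm_eq_abs]
        exact mul_le_mul_of_nonneg_right (hclaim i) (norm_nonneg _)
      _ = 1 / (4 * K) * n1 w := by rw [← Finset.mul_sum]; rfl
      _ ≤ 1 / (4 * K) * K := mul_le_mul_of_nonneg_left h6 (by positivity)
      _ = 1 / 4 := by field_simp
  have hsum : pr φ e = pr φ (E.mulVec e) + pr φ ((1 - E).mulVec e) := by
    rw [← hpr_add]
    congr 1
    rw [Matrix.sub_mulVec, Matrix.one_mulVec]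
    abel
  rw [hpre] at hsum
  have h10 : (1 : ℝ) ≤ 1 / 4 + 1 / 4 := by
    calc (1 : ℝ) = ‖(1 : ℂ)‖ := by simp
      _ = ‖pr φ (E.mulVec e) + pr φ ((1 - E).mulVec e)‖ := by rw [← hsum]
      _ ≤ ‖pr φ (E.mulVec e)‖ + ‖pr φ ((1 - E).mulVec e)‖ := norm_add_le _ _
      _ ≤ 1 / 4 + 1 / 4 := add_le_add hA hB
  norm_num at h10

end Pool.Agent.Helper65.XR
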