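import Pool.Agent.Helper63.XR.StB

set_option autoImplicit false

namespace Pool.Agent.Helper65.XR

open Pool.Agent.Helper63.XR

open Finset Filter Topology

theorem addLeft_pow {A : Type} [AddGroup A] [TopologicalSpace A] [IsTopologicalAddGroup A] (c : A)
    (n : ℕ) (x : A) : ((Homeomorph.addLeft c) ^ n) x = n • c + x := by
  induction n with
  | zero => simp
  | succ n ih =>
    rw [pow_succ', Homeomorph.mul_apply, ih, succ_nsmul']
    show c + (n • c + x) = _
    rw [add_assoc]

theorem addLeft_zpow {A : Type} [AddGroup A] [TopologicalSpace A] [IsTopologicalAddGroup A] (c : A)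
    (n : ℤ) (x : A) : ((Homeomorph.addLeft c) ^ n) x = n • c + x := by
  cases n with
  | ofNat n =>
    rw [Int.ofNat_eq_natCast, zpow_natCast, addLeft_pow, natCast_zsmul]
  | negSucc n =>
    rw [zpow_negSucc, negSucc_zsmul]
    have h1 : ((Homeomorph.addLeft c) ^ (n + 1)) (-((n + 1) • c) + x) = x := by
      rw [addLeft_pow, add_neg_cancel_left]
    have h2 := congrArg (((Homeomorph.addLeft c) ^ (n + 1))⁻¹ : A ≃ₜ A) h1
    rw [← Homeomorph.mul_apply, inv_mul_cancel, Homeomorph.one_apply] at h2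
    exact h2.symm

theorem ucirc_norm_le (x : ℝ) : ‖(x : AddCircle (1 : ℝ))‖ ≤ |x| := by
  have h : ‖(x : UnitAddCircle)‖ = |x - round x| := UnitAddCircle.norm_eq
  have h2 := round_le x 0
  rw [Int.cast_zero, sub_zero] at h2
  exact (le_of_eq h).trans h2

theorem ucirc_rep (y : AddCircle (1 : ℝ)) : ∃ x : ℝ, (x : AddCircle (1 : ℝ)) = y ∧ ‖y‖ = |x| := by
  obtain ⟨x, rfl⟩ := QuotientAddGroup.mk_surjective y
  refine ⟨x - round x, ?_, ?_⟩
  · rw [AddCircle.coe_sub]
    have h1 : ((round x : ℝ) : AddCircle (1 : ℝ)) = 0 := by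
      rw [AddCircle.coe_eq_zero_iff]
      exact ⟨round x, by simp⟩
    rw [h1, sub_zero]
  · exact UnitAddCircle.norm_eq

theorem hGAD : StGad := by
  intro hrec θ hθ N
  set c : AddCircle (1 : ℝ) := (θ : AddCircle (1 : ℝ)) with hc
  have hdz : DenseRange (fun n : ℤ => n • c) := by
    have := (AddCircle.denseRange_zsmul_coe_iff (a := θ) (p := 1)).2 (by rw [div_one]; exact hθ)
    exact this
  have hdn : DenseRange (fun n : ℕ => n • c) := denseRange_zsmul_iff_nsmul.1 hdz
  have hne : ∀ i : ℕ, 0 < i → i • c ≠ 0 := by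
    intro i hi h0
    have h1 : i • c = ((((i : ℝ) * θ : ℝ)) : AddCircle (1 : ℝ)) := by
      rw [hc, ← nsmul_eq_mul]
      rfl
    rw [h1, AddCircle.coe_eq_zero_iff] at h0
    obtain ⟨n, hn⟩ := h0
    rw [zsmul_eq_mul, mul_one] at hn
    have hir : Irrational ((i : ℝ) * θ) := hθ.natCast_mul hi.ne'
    exact hir ⟨(n : ℚ), by rw [← hn]; simp⟩
  -- the size of the bump
  obtain ⟨σ, hσ0, hσ1, hσ2⟩ : ∃ σ : ℝ, 0 < σ ∧ σ < 1 / 4 ∧
      ∀ i : ℕ, 0 < i → i < N → 2 * σ ≤ ‖i • c‖ := by
    clear hdz hdn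
    induction N with
    | zero => exact ⟨1 / 8, by norm_num, by norm_num, fun i _ h => absurd h (Nat.not_lt_zero i)⟩
    | succ N ih =>
      obtain ⟨σ, h1, h2, h3⟩ := ih
      rcases Nat.eq_zero_or_pos N with h0 | h0
      · subst h0
        exact ⟨σ, h1, h2, fun i hi hi1 => absurd hi1 (by omega)⟩
      · have h4 : 0 < ‖N • c‖ := norm_pos_iff.2 (hne N h0)
        refine ⟨min σ (‖N • c‖ / 2), lt_min h1 (by linarith), (min_le_left _ _).trans_lt h2,
          fun i hi hi1 => ?_⟩
        rcases Nat.lt_succ_iff_lt_or_eq.1 hi1 with h5 | h5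
        · have := h3 i hi h5
          linarith [min_le_left σ (‖N • c‖ / 2)]
        · subst h5
          linarith [min_le_right σ (‖i • c‖ / 2)]
  let f : C(AddCircle (1 : ℝ), ℝ) := ⟨fun x => min 1 (max 0 (2 - 2 * ‖x‖ / σ)), by fun_prop⟩
  have hf : ∀ x, f x = min 1 (max 0 (2 - 2 * ‖x‖ / σ)) := fun x => rfl
  have hf1 : ∀ x, f x = 1 ↔ ‖x‖ ≤ σ / 2 := by
    intro x
    rw [hf]
    constructor
    · intro h
      by_contra h1
      rw [not_le] at h1
      have h2 : 2 - 2 * ‖x‖ / σ < 1 := by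
        have : 1 < 2 * ‖x‖ / σ := by rw [lt_div_iff₀ hσ0]; linarith
        linarith
      have h3 : max 0 (2 - 2 * ‖x‖ / σ) < 1 := max_lt one_pos h2
      rw [min_eq_right h3.le] at h
      linarith
    · intro h
      have h2 : 1 ≤ 2 - 2 * ‖x‖ / σ := by
        have : 2 * ‖x‖ / σ ≤ 1 := by rw [div_le_iff₀ hσ0]; linarith
        linarith
      exact min_eq_left (h2.trans (le_max_right _ _))
  have hf0 : ∀ x, f x ≠ 0 ↔ ‖x‖ < σ := by
    intro x
    rw [hf]
    constructor
    · intro h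
      by_contra h1
      rw [not_lt] at h1
      have h2 : 2 - 2 * ‖x‖ / σ ≤ 0 := by
        have : 2 ≤ 2 * ‖x‖ / σ := by rw [le_div_iff₀ hσ0]; linarith
        linarith
      apply h
      rw [max_eq_left h2]
      norm_num
    · intro h
      have h2 : 0 < 2 - 2 * ‖x‖ / σ := by
        have : 2 * ‖x‖ / σ < 2 := by rw [div_lt_iff₀ hσ0]; linarith
        linarith
      have h3 : 0 < min 1 (max 0 (2 - 2 * ‖x‖ / σ)) :=
        lt_min one_pos (lt_of_lt_of_le h2 (le_max_right _ _))
      exact h3.ne'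
  have hpow : ∀ (j : ℕ) (x : AddCircle (1 : ℝ)),
      ((Homeomorph.addLeft c) ^ ((j : ℕ) : ℤ) : AddCircle (1 : ℝ) ≃ₜ AddCircle (1 : ℝ)) x
        = j • c + x := by
    intro j x
    rw [zpow_natCast, addLeft_pow]
  -- the number `n`
  obtain ⟨n, β, hβ1, hβ2, hnβ⟩ : ∃ (n : ℕ) (β : ℝ), σ / 2 < β ∧ β < σ ∧
      n • c = (β : AddCircle (1 : ℝ)) := by
    have hopen : IsOpen ((fun x : ℝ => (x : AddCircle (1 : ℝ))) '' Set.Ioo (σ / 2) σ) :=
      QuotientAddGroup.isOpenMap_coe _ isOpen_Ioo
    have hnon : ((fun x : ℝ => (x : AddCircle (1 : ℝ))) '' Set.Ioo (σ / 2) σ).Nonempty :=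
      (Set.nonempty_Ioo.2 (by linarith)).image _
    obtain ⟨_, ⟨β, hβ, hβe⟩, ⟨n, hn⟩⟩ := hdn.inter_open_nonempty _ hopen hnon
    exact ⟨n, β, hβ.1, hβ.2, Eq.trans hn hβe.symm⟩
  -- the key fact
  have hkey : ∀ y : AddCircle (1 : ℝ), ‖y‖ < σ →
      ‖y‖ ≤ σ / 2 ∨ ‖y - n • c‖ ≤ σ / 2 ∨ ‖y + n • c‖ ≤ σ / 2 := by
    intro y hy
    obtain ⟨x, hx, hxy⟩ := ucirc_rep y
    by_cases h1 : ‖y‖ ≤ σ / 2
    · exact Or.inl h1
    · right
      rw [not_le] at h1
      rw [hxy] at h1 hy
      rcases le_total 0 x with h2 | h2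
      · left
        rw [abs_of_nonneg h2] at h1 hy
        rw [← hx, hnβ, ← AddCircle.coe_sub]
        refine (ucirc_norm_le _).trans ?_
        rw [abs_le]
        constructor <;> linarith
      · right
        rw [abs_of_nonpos h2] at h1 hy
        rw [← hx, hnβ, ← AddCircle.coe_add]
        refine (ucirc_norm_le _).trans ?_
        rw [abs_le]
        constructor <;> linarith
  -- recurrence to a small neighbourhood of `0`
  have hinf : {j : ℕ | ‖j • c‖ ≤ σ / 2}.Infinite := by
    have h1 : MapClusterPt (0 : AddCircle (1 : ℝ)) atTop (fun n : ℕ => n • c) :=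
      mapClusterPt_zero_atTop_nsmul c
    have h2 : ∀ᶠ y in 𝓝 (0 : AddCircle (1 : ℝ)), ‖y‖ ≤ σ / 2 := by
      have h3 : Metric.ball (0 : AddCircle (1 : ℝ)) (σ / 2) ∈ 𝓝 (0 : AddCircle (1 : ℝ)) :=
        Metric.ball_mem_nhds _ (by linarith)
      filter_upwards [h3] with y hy
      rw [mem_ball_zero_iff] at hy
      exact hy.le
    exact Nat.frequently_atTop_iff_infinite.1 (h1.frequently h2)
  refine ⟨0, f, ?_, ?_, ?_, ?_, ?_⟩
  · intro x
    rw [hf]
    exact ⟨le_min zero_le_one (le_max_left _ _), min_le_left _ _⟩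
  · rw [hf1, norm_zero]
    linarith
  · intro x i hi hiN
    rw [hpow]
    by_contra h
    obtain ⟨h1, h2⟩ := mul_ne_zero_iff.1 h
    rw [hf0] at h1 h2
    have h3 := hσ2 i hi hiN
    have h4 : ‖i • c‖ ≤ ‖i • c + x‖ + ‖x‖ := by
      calc ‖i • c‖ = ‖(i • c + x) - x‖ := by rw [add_sub_cancel_right]
        _ ≤ _ := norm_sub_le _ _
    linarith
  · apply hrec (AddCircle (1 : ℝ)) (Homeomorph.addLeft c)
    intro x
    have h1 : (Set.range fun n : ℤ =>
        (((Homeomorph.addLeft c) ^ n : AddCircle (1 : ℝ) ≃ₜ AddCircle (1 : ℝ)) x)) =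
        (fun y => y + x) '' (Set.range fun n : ℤ => n • c) := by
      rw [← Set.range_comp]
      congr 1
      funext n
      exact addLeft_zpow c n x
    rw [h1]
    exact (Homeomorph.addRight x).surjective.denseRange.dense_image
      (Homeomorph.addRight x).continuous hdz
  · -- counting
    obtain ⟨T, hT1, hT2⟩ := hinf.exists_subset_card_eq (2 * n)
    have hA : ∀ j : ℕ, (f (((Homeomorph.addLeft c) ^ ((j : ℕ) : ℤ) :
        AddCircle (1 : ℝ) ≃ₜ AddCircle (1 : ℝ)) 0) ≠ 0) ↔ ‖j • c‖ < σ := by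
      intro j
      rw [hpow, add_zero, hf0]
    have hB : ∀ j : ℕ, (f (((Homeomorph.addLeft c) ^ ((j : ℕ) : ℤ) :
        AddCircle (1 : ℝ) ≃ₜ AddCircle (1 : ℝ)) 0) = 1) ↔ ‖j • c‖ ≤ σ / 2 := by
      intro j
      rw [hpow, add_zero, hf1]
    filter_upwards [eventually_ge_atTop (T.sup id + 1)] with M hM
    classical
    simp only [hA, hB]
    set AA := (Finset.range M).filter fun j => ‖j • c‖ < σ with hAA
    set PP := (Finset.range M).filter fun j => ‖j • c‖ ≤ σ / 2 with hPP
    have hP2 : 2 * n ≤ PP.card := by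
      rw [← hT2]
      apply Finset.card_le_card
      intro j hj
      rw [hPP, Finset.mem_filter, Finset.mem_range]
      refine ⟨?_, hT1 hj⟩
      have : id j ≤ T.sup id := Finset.le_sup hj
      have h2 : j ≤ T.sup id := this
      omega
    have hsub : AA ⊆ PP ∪ (PP.image (fun j => j + n)) ∪ (Finset.range n) ∪
        ((Finset.range M).filter fun j => j + n ∈ PP) ∪ (Finset.Ico (M - n) M) := by
      intro j hj
      rw [hAA, Finset.mem_filter, Finset.mem_range] at hj
      obtain ⟨hjM, hj2⟩ := hj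
      simp only [Finset.mem_union, Finset.mem_image, Finset.mem_range, Finset.mem_filter,
        Finset.mem_Ico]
      rcases hkey _ hj2 with h | h | h
      · exact Or.inl (Or.inl (Or.inl (Or.inl (by
          rw [hPP, Finset.mem_filter, Finset.mem_range]; exact ⟨hjM, h⟩))))
      · by_cases hjn : j < n
        · exact Or.inl (Or.inl (Or.inr hjn))
        · refine Or.inl (Or.inl (Or.inl (Or.inr ⟨j - n, ?_, by omega⟩)))
          rw [hPP, Finset.mem_filter, Finset.mem_range]
          refine ⟨by omega, ?_⟩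
          have h3 : (j - n) • c = j • c - n • c := by
            rw [eq_sub_iff_add_eq, ← add_nsmul]
            congr 1
            omega
          rw [h3]
          exact h
      · by_cases hjn : j + n < M
        · refine Or.inl (Or.inr ⟨hjM, ?_⟩)
          rw [hPP, Finset.mem_filter, Finset.mem_range]
          refine ⟨hjn, ?_⟩
          rw [add_nsmul]
          exact h
        · exact Or.inr ⟨by omega, hjM⟩
    have hc4 : ((Finset.range M).filter fun j => j + n ∈ PP).card ≤ PP.card := by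
      apply Finset.card_le_card_of_injOn (fun j => j + n)
      · intro j hj
        exact (Finset.mem_filter.1 hj).2
      · intro j _ j' _ h
        exact Nat.add_right_cancel h
    have hc5 : (Finset.Ico (M - n) M).card ≤ n := by
      rw [Nat.card_Ico]; omega
    calc AA.card ≤ _ := Finset.card_le_card hsub
      _ ≤ PP.card + PP.card + n + PP.card + n := by
        refine (Finset.card_union_le _ _).trans (Nat.add_le_add ?_ hc5)
        refine (Finset.card_union_le _ _).trans (Nat.add_le_add ?_ hc4)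
        refine (Finset.card_union_le _ _).trans (Nat.add_le_add ?_ (by rw [Finset.card_range]))
        exact (Finset.card_union_le _ _).trans (Nat.add_le_add le_rfl Finset.card_image_le)
      _ ≤ 4 * PP.card := by omega

end Pool.Agent.Helper65.XR
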