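import Pool.Agent.Helper65.XR.St

set_option autoImplicit false

namespace Pool.Agent.Helper65.XR

open Finset

theorem ee_symm {n : ℕ} (p u : Fin n → Pt) (i j : Fin n) : ee p u i j = ee p u j i := by
  unfold ee
  rw [← neg_sub (p j) (p i), ← neg_sub (u j) (u i), neg_dotProduct_neg]

/-- Existence of a point where a nonzero polynomial does not vanish. -/
theorem exists_ne {n : ℕ} (R : MvPolynomial (Fin n × Fin 3) ℝ) (hR : R ≠ 0) :
    ∃ p : Fin n → Pt, MvPolynomial.eval (fun a => p a.1 a.2) R ≠ 0 := by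
  by_contra hcon
  push Not at hcon
  apply hR
  apply MvPolynomial.funext
  intro x
  rw [map_zero]
  exact hcon (fun i k => x (i, k))

theorem core (hgen : StGEN) (hd2 : StD2) (hd3 : StD3) (hd4 : StD4) (hbad : StBAD)
    (n : ℕ) (G2 H : SimpleGraph (Fin n)) (t : Fin 5 → Fin n) (x y j0 : Fin 5)
    (ht : Function.Injective t) (hxy : x ≠ y) (hH : H ≤ G2)
    (h01 : G2.Adj (t 0) (t 1)) (h23 : G2.Adj (t 2) (t 3))
    (n01 : ¬ H.Adj (t 0) (t 1)) (n23 : ¬ H.Adj (t 2) (t 3))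
    (hxyG : G2.Adj (t x) (t y)) (hxyH : ¬ H.Adj (t x) (t y))
    (e1 : ¬ (s(t x, t y) = s(t 0, t 1))) (e2 : ¬ (s(t x, t y) = s(t 2, t 3)))
    (hG : ∃ p, RI G2 p) (N : Finset (Fin n)) (hN : ∀ l, H.Adj (t j0) l ↔ l ∈ N)
    (hcard : N.card ≤ 4) : XI H t := by
  by_contra hX
  obtain ⟨R, hR, hRg⟩ := hgen n G2 hG
  have hB : ∀ p : Fin n → Pt, MvPolynomial.eval (fun a => p a.1 a.2) R ≠ 0 → Bad H t j0 p :=
    fun p hp => hbad n G2 H t x y j0 ht hxy hH h01 h23 n01 n23 hxyG hxyH e1 e2 hX p (hRg p hp)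
  obtain ⟨p, hp⟩ := exists_ne R hR
  have h2 := hd2 n H t j0 p ht (hB p hp) N (fun l hl => (hN l).1 hl)
  have h3 := hd3 n H t j0 R ht hR hB N hN
  have h4 := hd4 n H t j0 R ht hR hB N hN
  omega

/-- Six additional edges on the five vertices: type A is impossible. -/
theorem core6 (hrow : StRow) (hdu : StDU) (hcoo : StCOO) (hk : StK6) (hgen : StGEN)
    (hbad : StBAD)
    (n : ℕ) (G2 H : SimpleGraph (Fin n)) (t : Fin 5 → Fin n) (x y : Fin 5)
    (ht : Function.Injective t) (hxy : x ≠ y) (hH : H ≤ G2)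
    (h01 : G2.Adj (t 0) (t 1)) (h23 : G2.Adj (t 2) (t 3))
    (n01 : ¬ H.Adj (t 0) (t 1)) (n23 : ¬ H.Adj (t 2) (t 3))
    (hxyG : G2.Adj (t x) (t y)) (hxyH : ¬ H.Adj (t x) (t y))
    (e1 : ¬ (s(t x, t y) = s(t 0, t 1))) (e2 : ¬ (s(t x, t y) = s(t 2, t 3)))
    (hG : ∃ p, RI G2 p) (F : Fin 6 → Fin n × Fin n) (hF : Function.Injective F)
    (hF1 : ∀ k, (F k).1 < (F k).2 ∧ G2.Adj (F k).1 (F k).2 ∧ ¬ H.Adj (F k).1 (F k).2)
    (hF2 : ∀ k, (∃ i, t i = (F k).1) ∧ ∃ i, t i = (F k).2) : XI H t := by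
  classical
  by_contra hX
  obtain ⟨R, hR, hRg⟩ := hgen n G2 hG
  obtain ⟨p, hp⟩ := exists_ne R hR
  have hgood := hRg p hp
  have hB : Bad H t 0 p :=
    hbad n G2 H t x y 0 ht hxy hH h01 h23 n01 n23 hxyG hxyH e1 e2 hX p hgood
  -- barycentric coordinates
  have hinj : Function.Injective (oth t 0) := fun a b hab =>
    Fin.succAbove_right_injective (ht hab)
  obtain ⟨hc1, hc2, -⟩ := hcoo n p (oth t 0) hinj hgood.2.1
  obtain ⟨xx, hxx⟩ := hc1 (p (t 0))
  have hne : ∀ k, oth t 0 k ≠ t 0 := fun k hk => by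
    have := ht hk
    exact Fin.succAbove_ne 0 k this
  have hx0 := (hc2 (t 0) xx hne hxx).1
  set α : Fin 5 → ℝ := Fin.cons (-1) xx with hα
  have hα0 : ∀ i, α i ≠ 0 := by
    intro i
    refine Fin.cases ?_ (fun k => ?_) i
    · simp [hα]
    · simpa [hα] using hx0 k
  -- duals
  haveI : Fintype {q : Fin n × Fin n // q.1 < q.2 ∧ G2.Adj q.1 q.2} := Fintype.ofFinite _
  let r : {q : Fin n × Fin n // q.1 < q.2 ∧ G2.Adj q.1 q.2} → Fin n → Pt :=
    fun z => Row p z.1.1 z.1.2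
  have hdual : ∀ z0 : {q : Fin n × Fin n // q.1 < q.2 ∧ G2.Adj q.1 q.2}, ∃ u : Fin n → Pt,
      ∀ z : {q : Fin n × Fin n // q.1 < q.2 ∧ G2.Adj q.1 q.2},
        ee p u z.1.1 z.1.2 = if z = z0 then 1 else 0 := by
    intro z0
    obtain ⟨u, hu⟩ := hdu n _ r hgood.1 z0
    refine ⟨u, fun z => ?_⟩
    rw [← hu z, hrow n p u _ _ (ne_of_lt z.2.1)]
  let Z : Fin 6 → {q : Fin n × Fin n // q.1 < q.2 ∧ G2.Adj q.1 q.2} :=
    fun k => ⟨F k, (hF1 k).1, (hF1 k).2.1⟩
  have hZ : Function.Injective Z := fun a b hab => hF (congrArg Subtype.val hab)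
  choose u hu using fun k => hdual (Z k)
  have huM : ∀ k, Mot H p (u k) := by
    intro k i j hij
    have key : ∀ a b : Fin n, H.Adj a b → a < b → ee p (u k) a b = 0 := by
      intro a b hab hlt
      have := hu k ⟨(a, b), hlt, hH hab⟩
      rw [this, if_neg]
      intro hcon
      have h1 : (a, b) = F k := congrArg Subtype.val hcon
      apply (hF1 k).2.2
      rw [← h1]
      exact hab
    rcases lt_trichotomy i j with h | h | h
    · exact key i j hij h
    · exact absurd h (H.ne_of_adj hij)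
    · rw [ee_symm]; exact key j i hij.symm h
  obtain ⟨c, hc, hcs⟩ := hk α hα0 (fun k => e5 p (u k) t) (fun k i j => ee_symm _ _ _ _)
    (fun k i => by simp [e5, ee])
    (fun k m => by
      have hA := hB.typA xx hxx (u k) (huM k)
      rw [Fin.sum_univ_succ]
      have e0 : α 0 = -1 := rfl
      have e1 : ∀ i : Fin 4, α i.succ = xx i := fun i => rfl
      simp only [e0, e1]
      refine Fin.cases ?_ (fun m' => ?_) m
      · have h2 := hA.2
        simp only [Dl] at h2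
        have h3 : e5 p (u k) t 0 0 = 0 := by simp [e5, ee]
        rw [h3]
        simpa [e5, oth] using h2
      · have h2 := hA.1 m'
        simp only [Dl] at h2
        have h3 : e5 p (u k) t 0 m'.succ = ee p (u k) (t 0) (oth t 0 m') := rfl
        rw [h3, h2]
        have h4 : ∀ i : Fin 4, e5 p (u k) t i.succ m'.succ
            = ee p (u k) (oth t 0 i) (oth t 0 m') := fun i => rfl
        simp only [h4]
        ring)
  apply hc
  funext k0
  obtain ⟨⟨i, hi⟩, ⟨m, hm⟩⟩ := hF2 k0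
  have h1 := hcs i m
  have h2 : ∀ k, e5 p (u k) t i m = if k = k0 then 1 else 0 := by
    intro k
    have h3 := hu k (Z k0)
    have h4 : e5 p (u k) t i m = ee p (u k) (Z k0).1.1 (Z k0).1.2 := by
      show ee p (u k) (t i) (t m) = _
      rw [hi, hm]
    rw [h4, h3]
    by_cases hkk : k = k0
    · simp [hkk]
    · rw [if_neg, if_neg hkk]
      intro hcon
      exact hkk (hZ hcon).symm
  simp only [h2] at h1
  simpa using h1

end Pool.Agent.Helper65.XR
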