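import Pool.Agent.Helper65.XR.St

set_option autoImplicit false

namespace Pool.Agent.Helper65.XR

open Finset

theorem d2 (hc : StCOO) (hl : StLOC) : StD2 := by
  classical
  intro n H t j0 p ht hB N hN
  by_contra hcard
  push Not at hcard
  -- a nonzero vector orthogonal to the edges
  let L : Pt →ₗ[ℝ] (N → ℝ) :=
    { toFun := fun w l => (p (t j0) - p l.1) ⬝ᵥ w
      map_add' := by
        intro a b; funext l; simp [dotProduct_add]
      map_smul' := by
        intro a b; funext l; simp [dotProduct_smul] }
  have hker : LinearMap.ker L ≠ ⊥ := by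
    apply LinearMap.ker_ne_bot_of_finrank_lt
    simp
    omega
  obtain ⟨w, hw, hw0⟩ := (Submodule.ne_bot_iff _).1 hker
  have hwl : ∀ l ∈ N, (p (t j0) - p l) ⬝ᵥ w = 0 := by
    intro l hlN
    have := congrFun (LinearMap.mem_ker.1 hw) ⟨l, hlN⟩
    simpa [L] using this
  have hA : Function.Injective (oth t j0) := fun a b h =>
    Fin.succAbove_right_injective (ht h)
  have hAj : ∀ k, oth t j0 k ≠ t j0 := fun k h => Fin.succAbove_ne j0 k (ht h)
  obtain ⟨x, hx⟩ := (hc n p (oth t j0) hA hB.gpos).1 (p (t j0))
  have hmot : Mot H p (Function.update (0 : Fin n → Pt) (t j0) w) := by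
    intro i l hil
    unfold ee
    have hne : i ≠ l := hil.ne
    by_cases hi : i = t j0
    · subst hi
      rw [Function.update_self, Function.update_of_ne hne.symm]
      simpa using hwl l (hN l hil)
    · by_cases hl' : l = t j0
      · subst hl'
        rw [Function.update_self, Function.update_of_ne hi]
        have h1 := hwl i (hN i hil.symm)
        have h2 : (p i - p (t j0)) ⬝ᵥ ((0 : Fin n → Pt) i - w) = (p (t j0) - p i) ⬝ᵥ w := by
          rw [show (p i - p (t j0)) = -(p (t j0) - p i) by abel,
            show ((0 : Fin n → Pt) i - w) = -w by simp, neg_dotProduct, dotProduct_neg, neg_neg]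
        rw [h2, h1]
      · rw [Function.update_of_ne hi, Function.update_of_ne hl']
        simp
  have h := (hl n H t j0 p ht hB x hx _ hmot).2.1
  rw [Function.update_self] at h
  apply hw0
  rw [h]
  apply Finset.sum_eq_zero
  intro k _
  rw [Function.update_of_ne (hAj k)]
  simp

end Pool.Agent.Helper65.XR
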