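import Pool.Agent.Helper65.XR.St

set_option autoImplicit false

namespace Pool.Agent.Helper65.XR

open Finset

namespace D3aux

theorem ee_symm {n : ℕ} (p u : Fin n → Pt) (i j : Fin n) : ee p u i j = ee p u j i := by
  unfold ee
  rw [show p i - p j = -(p j - p i) by abel, show u i - u j = -(u j - u i) by abel,
    neg_dotProduct, dotProduct_neg, neg_neg]

theorem ee_self {n : ℕ} (p u : Fin n → Pt) (i : Fin n) : ee p u i i = 0 := by
  unfold ee; simp

/-- Solve the three equations. -/
theorem solve3 {n : ℕ} (p : Fin n → Pt) (i : Fin 4 → Fin n) (hD : D4 p i ≠ 0) (b : Fin 3 → ℝ) :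
    ∃ w : Pt, ∀ k : Fin 3, (p (i 0) - p (i k.succ)) ⬝ᵥ w = b k := by
  let M : Matrix (Fin 3) (Fin 3) ℝ := Matrix.of fun k => p (i 0) - p (i k.succ)
  have hM : M.det ≠ 0 := by
    have h : M.det = - D4 p i := by
      simp only [D4, M, Matrix.det_succ_row_zero, Fin.sum_univ_succ, Matrix.of_apply,
        Matrix.submatrix_apply, Pi.sub_apply]
      simp [Fin.succAbove]
      ring
    rw [h]; simpa using hD
  refine ⟨M⁻¹.mulVec b, fun k => ?_⟩
  have h1 : M.mulVec (M⁻¹.mulVec b) = b := by
    rw [Matrix.mulVec_mulVec, Matrix.mul_nonsing_inv _ (isUnit_iff_ne_zero.2 hM), Matrix.one_mulVec]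
  exact congrFun h1 k

/-- A quadratic function with infinitely many zeros. -/
theorem quad {n : ℕ} (p v : Fin n → Pt) (A : Fin 4 → Fin n) (x y : Fin 4 → ℝ) (S : Set ℝ)
    (hS : S.Finite) (h : ∀ s, s ∉ S → qv p v A (fun k => (1 - s) * x k + s * y k) = 0) :
    qv p v A y = 0 := by
  classical
  let P : Polynomial ℝ := ∑ k, ∑ m, ((1 - Polynomial.X) * Polynomial.C (x k) +
    Polynomial.X * Polynomial.C (y k)) * ((1 - Polynomial.X) * Polynomial.C (x m) +
    Polynomial.X * Polynomial.C (y m)) * Polynomial.C (ee p v (A k) (A m))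
  have hev : ∀ s, P.eval s = qv p v A (fun k => (1 - s) * x k + s * y k) := by
    intro s
    simp only [P, qv, Polynomial.eval_finsetSum, Polynomial.eval_mul, Polynomial.eval_add,
      Polynomial.eval_sub, Polynomial.eval_one, Polynomial.eval_X, Polynomial.eval_C]
  have hP : P = 0 := by
    apply Polynomial.eq_zero_of_infinite_isRoot
    have : Sᶜ ⊆ {s | P.IsRoot s} := by
      intro s hs
      show P.eval s = 0
      rw [hev]
      exact h s hs
    exact (hS.infinite_compl).mono this
  have h1 := hev 1
  rw [hP] at h1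
  simpa using h1.symm

end D3aux

open D3aux

theorem d3 (hc : StCOO) (hl : StLOC) (ht : StTHREE) (hn : StLINE) : StD3 := by
  classical
  intro n H t j0 R htinj hR0 hR N hN hcard
  -- a good placement
  obtain ⟨f, hf⟩ : ∃ f : Fin n × Fin 3 → ℝ, MvPolynomial.eval f R ≠ 0 := by
    by_contra hcon
    push Not at hcon
    exact hR0 (MvPolynomial.funext (fun x => by simpa using hcon x))
  let p0 : Fin n → Pt := fun i c => f (i, c)
  have hp0 : MvPolynomial.eval (fun a => p0 a.1 a.2) R ≠ 0 := hf
  have hB0 := hR p0 hp0
  have hA : Function.Injective (oth t j0) := fun a b h =>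
    Fin.succAbove_right_injective (htinj h)
  have hAj : ∀ k, oth t j0 k ≠ t j0 := fun k h => Fin.succAbove_ne j0 k (htinj h)
  obtain ⟨a, b, c, hab, hac, hbc, hNe⟩ := Finset.card_eq_three.1 hcard
  have hjN : t j0 ∉ N := fun h => (H.irrefl) ((hN _).2 h)
  have hja : t j0 ≠ a := fun h => hjN (by rw [hNe, h]; simp)
  have hjb : t j0 ≠ b := fun h => hjN (by rw [hNe, h]; simp)
  have hjc : t j0 ≠ c := fun h => hjN (by rw [hNe, h]; simp)
  have hinj : Function.Injective (![t j0, a, b, c] : Fin 4 → Fin n) := by
    intro r s hrs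
    fin_cases r <;> fin_cases s <;> simp_all [eq_comm]
  obtain ⟨xs, hxs⟩ := (hc n p0 (oth t j0) hA hB0.gpos).1 (p0 (t j0))
  have key : ∀ v, MotF H (t j0) p0 v → ∀ i m, ee p0 v (oth t j0 i) (oth t j0 m) = 0 := by
    intro v hv i m
    by_cases him : i = m
    · rw [him]; exact ee_self _ _ _
    let x1 : Fin 4 → ℝ := fun k => (if k = i then 1 / 2 else 0) + (if k = m then 1 / 2 else 0)
    let z1 : Pt := (1 / 2 : ℝ) • p0 (oth t j0 i) + (1 / 2 : ℝ) • p0 (oth t j0 m)
    have hx1s : ∑ k, x1 k = 1 := by
      simp only [x1, Finset.sum_add_distrib, Finset.sum_ite_eq', Finset.mem_univ, if_true]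
      norm_num
    have hx1p : ∑ k, x1 k • p0 (oth t j0 k) = z1 := by
      simp only [x1, add_smul, Finset.sum_add_distrib, ite_smul, zero_smul, Finset.sum_ite_eq',
        Finset.mem_univ, if_true, z1]
    let d : Pt := z1 - p0 (t j0)
    have hfin := hn n R p0 (t j0) d hp0
    have hq := quad p0 v (oth t j0) xs x1 _ hfin (by
      intro s hs
      have hs' : MvPolynomial.eval
          (fun a => Function.update p0 (t j0) (p0 (t j0) + s • d) a.1 a.2) R ≠ 0 := hs
      set ps := Function.update p0 (t j0) (p0 (t j0) + s • d) with hps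
      have hBs := hR ps hs'
      obtain ⟨w, hw⟩ := solve3 ps ![t j0, a, b, c] (hBs.gpos _ hinj)
        (fun k => (ps (t j0) - ps (![a, b, c] k)) ⬝ᵥ v (![a, b, c] k))
      have hwa := hw 0
      have hwb := hw 1
      have hwc := hw 2
      simp only [Fin.isValue, Matrix.cons_val_zero, Matrix.cons_val_succ, Matrix.cons_val_one,
        Matrix.cons_val] at hwa hwb hwc
      have hwN : ∀ l ∈ N, (ps (t j0) - ps l) ⬝ᵥ (w - v l) = 0 := by
        intro l hl'
        rw [hNe] at hl'
        simp only [Finset.mem_insert, Finset.mem_singleton] at hl'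
        rcases hl' with rfl | rfl | rfl
        · rw [dotProduct_sub, hwa, sub_self]
        · rw [dotProduct_sub, hwb, sub_self]
        · rw [dotProduct_sub, hwc, sub_self]
      have hmot : Mot H ps (Function.update v (t j0) w) := by
        intro k l hkl
        have hne : k ≠ l := hkl.ne
        have hcase : ∀ l, H.Adj (t j0) l → ee ps (Function.update v (t j0) w) (t j0) l = 0 := by
          intro l hl'
          unfold ee
          rw [Function.update_self, Function.update_of_ne hl'.ne.symm]
          exact hwN l ((hN l).1 hl')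
        by_cases hk : k = t j0
        · subst hk; exact hcase l hkl
        · by_cases hl' : l = t j0
          · subst hl'; rw [ee_symm]; exact hcase k hkl.symm
          · have := hv k l hkl hk hl'
            unfold ee at this ⊢
            rw [Function.update_of_ne hk, Function.update_of_ne hl', hps,
              Function.update_of_ne hk, Function.update_of_ne hl']
            exact this
      have hbar : Bar ps (oth t j0) (ps (t j0)) (fun k => (1 - s) * xs k + s * x1 k) := by
        refine ⟨?_, ?_⟩
        · rw [Finset.sum_add_distrib, ← Finset.mul_sum, ← Finset.mul_sum, hxs.1, hx1s]; ring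
        · have : ∀ k, ps (oth t j0 k) = p0 (oth t j0 k) := fun k => by
            rw [hps, Function.update_of_ne (hAj k)]
          simp only [this, add_smul, mul_smul, Finset.sum_add_distrib, ← Finset.smul_sum]
          rw [hxs.2, hx1p, hps, Function.update_self]
          simp only [d]
          module
      have h := (hl n H t j0 ps htinj hBs _ hbar _ hmot).1
      rw [← h]
      unfold qv ee
      apply Finset.sum_congr rfl; intro k _
      apply Finset.sum_congr rfl; intro m' _
      rw [Function.update_of_ne (hAj k), Function.update_of_ne (hAj m'), hps,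
        Function.update_of_ne (hAj k), Function.update_of_ne (hAj m')])
    -- evaluate
    have hval : qv p0 v (oth t j0) x1 = (1 / 2) * ee p0 v (oth t j0 i) (oth t j0 m) := by
      unfold qv
      simp only [x1, add_mul, mul_add, Finset.sum_add_distrib, ite_mul, mul_ite, zero_mul,
        mul_zero, Finset.sum_ite_eq', Finset.mem_univ, if_true]
      have e1 := ee_self p0 v (oth t j0 i)
      have e2 := ee_self p0 v (oth t j0 m)
      have e3 := ee_symm p0 v (oth t j0 m) (oth t j0 i)
      simp only [e1, e2, e3]
      ring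
    rw [hval] at hq
    linarith
  obtain ⟨u, hu, hind⟩ := ht n H t j0 p0 htinj hB0
  have hu0 : MotF H (t j0) p0 (u 0) := fun i l hil _ _ => hu 0 i l hil
  have hz := hind (Pi.single 0 1) (by
    intro i m
    rw [Finset.sum_eq_single 0]
    · rw [key (u 0) hu0 i m, mul_zero]
    · intro k _ hk
      rw [Pi.single_eq_of_ne hk, zero_mul]
    · intro h; exact absurd (Finset.mem_univ _) h)
  have := congrFun hz 0
  simp at this

end Pool.Agent.Helper65.XR
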