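import Pool.Agent.Helper65.XR.St

set_option autoImplicit false

namespace Pool.Agent.Helper65.XR

open Finset

/-- The vector with entry `X` at `i` and `Y` at `m`. -/
private def two (i m : Fin 4) (X Y : ℝ) : Fin 4 → ℝ :=
  fun k => if k = i then X else if k = m then Y else 0

private theorem lin_two (l : Fin 4 → ℝ) {i m : Fin 4} (him : i ≠ m) (X Y : ℝ) :
    ∑ k, l k * two i m X Y k = l i * X + l m * Y := by
  unfold two
  fin_cases i <;> fin_cases m <;>
    first | exact absurd rfl him | (simp [Fin.sum_univ_four]) <;> try ring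

private theorem quad_two (q : Fin 4 → Fin 4 → ℝ) (hs : ∀ i m, q i m = q m i)
    (hd : ∀ i, q i i = 0) {i m : Fin 4} (him : i ≠ m) (X Y : ℝ) :
    ∑ a, ∑ b, two i m X Y a * two i m X Y b * q a b = 2 * X * Y * q i m := by
  have h1 : ∀ a, ∑ b, two i m X Y a * two i m X Y b * q a b
      = two i m X Y a * (q a i * X + q a m * Y) := by
    intro a
    rw [← lin_two (fun b => q a b) him X Y, Finset.mul_sum]
    exact Finset.sum_congr rfl fun b _ => by ring
  rw [Finset.sum_congr rfl fun a _ => h1 a]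
  have h2 := lin_two (fun a => q a i * X + q a m * Y) him X Y
  have h3 : ∑ a, two i m X Y a * (q a i * X + q a m * Y)
      = ∑ a, (q a i * X + q a m * Y) * two i m X Y a :=
    Finset.sum_congr rfl fun b _ => by ring
  rw [h3, h2, hd i, hd m, hs m i]
  ring

private theorem third : ∀ i m : Fin 4, ∃ k : Fin 4, k ≠ i ∧ k ≠ m := by decide

theorem alg : StALG := by
  intro xs hxs l q0 hs0 hd0 hd
  by_contra hne
  have hex : ∃ i m, q0 i m ≠ 0 := by
    by_contra hcon
    push Not at hcon
    exact hne (by funext i m; simpa using hcon i m)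
  obtain ⟨i, m, hq⟩ := hex
  have him : i ≠ m := by
    rintro rfl
    exact hq (hd0 i)
  have key : ∀ d : Fin 4 → ℝ, ∑ k, d k * xs k = 0 →
      ∃ r : ℝ, l i * r = d i * q0 i m ∧ l m * r = d m * q0 i m := by
    intro d hdd
    obtain ⟨q, hqs, hqd, hq'⟩ := hd d hdd
    refine ⟨q i m, ?_⟩
    have e1 := hq' (two i m 1 1)
    have e2 := hq' (two i m 1 (-1))
    rw [lin_two l him, lin_two d him, quad_two q hqs hqd him, quad_two q0 hs0 hd0 him] at e1 e2
    constructor <;> linarith
  obtain ⟨k, hki, hkm⟩ := third i m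
  have z1 : ∑ a, two i m (xs m) (-xs i) a * xs a = 0 := by
    have := lin_two xs him (xs m) (-xs i)
    have e : ∑ a, two i m (xs m) (-xs i) a * xs a = ∑ a, xs a * two i m (xs m) (-xs i) a :=
      Finset.sum_congr rfl fun b _ => by ring
    rw [e, this]
    ring
  have z2 : ∑ a, two i k (xs k) (-xs i) a * xs a = 0 := by
    have := lin_two xs (Ne.symm hki) (xs k) (-xs i)
    have e : ∑ a, two i k (xs k) (-xs i) a * xs a = ∑ a, xs a * two i k (xs k) (-xs i) a :=
      Finset.sum_congr rfl fun b _ => by ring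
    rw [e, this]
    ring
  obtain ⟨r, hr1, hr2⟩ := key _ z1
  obtain ⟨s, hs1, hs2⟩ := key _ z2
  have a2 : two i m (xs m) (-xs i) m = -xs i := by
    unfold two
    rw [if_neg (Ne.symm him), if_pos rfl]
  have b1 : two i k (xs k) (-xs i) i = xs k := by
    unfold two
    rw [if_pos rfl]
  have b2 : two i k (xs k) (-xs i) m = 0 := by
    unfold two
    rw [if_neg (Ne.symm him), if_neg (Ne.symm hkm)]
  rw [a2] at hr2
  rw [b1] at hs1
  rw [b2, zero_mul] at hs2
  have hlm : l m ≠ 0 := by
    intro h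
    rw [h, zero_mul] at hr2
    exact mul_ne_zero (neg_ne_zero.2 (hxs i)) hq hr2.symm
  have hs0' : s = 0 := by
    rcases mul_eq_zero.1 hs2 with h | h
    · exact absurd h hlm
    · exact h
  rw [hs0', mul_zero] at hs1
  exact mul_ne_zero (hxs k) hq hs1.symm

/-- Two linear conditions on three unknowns. -/
private theorem two_cond (f g : Fin 3 → ℝ) :
    ∃ c : Fin 3 → ℝ, c ≠ 0 ∧ ∑ k, c k * f k = 0 ∧ ∑ k, c k * g k = 0 := by
  have h := LinearMap.ker_ne_bot_of_finrank_lt
    (f := (LinearMap.pi ![Fintype.linearCombination ℝ f, Fintype.linearCombination ℝ g] :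
      (Fin 3 → ℝ) →ₗ[ℝ] (Fin 2 → ℝ))) (by simp)
  obtain ⟨c, hc, hc0⟩ := Submodule.exists_mem_ne_zero_of_ne_bot h
  refine ⟨c, hc0, ?_, ?_⟩
  · have := congrFun (LinearMap.mem_ker.1 hc) 0
    simpa [Fintype.linearCombination_apply] using this
  · have := congrFun (LinearMap.mem_ker.1 hc) 1
    simpa [Fintype.linearCombination_apply] using this

private theorem ee_symm {n : ℕ} (p u : Fin n → Pt) (i j : Fin n) : ee p u i j = ee p u j i := by
  unfold ee
  simp only [dotProduct, Pi.sub_apply]
  exact Finset.sum_congr rfl fun k _ => by ring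

private theorem ee_self {n : ℕ} (p u : Fin n → Pt) (i : Fin n) : ee p u i i = 0 := by
  unfold ee
  simp

/-- A linear form times a quadratic form vanishes identically. -/
private theorem forms (l : Fin 4 → ℝ) (E : Fin 4 → Fin 4 → ℝ) (hs : ∀ i m, E i m = E m i)
    (hd : ∀ i, E i i = 0) (x0 : Fin 4 → ℝ) (hx0 : ∑ k, x0 k * l k ≠ 0)
    (h : ∀ x : Fin 4 → ℝ, (∑ k, x k * l k) * (∑ i, ∑ m, x i * x m * E i m) = 0) :
    ∀ i m, E i m = 0 := by
  have hQ : ∀ x : Fin 4 → ℝ, ∑ i, ∑ m, x i * x m * E i m = 0 := by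
    intro x
    by_cases hx : ∑ k, x k * l k = 0
    · have q0 : ∑ i, ∑ m, x0 i * x0 m * E i m = 0 :=
        (mul_eq_zero.1 (h x0)).resolve_left hx0
      have e1 : ∑ k, (x k + x0 k) * l k ≠ 0 := by
        have : ∑ k, (x k + x0 k) * l k = ∑ k, x k * l k + ∑ k, x0 k * l k := by
          rw [← Finset.sum_add_distrib]
          exact Finset.sum_congr rfl fun k _ => by ring
        rw [this, hx, zero_add]
        exact hx0
      have e2 : ∑ k, (x k - x0 k) * l k ≠ 0 := by
        have : ∑ k, (x k - x0 k) * l k = ∑ k, x k * l k - ∑ k, x0 k * l k := by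
          rw [← Finset.sum_sub_distrib]
          exact Finset.sum_congr rfl fun k _ => by ring
        rw [this, hx, zero_sub]
        exact neg_ne_zero.2 hx0
      have q1 := (mul_eq_zero.1 (h fun k => x k + x0 k)).resolve_left e1
      have q2 := (mul_eq_zero.1 (h fun k => x k - x0 k)).resolve_left e2
      have par : ∑ i, ∑ m, (x i + x0 i) * (x m + x0 m) * E i m
          + ∑ i, ∑ m, (x i - x0 i) * (x m - x0 m) * E i m
          = 2 * (∑ i, ∑ m, x i * x m * E i m) + 2 * (∑ i, ∑ m, x0 i * x0 m * E i m) := by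
        simp only [Finset.mul_sum, ← Finset.sum_add_distrib]
        exact Finset.sum_congr rfl fun i _ => Finset.sum_congr rfl fun m _ => by ring
      rw [q0] at par
      linarith
    · exact (mul_eq_zero.1 (h x)).resolve_left hx
  intro i m
  by_cases him : i = m
  · rw [him]
    exact hd m
  · have := quad_two E hs hd him 1 1
    rw [hQ] at this
    linarith

/-- Pairs of `Fin 4` avoiding two indices. -/
private theorem pairs2 : ∀ k0 k1 : Fin 4, k0 ≠ k1 → ∃ a b : Fin 4, ∀ i m : Fin 4,
    i = m ∨ i = k0 ∨ m = k0 ∨ i = k1 ∨ m = k1 ∨ (i = a ∧ m = b) ∨ (i = b ∧ m = a) := by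
  decide

private theorem pairs3 : ∀ k0 : Fin 4, ∃ a b c : Fin 4, b ≠ c ∧ ∀ i m : Fin 4,
    i = m ∨ i = k0 ∨ m = k0 ∨ (i = a ∧ m = b) ∨ (i = b ∧ m = a) ∨ (i = a ∧ m = c) ∨
      (i = c ∧ m = a) ∨ (i = b ∧ m = c) ∨ (i = c ∧ m = b) := by
  decide

/-- Dependence when one row of the arrays vanishes. -/
private theorem caseB (E : Fin 3 → Fin 4 → Fin 4 → ℝ) (hs : ∀ k i m, E k i m = E k m i)
    (hd : ∀ k i, E k i i = 0) (k0 : Fin 4) (h0 : ∀ k i, E k i k0 = 0)
    (h1 : (∃ k1, k1 ≠ k0 ∧ ∀ k i, E k i k1 = 0) ∨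
      (∃ y : Fin 4 → ℝ, (∀ i, y i ≠ 0) ∧ ∀ k, ∑ i, ∑ m, y i * y m * E k i m = 0)) :
    ∃ c : Fin 3 → ℝ, c ≠ 0 ∧ ∀ i m, ∑ k, c k * E k i m = 0 := by
  rcases h1 with ⟨k1, hk, h1⟩ | ⟨y, hy, h1⟩
  · obtain ⟨a, b, hab⟩ := pairs2 k0 k1 (Ne.symm hk)
    obtain ⟨c, hc, hc1, -⟩ := two_cond (fun k => E k a b) (fun _ => 0)
    refine ⟨c, hc, fun i m => ?_⟩
    rcases hab i m with h | h | h | h | h | ⟨h, h'⟩ | ⟨h, h'⟩
    · subst h
      simp [hd]
    · subst h
      exact Finset.sum_eq_zero fun k _ => by rw [hs k i m, h0, mul_zero]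
    · subst h
      exact Finset.sum_eq_zero fun k _ => by rw [h0, mul_zero]
    · subst h
      exact Finset.sum_eq_zero fun k _ => by rw [hs k i m, h1, mul_zero]
    · subst h
      exact Finset.sum_eq_zero fun k _ => by rw [h1, mul_zero]
    · subst h h'
      exact hc1
    · subst h h'
      rw [← hc1]
      exact Finset.sum_congr rfl fun k _ => by rw [hs k i m]
  · obtain ⟨a, b, c', hbc, hab⟩ := pairs3 k0
    obtain ⟨c, hc, hc1, hc2⟩ := two_cond (fun k => E k a b) (fun k => E k a c')
    refine ⟨c, hc, ?_⟩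
    set F : Fin 4 → Fin 4 → ℝ := fun i m => ∑ k, c k * E k i m with hF
    have hFs : ∀ i m, F i m = F m i := fun i m =>
      Finset.sum_congr rfl fun k _ => by rw [hs k i m]
    have hFd : ∀ i, F i i = 0 := fun i => Finset.sum_eq_zero fun k _ => by rw [hd, mul_zero]
    have hF0 : ∀ i, F i k0 = 0 := fun i => Finset.sum_eq_zero fun k _ => by rw [h0, mul_zero]
    have hFy : ∑ i, ∑ m, y i * y m * F i m = 0 := by
      have e : ∑ i, ∑ m, y i * y m * F i m = ∑ k, c k * ∑ i, ∑ m, y i * y m * E k i m := by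
        simp only [hF, Finset.mul_sum]
        conv_rhs => rw [Finset.sum_comm]
        refine Finset.sum_congr rfl fun i _ => ?_
        conv_rhs => rw [Finset.sum_comm]
        exact Finset.sum_congr rfl fun m _ => Finset.sum_congr rfl fun k _ => by ring
      rw [e]
      exact Finset.sum_eq_zero fun k _ => by rw [h1 k, mul_zero]
    have hother : ∀ i m, ¬ (i = b ∧ m = c') → ¬ (i = c' ∧ m = b) → F i m = 0 := by
      intro i m n1 n2
      rcases hab i m with h | h | h | ⟨h, h'⟩ | ⟨h, h'⟩ | ⟨h, h'⟩ | ⟨h, h'⟩ | h | h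
      · rw [h]
        exact hFd m
      · rw [h, hFs]
        exact hF0 m
      · rw [h]
        exact hF0 i
      · rw [h, h']
        exact hc1
      · rw [h, h', hFs]
        exact hc1
      · rw [h, h']
        exact hc2
      · rw [h, h', hFs]
        exact hc2
      · exact absurd h n1
      · exact absurd h n2
    have hbc0 : F b c' = 0 := by
      have e : ∑ i, ∑ m, y i * y m * F i m = 2 * (y b * y c' * F b c') := by
        rw [Fintype.sum_eq_add b c' hbc]
        · rw [Fintype.sum_eq_single c', Fintype.sum_eq_single b, hFs c' b]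
          · ring
          · intro m hm
            rw [hother c' m (fun h => hbc h.1.symm) (fun h => hm h.2), mul_zero]
          · intro m hm
            rw [hother b m (fun h => hm h.2) (fun h => hbc h.1), mul_zero]
        · intro i hi
          exact Finset.sum_eq_zero fun m _ => by
            rw [hother i m (fun h => hi.1 h.1) (fun h => hi.2 h.1), mul_zero]
      rw [e] at hFy
      have := hy b
      have := hy c'
      have h3 : y b * y c' * F b c' = 0 := by linarith
      rcases mul_eq_zero.1 h3 with h | h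
      · exact absurd h (mul_ne_zero (hy b) (hy c'))
      · exact h
    intro i m
    by_cases n1 : i = b ∧ m = c'
    · rw [n1.1, n1.2]
      exact hbc0
    · by_cases n2 : i = c' ∧ m = b
      · rw [n2.1, n2.2]
        show F c' b = 0
        rw [hFs]
        exact hbc0
      · exact hother i m n1 n2

/-- Dependence from four points outside the simplex. -/
private theorem caseA (E : Fin 3 → Fin 4 → Fin 4 → ℝ) (hs : ∀ k i m, E k i m = E k m i)
    (hd : ∀ k i, E k i i = 0) (y : Fin 4 → Fin 4 → ℝ)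
    (hy : ∀ r k, ∑ i, ∑ m, y r i * y r m * E k i m = 0)
    (hdet : (Matrix.of fun r : Fin 4 =>
      ![y r 0 * y r 1, y r 0 * y r 2, y r 0 * y r 3, y r 1 * y r 2]).det ≠ 0) :
    ∃ c : Fin 3 → ℝ, c ≠ 0 ∧ ∀ i m, ∑ k, c k * E k i m = 0 := by
  obtain ⟨c, hc, hc1, hc2⟩ := two_cond (fun k => E k 1 3) (fun k => E k 2 3)
  refine ⟨c, hc, ?_⟩
  set F : Fin 4 → Fin 4 → ℝ := fun i m => ∑ k, c k * E k i m with hF
  have hFs : ∀ i m, F i m = F m i := fun i m =>
    Finset.sum_congr rfl fun k _ => by rw [hs k i m]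
  have hFd : ∀ i, F i i = 0 := fun i => Finset.sum_eq_zero fun k _ => by rw [hd, mul_zero]
  have hFy : ∀ r, ∑ i, ∑ m, y r i * y r m * F i m = 0 := by
    intro r
    have e : ∑ i, ∑ m, y r i * y r m * F i m
        = ∑ k, c k * ∑ i, ∑ m, y r i * y r m * E k i m := by
      simp only [hF, Finset.mul_sum]
      conv_rhs => rw [Finset.sum_comm]
      refine Finset.sum_congr rfl fun i _ => ?_
      conv_rhs => rw [Finset.sum_comm]
      exact Finset.sum_congr rfl fun m _ => Finset.sum_congr rfl fun k _ => by ring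
    rw [e]
    exact Finset.sum_eq_zero fun k _ => by rw [hy r k, mul_zero]
  have h13 : F 1 3 = 0 := hc1
  have h23 : F 2 3 = 0 := hc2
  have hv : (![F 0 1, F 0 2, F 0 3, F 1 2] : Fin 4 → ℝ) = 0 := by
    refine Matrix.eq_zero_of_mulVec_eq_zero hdet ?_
    funext r
    have h := hFy r
    simp only [Fin.sum_univ_four, hFd, hFs 1 0, hFs 2 0, hFs 3 0, hFs 2 1, hFs 3 1, hFs 3 2,
      h13, h23] at h
    simp only [Matrix.mulVec, dotProduct, Fin.sum_univ_four, Matrix.of_apply, Pi.zero_apply]
    simp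
    linarith
  have h01 : F 0 1 = 0 := congrFun hv 0
  have h02 : F 0 2 = 0 := congrFun hv 1
  have h03 : F 0 3 = 0 := congrFun hv 2
  have h12 : F 1 2 = 0 := congrFun hv 3
  intro i m
  show F i m = 0
  fin_cases i <;> fin_cases m <;>
    first
      | exact hFd _
      | exact h01
      | exact h02
      | exact h03
      | exact h12
      | exact h13
      | exact h23
      | (rw [hFs]; first | exact h01 | exact h02 | exact h03 | exact h12 | exact h13 | exact h23)

/-- A cubic identity on the plane of coordinate sum one holds everywhere. -/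
private theorem ext_all (a b : Fin 4 → ℝ) (q r : Fin 4 → Fin 4 → ℝ)
    (h : ∀ x : Fin 4 → ℝ, ∑ k, x k = 1 →
      (∑ k, x k * a k) * (∑ i, ∑ m, x i * x m * q i m)
        = (∑ k, x k * b k) * (∑ i, ∑ m, x i * x m * r i m)) (x : Fin 4 → ℝ) :
    (∑ k, x k * a k) * (∑ i, ∑ m, x i * x m * q i m)
        = (∑ k, x k * b k) * (∑ i, ∑ m, x i * x m * r i m) := by
  have h1 : ∀ x : Fin 4 → ℝ, ∑ k, x k ≠ 0 →
      (∑ k, x k * a k) * (∑ i, ∑ m, x i * x m * q i m)
        = (∑ k, x k * b k) * (∑ i, ∑ m, x i * x m * r i m) := by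
    intro x hx
    set s := ∑ k, x k with hs
    have e0 : ∑ k, s⁻¹ * x k = 1 := by
      rw [← Finset.mul_sum, ← hs]
      exact inv_mul_cancel₀ hx
    have e1 : ∀ a : Fin 4 → ℝ, ∑ k, s⁻¹ * x k * a k = s⁻¹ * ∑ k, x k * a k := by
      intro a
      rw [Finset.mul_sum]
      exact Finset.sum_congr rfl fun k _ => by ring
    have e2 : ∀ q : Fin 4 → Fin 4 → ℝ, ∑ i, ∑ m, s⁻¹ * x i * (s⁻¹ * x m) * q i m
        = s⁻¹ * s⁻¹ * ∑ i, ∑ m, x i * x m * q i m := by
      intro q
      simp only [Finset.mul_sum]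
      exact Finset.sum_congr rfl fun k _ => Finset.sum_congr rfl fun m _ => by ring
    have h2 := h (fun k => s⁻¹ * x k) e0
    rw [e1 a, e1 b, e2 q, e2 r] at h2
    have h3 : s⁻¹ * s⁻¹ * s⁻¹ ≠ 0 :=
      mul_ne_zero (mul_ne_zero (inv_ne_zero hx) (inv_ne_zero hx)) (inv_ne_zero hx)
    refine mul_left_cancel₀ h3 ?_
    linarith
  by_cases hx : ∑ k, x k = 0
  · have key : (fun e : ℝ => (∑ k, (x k + e * (if k = 0 then 1 else 0)) * a k) *
        (∑ i, ∑ m, (x i + e * (if i = 0 then 1 else 0)) * (x m + e * (if m = 0 then 1 else 0))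
          * q i m))
        = (fun e : ℝ => (∑ k, (x k + e * (if k = 0 then 1 else 0)) * b k) *
        (∑ i, ∑ m, (x i + e * (if i = 0 then 1 else 0)) * (x m + e * (if m = 0 then 1 else 0))
          * r i m)) := by
      refine Continuous.ext_on (dense_compl_singleton (0 : ℝ)) (by fun_prop) (by fun_prop) ?_
      intro e he
      refine h1 (fun k => x k + e * (if k = 0 then 1 else 0)) ?_
      rw [Finset.sum_add_distrib, hx, ← Finset.mul_sum]
      simpa using he
    have := congrFun key 0
    simpa using this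
  · exact h1 x hx

theorem d4 (hb : StBAR) (hc : StCOO) (hl : StLOC) (ht : StTHREE) (hi : StD4I) (ha : StALG) :
    StD4 := by
  intro n H t j0 R hinj hR hbad N hN hcard
  obtain ⟨w, hw⟩ : ∃ w : Fin n × Fin 3 → ℝ, MvPolynomial.eval w R ≠ 0 := by
    by_contra hcon
    push Not at hcon
    exact hR (MvPolynomial.funext fun x => by simpa using hcon x)
  obtain ⟨p, hp⟩ : ∃ p : Fin n → Pt, MvPolynomial.eval (fun a => p a.1 a.2) R ≠ 0 :=
    ⟨fun i c => w (i, c), hw⟩
  have bad := hbad p hp
  have hAinj : Function.Injective (oth t j0) := fun a b h =>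
    Fin.succAbove_right_injective (hinj h)
  have hAj : ∀ k, oth t j0 k ≠ t j0 := fun k h => Fin.succAbove_ne j0 k (hinj h)
  obtain ⟨u, hu, hu3⟩ := ht n H t j0 p hinj bad
  obtain ⟨hcoo1, hcoo2, -⟩ := hc n p (oth t j0) hAinj bad.gpos
  obtain ⟨xs, hxs⟩ := hcoo1 (p (t j0))
  have hxs0 := (hcoo2 (t j0) xs hAj hxs).1
  have hloc := hl n H t j0 p hinj bad xs hxs
  have hm : ∀ k, MotF H (t j0) p (u k) := fun k i l h _ _ => hu k i l h
  have hid := hi n H t j0 R hinj hbad N hN hcard p hp
  generalize hA : oth t j0 = A at *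
  by_cases hcase : ∃ v0, MotF H (t j0) p v0 ∧ ∃ l ∈ N, ∃ x, Dl p v0 A l x ≠ 0
  · obtain ⟨v0, hv0, l, hlN, x0, hx0⟩ := hcase
    have key : ∀ k, ∀ x : Fin 4 → ℝ, (∑ i, x i * ee p v0 (A i) l) *
        (∑ i, ∑ m, x i * x m * ee p (u k) (A i) (A m))
        = (∑ i, x i * ee p (u k) (A i) l) * (∑ i, ∑ m, x i * x m * ee p v0 (A i) (A m)) := by
      intro k
      exact ext_all _ _ _ _ fun x hx => hid v0 (u k) hv0 (hm k) x hx l hlN
    -- sums with coefficients
    have keyc : ∀ c : Fin 3 → ℝ, ∀ x : Fin 4 → ℝ, (∑ i, x i * ee p v0 (A i) l) *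
        (∑ i, ∑ m, x i * x m * ∑ k, c k * ee p (u k) (A i) (A m))
        = (∑ i, x i * ∑ k, c k * ee p (u k) (A i) l) *
          (∑ i, ∑ m, x i * x m * ee p v0 (A i) (A m)) := by
      intro c x
      have e1 : ∑ i, ∑ m, x i * x m * ∑ k, c k * ee p (u k) (A i) (A m)
          = ∑ k, c k * ∑ i, ∑ m, x i * x m * ee p (u k) (A i) (A m) := by
        simp only [Finset.mul_sum]
        conv_rhs => rw [Finset.sum_comm]
        refine Finset.sum_congr rfl fun i _ => ?_
        conv_rhs => rw [Finset.sum_comm]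
        exact Finset.sum_congr rfl fun m _ => Finset.sum_congr rfl fun k _ => by ring
      have e2 : ∑ i, x i * ∑ k, c k * ee p (u k) (A i) l
          = ∑ k, c k * ∑ i, x i * ee p (u k) (A i) l := by
        simp only [Finset.mul_sum]
        conv_rhs => rw [Finset.sum_comm]
        exact Finset.sum_congr rfl fun m _ => Finset.sum_congr rfl fun k _ => by ring
      rw [e1, e2, Finset.mul_sum, Finset.sum_mul]
      refine Finset.sum_congr rfl fun k _ => ?_
      have := key k x
      linear_combination c k * this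
    have hsym : ∀ c : Fin 3 → ℝ, ∀ i m, ∑ k, c k * ee p (u k) (A i) (A m)
        = ∑ k, c k * ee p (u k) (A m) (A i) := fun c i m =>
      Finset.sum_congr rfl fun k _ => by rw [ee_symm]
    have hdia : ∀ c : Fin 3 → ℝ, ∀ i, ∑ k, c k * ee p (u k) (A i) (A i) = 0 := fun c i =>
      Finset.sum_eq_zero fun k _ => by rw [ee_self, mul_zero]
    have hli : LinearIndependent ℝ (fun k : Fin 3 => fun i : Fin 4 => ee p (u k) (A i) l) := by
      rw [Fintype.linearIndependent_iff]
      intro c hc0
      have hc0' : ∀ i, ∑ k, c k * ee p (u k) (A i) l = 0 := by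
        intro i
        have := congrFun hc0 i
        simpa using this
      have hz := forms (fun i => ee p v0 (A i) l)
        (fun i m => ∑ k, c k * ee p (u k) (A i) (A m)) (hsym c) (hdia c) x0 hx0 (by
          intro x
          rw [keyc c x]
          simp [hc0'])
      have := hu3 c hz
      intro i
      rw [this]
      rfl
    have hperp : ∀ k, ∑ i, ee p (u k) (A i) l * xs i = 0 := by
      intro k
      have := (hloc (u k) (hu k)).2.2 l ((hN l).2 hlN)
      rw [← this]
      exact Finset.sum_congr rfl fun i _ => by ring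
    have hspan : ∀ d : Fin 4 → ℝ, ∑ k, d k * xs k = 0 →
        ∃ c : Fin 3 → ℝ, ∀ i, ∑ k, c k * ee p (u k) (A i) l = d i := by
      intro d hd
      set W : Submodule ℝ (Fin 4 → ℝ) := LinearMap.ker (Fintype.linearCombination ℝ xs) with hW
      have hWm : ∀ d : Fin 4 → ℝ, d ∈ W ↔ ∑ k, d k * xs k = 0 := by
        intro d
        rw [hW, LinearMap.mem_ker, Fintype.linearCombination_apply]
        rfl
      have hle : Submodule.span ℝ (Set.range (fun k : Fin 3 => fun i : Fin 4 =>
          ee p (u k) (A i) l)) ≤ W := by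
        rw [Submodule.span_le]
        rintro _ ⟨k, rfl⟩
        exact (hWm _).2 (hperp k)
      have hfs : Module.finrank ℝ (Submodule.span ℝ (Set.range (fun k : Fin 3 =>
          fun i : Fin 4 => ee p (u k) (A i) l))) = 3 := by
        rw [finrank_span_eq_card hli]
        simp
      have hfW : Module.finrank ℝ W = 3 := by
        have h1 := LinearMap.finrank_range_add_finrank_ker
          (Fintype.linearCombination ℝ xs : (Fin 4 → ℝ) →ₗ[ℝ] ℝ)
        have h2 : LinearMap.range (Fintype.linearCombination ℝ xs : (Fin 4 → ℝ) →ₗ[ℝ] ℝ) = ⊤ := by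
          rw [LinearMap.range_eq_top]
          intro y
          refine ⟨fun k => if k = 0 then y * (xs 0)⁻¹ else 0, ?_⟩
          rw [Fintype.linearCombination_apply]
          simp [hxs0 0]
        rw [h2, finrank_top] at h1
        simp only [Module.finrank_self, Module.finrank_fintype_fun_eq_card, Fintype.card_fin]
          at h1
        rw [hW]
        omega
      have heq := Submodule.eq_of_le_of_finrank_eq hle (by rw [hfs, hfW])
      have hmem : d ∈ W := (hWm d).2 hd
      rw [← heq, Submodule.mem_span_range_iff_exists_fun] at hmem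
      obtain ⟨c, hc⟩ := hmem
      refine ⟨c, fun i => ?_⟩
      have := congrFun hc i
      simpa using this
    have hq0 := ha xs hxs0 (fun i => ee p v0 (A i) l) (fun i m => ee p v0 (A i) (A m))
      (fun i m => ee_symm p v0 _ _) (fun i => ee_self p v0 _) (by
        intro d hd
        obtain ⟨c, hc⟩ := hspan d hd
        refine ⟨fun i m => ∑ k, c k * ee p (u k) (A i) (A m), hsym c, hdia c, fun x => ?_⟩
        have h1 := keyc c x
        simp only [hc] at h1
        have e1 : ∑ k, ee p v0 (A k) l * x k = ∑ k, x k * ee p v0 (A k) l :=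
          Finset.sum_congr rfl fun i _ => by ring
        have e2 : ∑ k, d k * x k = ∑ k, x k * d k :=
          Finset.sum_congr rfl fun i _ => by ring
        rw [e1, e2]
        exact h1)
    have hq0' : ∀ i m, ee p v0 (A i) (A m) = 0 := fun i m => congrFun (congrFun hq0 i) m
    have hz := forms (fun i => ee p v0 (A i) l)
      (fun i m => ∑ k, (Pi.single 0 1 : Fin 3 → ℝ) k * ee p (u k) (A i) (A m))
      (hsym _) (hdia _) x0 hx0 (by
        intro x
        rw [keyc _ x]
        simp [hq0'])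
    have := congrFun (hu3 _ hz) 0
    simp at this
  · push Not at hcase
    have hz : ∀ k, ∀ l ∈ N, ∀ i, ee p (u k) (A i) l = 0 := by
      intro k l hlN i
      have := hcase (u k) (hm k) l hlN (Pi.single i 1)
      simpa [Dl, Pi.single_apply] using this
    have hqz : ∀ l ∈ N, ∀ y, Bar p A (p l) y → ∀ k, qv p (u k) A y = 0 := by
      intro l hlN y hy k
      have h1 := hb n p (u k) A (p l) y hy l
      rw [hcase (u k) (hm k) l hlN y, sub_self, zero_dotProduct] at h1
      linarith
    have hfin : ∃ c : Fin 3 → ℝ, c ≠ 0 ∧ ∀ i m, ∑ k, c k * ee p (u k) (A i) (A m) = 0 := by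
      by_cases hAN : ∃ k0, A k0 ∈ N
      · obtain ⟨k0, hk0⟩ := hAN
        refine caseB (fun k i m => ee p (u k) (A i) (A m)) (fun k i m => ee_symm _ _ _ _)
          (fun k i => ee_self _ _ _) k0 (fun k i => hz k _ hk0 i) ?_
        obtain ⟨l1, hl1N, hl1⟩ := Finset.exists_mem_ne (s := N) (by omega) (A k0)
        by_cases hk1 : ∃ k1, A k1 = l1
        · left
          obtain ⟨k1, hk1⟩ := hk1
          refine ⟨k1, fun h => hl1 (by rw [← hk1, h]), fun k i => ?_⟩
          rw [hk1]
          exact hz k _ hl1N i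
        · right
          push Not at hk1
          obtain ⟨y, hy⟩ := hcoo1 (p l1)
          exact ⟨y, (hcoo2 l1 y hk1 hy).1, fun k => hqz l1 hl1N y hy k⟩
      · push Not at hAN
        have hLN : ∀ r, N.orderEmbOfFin hcard r ∈ N := fun r =>
          Finset.orderEmbOfFin_mem N hcard r
        have hAL : ∀ r s, A r ≠ N.orderEmbOfFin hcard s := fun r s h =>
          hAN r (by rw [h]; exact hLN s)
        have hP := bad.p4 A (N.orderEmbOfFin hcard) hAinj
          (N.orderEmbOfFin hcard).injective hAL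
        choose y hy using fun r => hcoo1 (p (N.orderEmbOfFin hcard r))
        have hyD : ∀ r k, D4 p (Function.update A k (N.orderEmbOfFin hcard r))
            = y r k * D4 p A := fun r k =>
          (hcoo2 _ _ (fun k => hAL k r) (hy r)).2 k
        refine caseA (fun k i m => ee p (u k) (A i) (A m)) (fun k i m => ee_symm _ _ _ _)
          (fun k i => ee_self _ _ _) y (fun r k => hqz _ (hLN r) _ (hy r) k) ?_
        intro hdet
        apply hP
        unfold P4
        simp only [hyD]
        have hmat : (Matrix.of fun r : Fin 4 =>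
            ![y r 0 * D4 p A * (y r 1 * D4 p A), y r 0 * D4 p A * (y r 2 * D4 p A),
              y r 0 * D4 p A * (y r 3 * D4 p A), y r 1 * D4 p A * (y r 2 * D4 p A)])
            = (D4 p A * D4 p A) • (Matrix.of fun r : Fin 4 =>
              ![y r 0 * y r 1, y r 0 * y r 2, y r 0 * y r 3, y r 1 * y r 2]) := by
          ext r s
          fin_cases s <;> simp <;> ring
        rw [hmat, Matrix.det_smul, hdet, mul_zero]
    obtain ⟨c, hc0, hc1⟩ := hfin
    exact hc0 (hu3 c hc1)

end Pool.Agent.Helper65.XR
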