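import Pool.Agent.Helper65.XR.St

set_option autoImplicit false

namespace Pool.Agent.Helper65.XR

open Finset

theorem d4i_ee_symm {n : ℕ} (p v : Fin n → Pt) (i j : Fin n) : ee p v i j = ee p v j i := by
  unfold ee
  rw [← neg_sub (p j) (p i), ← neg_sub (v j) (v i), neg_dotProduct, dotProduct_neg, neg_neg]

theorem d4i_ee_comb {n : ℕ} (p u v : Fin n → Pt) (a b : ℝ) (i j : Fin n) :
    ee p (a • u - b • v) i j = a * ee p u i j - b * ee p v i j := by
  unfold ee
  have : (a • u - b • v) i - (a • u - b • v) j = a • (u i - u j) - b • (v i - v j) := by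
    simp only [Pi.sub_apply, Pi.smul_apply, smul_sub]
    abel
  rw [this, dotProduct_sub, dotProduct_smul, dotProduct_smul, smul_eq_mul, smul_eq_mul]

theorem d4i_qv_comb {n : ℕ} (p u v : Fin n → Pt) (a b : ℝ) (A : Fin 4 → Fin n)
    (x : Fin 4 → ℝ) :
    qv p (a • u - b • v) A x = a * qv p u A x - b * qv p v A x := by
  unfold qv
  rw [Finset.mul_sum, Finset.mul_sum, ← Finset.sum_sub_distrib]
  apply Finset.sum_congr rfl
  intro k _
  rw [Finset.mul_sum, Finset.mul_sum, ← Finset.sum_sub_distrib]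
  apply Finset.sum_congr rfl
  intro m _
  rw [d4i_ee_comb]
  ring

theorem d4i_Dl_comb {n : ℕ} (p u v : Fin n → Pt) (a b : ℝ) (A : Fin 4 → Fin n) (l : Fin n)
    (x : Fin 4 → ℝ) :
    Dl p (a • u - b • v) A l x = a * Dl p u A l x - b * Dl p v A l x := by
  unfold Dl
  rw [Finset.mul_sum, Finset.mul_sum, ← Finset.sum_sub_distrib]
  apply Finset.sum_congr rfl
  intro k _
  rw [d4i_ee_comb]
  ring

theorem d4i_claim (hc : StCOO) (hl : StLOC) {n : ℕ} (H : SimpleGraph (Fin n))
    (t : Fin 5 → Fin n) (j0 : Fin 5) (htinj : Function.Injective t) (q : Fin n → Pt)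
    (hbad : Bad H t j0 q) (N : Finset (Fin n)) (hN : ∀ l, H.Adj (t j0) l ↔ l ∈ N)
    (hcard : N.card = 4) (xs : Fin 4 → ℝ) (hbar : Bar q (oth t j0) (q (t j0)) xs)
    (v v' : Fin n → Pt) (hv : MotF H (t j0) q v) (hv' : MotF H (t j0) q v') (l : Fin n)
    (hlN : l ∈ N) :
    Dl q v (oth t j0) l xs * qv q v' (oth t j0) xs
      = Dl q v' (oth t j0) l xs * qv q v (oth t j0) xs := by
  classical
  have hgp := hbad.gpos
  have hA : ∀ k, oth t j0 k ≠ t j0 := by
    intro k h
    exact Fin.succAbove_ne j0 k (htinj h)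
  have hNj : ∀ l ∈ N, l ≠ t j0 := fun l h => ((hN l).2 h).ne'
  let e : Fin 4 → Fin n := fun i => N.orderEmbOfFin hcard i
  have heinj : Function.Injective e := fun a b h => (N.orderEmbOfFin hcard).injective h
  have heN : ∀ i, e i ∈ N := fun i => N.orderEmbOfFin_mem hcard i
  have hesurj : ∀ l ∈ N, ∃ i, e i = l := by
    intro l hl
    have h1 : l ∈ Set.range (N.orderEmbOfFin hcard) := by
      rw [Finset.range_orderEmbOfFin]
      exact hl
    obtain ⟨i, hi⟩ := h1
    exact ⟨i, hi⟩
  let a : Fin 4 → Pt := fun i => q (t j0) - q (e i)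
  let B : Matrix (Fin 3) (Fin 3) ℝ := Matrix.of fun i => a i.succ
  have hBinj : Function.Injective B.mulVec := by
    have h0 : ∀ w : Pt, B.mulVec w = 0 → w = 0 := by
      intro w hw
      have hinj4 : Function.Injective (![t j0, e 1, e 2, e 3] : Fin 4 → Fin n) := by
        intro x y hxy
        have n1 : t j0 ≠ e 1 := fun h => hNj _ (heN 1) h.symm
        have n2 : t j0 ≠ e 2 := fun h => hNj _ (heN 2) h.symm
        have n3 : t j0 ≠ e 3 := fun h => hNj _ (heN 3) h.symm
        have n12 : e 1 ≠ e 2 := fun h => absurd (heinj h) (by decide)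
        have n13 : e 1 ≠ e 3 := fun h => absurd (heinj h) (by decide)
        have n23 : e 2 ≠ e 3 := fun h => absurd (heinj h) (by decide)
        fin_cases x <;> fin_cases y <;> simp_all
      refine (hc n q _ hinj4 hgp).2.2 w (q (t j0)) ?_
      intro k
      have hh : ∀ i : Fin 3, a i.succ ⬝ᵥ w = 0 := fun i => congrFun hw i
      fin_cases k
      · simp
      · exact hh 0
      · exact hh 1
      · exact hh 2
    intro w w' hww
    have : B.mulVec (w - w') = 0 := by
      rw [Matrix.mulVec_sub]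
      exact sub_eq_zero.2 hww
    exact sub_eq_zero.1 (h0 _ this)
  have hBu : IsUnit B := Matrix.mulVec_injective_iff_isUnit.1 hBinj
  obtain ⟨g, hg⟩ := (Matrix.vecMul_surjective_iff_isUnit.2 hBu) (a 0)
  let Θ : (Fin n → Pt) → ℝ := fun u =>
    a 0 ⬝ᵥ u (e 0) - ∑ i : Fin 3, g i * (a i.succ ⬝ᵥ u (e i.succ))
  have hext : ∀ u, MotF H (t j0) q u → Θ u = 0 →
      qv q u (oth t j0) xs = 0 ∧ ∀ l ∈ N, Dl q u (oth t j0) l xs = 0 := by
    intro u hu hΘ
    obtain ⟨w, hw⟩ := (Matrix.mulVec_surjective_iff_isUnit.2 hBu)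
      (fun i : Fin 3 => a i.succ ⬝ᵥ u (e i.succ))
    have hwi : ∀ i : Fin 3, a i.succ ⬝ᵥ w = a i.succ ⬝ᵥ u (e i.succ) := fun i => congrFun hw i
    have hw0 : a 0 ⬝ᵥ w = a 0 ⬝ᵥ u (e 0) := by
      have h1 : a 0 ⬝ᵥ w = g ⬝ᵥ (B.mulVec w) := by
        rw [← hg, Matrix.dotProduct_mulVec]
      rw [h1, hw]
      have h2 : Θ u = a 0 ⬝ᵥ u (e 0) - ∑ i : Fin 3, g i * (a i.succ ⬝ᵥ u (e i.succ)) := rfl
      rw [h2] at hΘ
      unfold dotProduct at hΘ ⊢
      linarith
    have hwall : ∀ i : Fin 4, a i ⬝ᵥ w = a i ⬝ᵥ u (e i) := by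
      intro i
      refine Fin.cases hw0 hwi i
    let ut : Fin n → Pt := Function.update u (t j0) w
    have hutj : ut (t j0) = w := Function.update_self _ _ _
    have hutne : ∀ i, i ≠ t j0 → ut i = u i := fun i hi => Function.update_of_ne hi _ _
    have hjl : ∀ l, H.Adj (t j0) l → ee q ut (t j0) l = 0 := by
      intro l hl
      have hlN := (hN l).1 hl
      obtain ⟨i, rfl⟩ := hesurj l hlN
      unfold ee
      rw [hutj, hutne _ (hNj _ hlN), dotProduct_sub]
      have := hwall i
      exact sub_eq_zero.2 this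
    have hmot : Mot H q ut := by
      intro i m him
      by_cases h1 : i = t j0
      · subst h1
        exact hjl m him
      · by_cases h2 : m = t j0
        · subst h2
          rw [d4i_ee_symm]
          exact hjl i him.symm
        · have := hu i m him h1 h2
          unfold ee at this ⊢
          rw [hutne i h1, hutne m h2]
          exact this
    obtain ⟨c1, _, c3⟩ := hl n H t j0 q htinj hbad xs hbar ut hmot
    constructor
    · have : qv q ut (oth t j0) xs = qv q u (oth t j0) xs := by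
        unfold qv ee
        simp only [hutne _ (hA _)]
      rw [← this]; exact c1
    · intro l hlN
      have : Dl q ut (oth t j0) l xs = Dl q u (oth t j0) l xs := by
        unfold Dl ee
        simp only [hutne _ (hA _), hutne _ (hNj _ hlN)]
      rw [← this]; exact c3 l ((hN l).2 hlN)
  have hΘc : ∀ b c : ℝ, Θ (b • v - c • v') = b * Θ v - c * Θ v' := by
    intro b c
    have h1 : ∀ i : Fin 4, a i ⬝ᵥ (b • v - c • v') (e i) =
        b * (a i ⬝ᵥ v (e i)) - c * (a i ⬝ᵥ v' (e i)) := by
      intro i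
      rw [Pi.sub_apply, Pi.smul_apply, Pi.smul_apply, dotProduct_sub, dotProduct_smul,
        dotProduct_smul, smul_eq_mul, smul_eq_mul]
    show a 0 ⬝ᵥ (b • v - c • v') (e 0) -
        ∑ i : Fin 3, g i * (a i.succ ⬝ᵥ (b • v - c • v') (e i.succ)) =
      b * (a 0 ⬝ᵥ v (e 0) - ∑ i : Fin 3, g i * (a i.succ ⬝ᵥ v (e i.succ))) -
      c * (a 0 ⬝ᵥ v' (e 0) - ∑ i : Fin 3, g i * (a i.succ ⬝ᵥ v' (e i.succ)))
    simp only [h1, Fin.sum_univ_three]
    ring
  have hmotc : ∀ b c : ℝ, MotF H (t j0) q (b • v - c • v') := by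
    intro b c i m him h1 h2
    rw [d4i_ee_comb, hv i m him h1 h2, hv' i m him h1 h2]
    ring
  have hΘ0 : Θ (Θ v' • v - Θ v • v') = 0 := by
    rw [hΘc]; ring
  obtain ⟨k1, k2⟩ := hext _ (hmotc (Θ v') (Θ v)) hΘ0
  have k2l := k2 l hlN
  rw [d4i_qv_comb] at k1
  rw [d4i_Dl_comb] at k2l
  by_cases hz' : Θ v' = 0
  · by_cases hz : Θ v = 0
    · have r1 := (hext v hv hz).1
      have r2 := (hext v' hv' hz').1
      rw [r1, r2]; ring
    · rw [hz'] at k1 k2l
      have r1 : qv q v' (oth t j0) xs = 0 := by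
        have : Θ v * qv q v' (oth t j0) xs = 0 := by linarith
        rcases mul_eq_zero.1 this with h | h
        · exact absurd h hz
        · exact h
      have r2 : Dl q v' (oth t j0) l xs = 0 := by
        have : Θ v * Dl q v' (oth t j0) l xs = 0 := by linarith
        rcases mul_eq_zero.1 this with h | h
        · exact absurd h hz
        · exact h
      rw [r1, r2]; ring
  · apply mul_left_cancel₀ hz'
    have e1 : Θ v' * Dl q v (oth t j0) l xs = Θ v * Dl q v' (oth t j0) l xs := by linarith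
    have e2 : Θ v' * qv q v (oth t j0) xs = Θ v * qv q v' (oth t j0) xs := by linarith
    calc Θ v' * (Dl q v (oth t j0) l xs * qv q v' (oth t j0) xs)
        = (Θ v' * Dl q v (oth t j0) l xs) * qv q v' (oth t j0) xs := by ring
      _ = Dl q v' (oth t j0) l xs * (Θ v * qv q v' (oth t j0) xs) := by rw [e1]; ring
      _ = Dl q v' (oth t j0) l xs * (Θ v' * qv q v (oth t j0) xs) := by rw [e2]
      _ = Θ v' * (Dl q v' (oth t j0) l xs * qv q v (oth t j0) xs) := by ring

theorem d4i (hc : StCOO) (hl : StLOC) (hn : StLINE) : StD4I := by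
  intro n H t j0 R htinj hR N hN hcard p hp v v' hv hv' x hx l hlN
  have hgp := (hR p hp).gpos
  have hA : ∀ k, oth t j0 k ≠ t j0 := by
    intro k h
    exact Fin.succAbove_ne j0 k (htinj h)
  have hAinj : Function.Injective (oth t j0) := by
    intro k k' h
    exact Fin.succAbove_right_injective (htinj h)
  have hNj : ∀ l ∈ N, l ≠ t j0 := fun l h => ((hN l).2 h).ne'
  obtain ⟨xst, hxst⟩ := (hc n p (oth t j0) hAinj hgp).1 (p (t j0))
  obtain ⟨hb1, hb2⟩ := hxst
  let z1 : Pt := ∑ k, x k • p (oth t j0 k)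
  let d : Pt := z1 - p (t j0)
  have hfin := hn n R p (t j0) d hp
  let ps : ℝ → Fin n → Pt := fun s => Function.update p (t j0) (p (t j0) + s • d)
  let xs : ℝ → Fin 4 → ℝ := fun s k => (1 - s) * xst k + s * x k
  have hpsj : ∀ s, ps s (t j0) = p (t j0) + s • d := fun s => Function.update_self _ _ _
  have hpsne : ∀ s i, i ≠ t j0 → ps s i = p i := fun s i hi => Function.update_of_ne hi _ _
  have hbar : ∀ s, Bar (ps s) (oth t j0) (ps s (t j0)) (xs s) := by
    intro s
    constructor
    · show ∑ k, ((1 - s) * xst k + s * x k) = 1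
      rw [Finset.sum_add_distrib, ← Finset.mul_sum, ← Finset.mul_sum, hb1, hx]
      ring
    · rw [hpsj]
      have h1 : ∑ k, xs s k • ps s (oth t j0 k) =
          (1 - s) • (∑ k, xst k • p (oth t j0 k)) + s • z1 := by
        show ∑ k, xs s k • ps s (oth t j0 k) =
          (1 - s) • (∑ k, xst k • p (oth t j0 k)) + s • (∑ k, x k • p (oth t j0 k))
        rw [Finset.smul_sum, Finset.smul_sum, ← Finset.sum_add_distrib]
        apply Finset.sum_congr rfl
        intro k _
        rw [hpsne s _ (hA k)]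
        show ((1 - s) * xst k + s * x k) • p (oth t j0 k) = _
        rw [add_smul, mul_smul, mul_smul]
      rw [h1, hb2]
      show (1 - s) • p (t j0) + s • z1 = p (t j0) + s • (z1 - p (t j0))
      rw [sub_smul, one_smul, smul_sub]
      abel
  have hmotf : ∀ s u, MotF H (t j0) p u → MotF H (t j0) (ps s) u := by
    intro s u hu i m him h1 h2
    have := hu i m him h1 h2
    unfold ee at this ⊢
    rw [hpsne s i h1, hpsne s m h2]
    exact this
  have hDl : ∀ s u y, Dl (ps s) u (oth t j0) l y = Dl p u (oth t j0) l y := by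
    intro s u y
    unfold Dl ee
    simp only [hpsne s _ (hA _), hpsne s _ (hNj _ hlN)]
  have hqv : ∀ s u y, qv (ps s) u (oth t j0) y = qv p u (oth t j0) y := by
    intro s u y
    unfold qv ee
    simp only [hpsne s _ (hA _)]
  let F : ℝ → ℝ := fun s => Dl p v (oth t j0) l (xs s) * qv p v' (oth t j0) (xs s)
  let G : ℝ → ℝ := fun s => Dl p v' (oth t j0) l (xs s) * qv p v (oth t j0) (xs s)
  have hcD : ∀ u, Continuous fun s => Dl p u (oth t j0) l (xs s) := by
    intro u
    show Continuous fun s => ∑ k, ((1 - s) * xst k + s * x k) * ee p u (oth t j0 k) l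
    fun_prop
  have hcq : ∀ u, Continuous fun s => qv p u (oth t j0) (xs s) := by
    intro u
    show Continuous fun s => ∑ k, ∑ m, ((1 - s) * xst k + s * x k) *
      ((1 - s) * xst m + s * x m) * ee p u (oth t j0 k) (oth t j0 m)
    fun_prop
  have hF : Continuous F := (hcD v).mul (hcq v')
  have hG : Continuous G := (hcD v').mul (hcq v)
  have hdense : Dense ({s : ℝ | MvPolynomial.eval (fun a => Function.update p (t j0)
      (p (t j0) + s • d) a.1 a.2) R = 0}ᶜ) := hfin.countable.dense_compl ℝ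
  have hFG : F = G := by
    apply Continuous.ext_on hdense hF hG
    intro s hs
    have hbads : Bad H t j0 (ps s) := hR (ps s) hs
    have := d4i_claim hc hl H t j0 htinj (ps s) hbads N hN hcard (xs s) (hbar s) v v'
      (hmotf s v hv) (hmotf s v' hv') l hlN
    rw [hDl, hDl, hqv, hqv] at this
    exact this
  have h1 := congrFun hFG 1
  have hxs1 : xs 1 = x := by
    funext k
    show (1 - 1) * xst k + 1 * x k = x k
    ring
  have h2 : Dl p v (oth t j0) l (xs 1) * qv p v' (oth t j0) (xs 1) =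
    Dl p v' (oth t j0) l (xs 1) * qv p v (oth t j0) (xs 1) := h1
  rw [hxs1] at h2
  exact h2

end Pool.Agent.Helper65.XR
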