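import Pool.Agent.Helper65.XR.St

/-!
# Module GEN: a polynomial whose nonvanishing implies good position
-/

set_option autoImplicit false

namespace Pool.Agent.Helper65.XR

open Finset MvPolynomial

namespace GEN

/-- Index type of the rows. -/
abbrev Ix {n : ℕ} (G : SimpleGraph (Fin n)) : Type :=
  {q : Fin n × Fin n // q.1 < q.2 ∧ G.Adj q.1 q.2}

/-- The flattened rigidity matrix. -/
def MM {n : ℕ} (G : SimpleGraph (Fin n)) (p : Fin n → Pt) : Matrix (Ix G) (Fin n × Fin 3) ℝ :=
  fun x a => Row p x.1.1 x.1.2 a.1 a.2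

/-- The flattened rigidity matrix with polynomial entries. -/
noncomputable def MP {n : ℕ} (G : SimpleGraph (Fin n)) :
    Matrix (Ix G) (Fin n × Fin 3) (MvPolynomial (Fin n × Fin 3) ℝ) :=
  fun x a => if a.1 = x.1.1 then X (x.1.1, a.2) - X (x.1.2, a.2)
    else if a.1 = x.1.2 then X (x.1.2, a.2) - X (x.1.1, a.2) else 0

/-- Evaluation at a placement. -/
noncomputable def ev {n : ℕ} (p : Fin n → Pt) : MvPolynomial (Fin n × Fin 3) ℝ →+* ℝ :=
  MvPolynomial.eval (fun a => p a.1 a.2)

theorem ev_X {n : ℕ} (p : Fin n → Pt) (a : Fin n × Fin 3) : ev p (X a) = p a.1 a.2 := by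
  simp [ev]

theorem map_MP {n : ℕ} (G : SimpleGraph (Fin n)) (p : Fin n → Pt) :
    (MP G).map (ev p) = MM G p := by
  ext x a
  simp only [Matrix.map_apply, MP, MM, Row]
  by_cases h1 : a.1 = x.1.1
  · simp only [h1, if_true, map_sub, ev_X, Pi.sub_apply]
  · by_cases h2 : a.1 = x.1.2
    · simp only [if_neg h1, if_pos h2, map_sub, ev_X, Pi.sub_apply]
    · simp only [if_neg h1, if_neg h2, map_zero, Pi.zero_apply]

theorem vecMul_MM {n : ℕ} (G : SimpleGraph (Fin n)) (p : Fin n → Pt) [Fintype (Ix G)]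
    (c : Ix G → ℝ) (a : Fin n × Fin 3) :
    (Matrix.vecMul c (MM G p)) a = (∑ x, c x • Row p x.1.1 x.1.2) a.1 a.2 := by
  simp only [Matrix.vecMul, dotProduct, MM, Finset.sum_apply, Pi.smul_apply, smul_eq_mul]

theorem ri_of_det {n : ℕ} (G : SimpleGraph (Fin n)) (p : Fin n → Pt) [Fintype (Ix G)]
    [DecidableEq (Ix G)] (h : ((MM G p) * (MM G p).transpose).det ≠ 0) : RI G p := by
  unfold RI
  rw [Fintype.linearIndependent_iff]
  intro c hc
  have h1 : Matrix.vecMul c (MM G p) = 0 := by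
    ext a
    rw [vecMul_MM, hc]
    rfl
  have h2 : Matrix.vecMul c ((MM G p) * (MM G p).transpose) = 0 := by
    rw [← Matrix.vecMul_vecMul, h1, Matrix.zero_vecMul]
  have h3 := Matrix.eq_zero_of_vecMul_eq_zero h h2
  intro i
  rw [h3]
  rfl

theorem det_of_ri {n : ℕ} (G : SimpleGraph (Fin n)) (p : Fin n → Pt) [Fintype (Ix G)]
    [DecidableEq (Ix G)] (h : RI G p) : ((MM G p) * (MM G p).transpose).det ≠ 0 := by
  intro h0
  obtain ⟨v, hv, hv0⟩ := Matrix.exists_vecMul_eq_zero_iff.2 h0
  apply hv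
  have h1 : (Matrix.vecMul v (MM G p)) ⬝ᵥ (Matrix.vecMul v (MM G p)) = 0 := by
    have h2 : (Matrix.vecMul v ((MM G p) * (MM G p).transpose)) ⬝ᵥ v = 0 := by
      rw [hv0, zero_dotProduct]
    rw [← Matrix.vecMul_vecMul, Matrix.vecMul_transpose] at h2
    rw [dotProduct_comm, Matrix.dotProduct_mulVec] at h2
    exact h2
  have h3 : Matrix.vecMul v (MM G p) = 0 := dotProduct_self_eq_zero.1 h1
  unfold RI at h
  rw [Fintype.linearIndependent_iff] at h
  have h4 : ∑ x, v x • Row p x.1.1 x.1.2 = 0 := by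
    ext a b
    have h5 := vecMul_MM G p v (a, b)
    rw [h3] at h5
    exact h5.symm
  ext x
  exact h v h4 x

/-- The determinant of four points as a polynomial. -/
noncomputable def D4P {n : ℕ} (i : Fin 4 → Fin n) : MvPolynomial (Fin n × Fin 3) ℝ :=
  (Matrix.of fun r : Fin 4 => ![1, X (i r, 0), X (i r, 1), X (i r, 2)]).det

theorem ev_D4P {n : ℕ} (p : Fin n → Pt) (i : Fin 4 → Fin n) : ev p (D4P i) = D4 p i := by
  unfold D4P D4
  rw [RingHom.map_det]
  congr 1
  ext r s
  fin_cases s <;> simp [ev_X]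

/-- The second determinant as a polynomial. -/
noncomputable def P4P {n : ℕ} (i l : Fin 4 → Fin n) : MvPolynomial (Fin n × Fin 3) ℝ :=
  (Matrix.of fun r : Fin 4 =>
    ![D4P (Function.update i 0 (l r)) * D4P (Function.update i 1 (l r)),
      D4P (Function.update i 0 (l r)) * D4P (Function.update i 2 (l r)),
      D4P (Function.update i 0 (l r)) * D4P (Function.update i 3 (l r)),
      D4P (Function.update i 1 (l r)) * D4P (Function.update i 2 (l r))]).det

theorem ev_P4P {n : ℕ} (p : Fin n → Pt) (i l : Fin 4 → Fin n) : ev p (P4P i l) = P4 p i l := by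
  unfold P4P P4
  rw [RingHom.map_det]
  congr 1
  ext r s
  fin_cases s <;> simp [ev_D4P]

/-- The standard simplex. -/
def e : Fin 4 → Pt := ![![0, 0, 0], ![1, 0, 0], ![0, 1, 0], ![0, 0, 1]]

/-- Four midpoints. -/
noncomputable def f : Fin 4 → Pt :=
  ![![1 / 2, 0, 0], ![0, 1 / 2, 0], ![0, 0, 1 / 2], ![1 / 2, 1 / 2, 0]]

/-- The determinant of four points given by their coordinates. -/
noncomputable def D (q : Fin 4 → Pt) : ℝ :=
  (Matrix.of fun r : Fin 4 => ![1, q r 0, q r 1, q r 2]).det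

theorem D_expand (q : Fin 4 → Pt) : D q =
    (q 1 0 - q 0 0) * ((q 2 1 - q 0 1) * (q 3 2 - q 0 2) - (q 2 2 - q 0 2) * (q 3 1 - q 0 1))
    - (q 1 1 - q 0 1) * ((q 2 0 - q 0 0) * (q 3 2 - q 0 2) - (q 2 2 - q 0 2) * (q 3 0 - q 0 0))
    + (q 1 2 - q 0 2) * ((q 2 0 - q 0 0) * (q 3 1 - q 0 1) - (q 2 1 - q 0 1) * (q 3 0 - q 0 0)) := by
  unfold D
  rw [Matrix.det_succ_row_zero]
  simp only [Fin.sum_univ_succ, Matrix.det_fin_three, Matrix.submatrix_apply, Matrix.of_apply]
  simp [Fin.succAbove, Fin.succ]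
  ring

theorem D4_eq {n : ℕ} (p : Fin n → Pt) (i : Fin 4 → Fin n) : D4 p i = D (fun r => p (i r)) := rfl

theorem D_e : D e = 1 := by
  rw [D_expand]
  simp [e]

/-- Barycentric coordinates of the midpoints. -/
noncomputable def bc : Fin 4 → Fin 4 → ℝ :=
  ![![1 / 2, 1 / 2, 0, 0], ![1 / 2, 0, 1 / 2, 0], ![1 / 2, 0, 0, 1 / 2], ![0, 1 / 2, 1 / 2, 0]]

theorem D_upd (k r : Fin 4) : D (Function.update e k (f r)) = bc r k := by
  rw [D_expand]
  fin_cases k <;> fin_cases r <;>
    simp [e, f, bc, Function.update] <;> norm_num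

theorem D4P_ne {n : ℕ} (i : Fin 4 → Fin n) (hi : Function.Injective i) : D4P i ≠ 0 := by
  intro h
  have h1 := ev_D4P (Function.extend i e 0) i
  rw [h, map_zero, D4_eq] at h1
  have h2 : (fun r => Function.extend i e 0 (i r)) = e := by
    ext r : 1
    exact hi.extend_apply e 0 r
  rw [h2, D_e] at h1
  exact zero_ne_one h1

theorem P4P_ne {n : ℕ} (i l : Fin 4 → Fin n) (hi : Function.Injective i)
    (hl : Function.Injective l) (hd : ∀ r s, i r ≠ l s) : P4P i l ≠ 0 := by
  intro h
  set p : Fin n → Pt := Function.extend i e (Function.extend l f 0) with hp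
  have hpi : ∀ r, p (i r) = e r := fun r => hi.extend_apply e _ r
  have hpl : ∀ r, p (l r) = f r := by
    intro r
    rw [hp, Function.extend_apply' _ _ _ (by rintro ⟨s, hs⟩; exact hd s r hs)]
    exact hl.extend_apply f 0 r
  have hD : ∀ k r, D4 p (Function.update i k (l r)) = bc r k := by
    intro k r
    rw [D4_eq, ← D_upd k r]
    congr 1
    ext m : 1
    by_cases hm : m = k
    · subst hm
      simp only [Function.update_self, hpl]
    · simp only [Function.update_of_ne hm, hpi]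
  have h1 := ev_P4P p i l
  rw [h, map_zero] at h1
  have h2 : P4 p i l = (1 / 4) ^ 4 := by
    unfold P4
    simp only [hD]
    have h3 : (Matrix.of fun r : Fin 4 =>
        ![bc r 0 * bc r 1, bc r 0 * bc r 2, bc r 0 * bc r 3, bc r 1 * bc r 2]) =
        Matrix.diagonal (fun _ : Fin 4 => (1 / 4 : ℝ)) := by
      ext r s
      fin_cases r <;> fin_cases s <;> simp [bc, Matrix.diagonal] <;> norm_num
    rw [h3, Matrix.det_diagonal]
    simp
  rw [h2] at h1
  norm_num at h1

end GEN

open GEN in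
theorem gen : StGEN := by
  classical
  intro n G hG
  obtain ⟨p0, hp0⟩ := hG
  let A : MvPolynomial (Fin n × Fin 3) ℝ := ((MP G) * (MP G).transpose).det
  have hA : ∀ p : Fin n → Pt, ev p A = ((MM G p) * (MM G p).transpose).det := by
    intro p
    change ev p ((MP G) * (MP G).transpose).det = _
    rw [RingHom.map_det, RingHom.mapMatrix_apply, Matrix.map_mul, Matrix.transpose_map, map_MP]
  let B : MvPolynomial (Fin n × Fin 3) ℝ :=
    ∏ i : Fin 4 → Fin n, if Function.Injective i then D4P i else 1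
  let C : MvPolynomial (Fin n × Fin 3) ℝ :=
    ∏ i : Fin 4 → Fin n, ∏ l : Fin 4 → Fin n,
      if Function.Injective i ∧ Function.Injective l ∧ (∀ r s, i r ≠ l s) then P4P i l else 1
  refine ⟨A * B * C, ?_, ?_⟩
  · refine mul_ne_zero (mul_ne_zero ?_ ?_) ?_
    · intro h
      apply det_of_ri G p0 hp0
      rw [← hA, h, map_zero]
    · refine Finset.prod_ne_zero_iff.2 fun i _ => ?_
      split_ifs with h
      · exact D4P_ne i h
      · exact one_ne_zero
    · refine Finset.prod_ne_zero_iff.2 fun i _ => Finset.prod_ne_zero_iff.2 fun l _ => ?_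
      split_ifs with h
      · exact P4P_ne i l h.1 h.2.1 h.2.2
      · exact one_ne_zero
  · intro p hp
    have hp' : ev p (A * B * C) ≠ 0 := hp
    rw [map_mul, map_mul] at hp'
    have hpA : ev p A ≠ 0 := left_ne_zero_of_mul (left_ne_zero_of_mul hp')
    have hpB : ev p B ≠ 0 := right_ne_zero_of_mul (left_ne_zero_of_mul hp')
    have hpC : ev p C ≠ 0 := right_ne_zero_of_mul hp'
    refine ⟨?_, ?_, ?_⟩
    · apply ri_of_det
      rw [← hA]
      exact hpA
    · intro i hi
      have hB : ev p B = ∏ i : Fin 4 → Fin n, ev p (if Function.Injective i then D4P i else 1) :=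
        map_prod _ _ _
      rw [hB, Finset.prod_ne_zero_iff] at hpB
      have h1 := hpB i (Finset.mem_univ i)
      rw [if_pos hi, ev_D4P] at h1
      exact h1
    · intro i l hi hl hd
      have hC : ev p C = ∏ i : Fin 4 → Fin n, ∏ l : Fin 4 → Fin n, ev p
          (if Function.Injective i ∧ Function.Injective l ∧ (∀ r s, i r ≠ l s)
            then P4P i l else 1) := by
        change ev p (∏ i : Fin 4 → Fin n, ∏ l : Fin 4 → Fin n,
          if Function.Injective i ∧ Function.Injective l ∧ (∀ r s, i r ≠ l s)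
            then P4P i l else 1) = _
        rw [map_prod]
        refine Finset.prod_congr rfl fun i _ => ?_
        rw [map_prod]
      rw [hC, Finset.prod_ne_zero_iff] at hpC
      have h1 := hpC i (Finset.mem_univ i)
      rw [Finset.prod_ne_zero_iff] at h1
      have h2 := h1 l (Finset.mem_univ l)
      rw [if_pos ⟨hi, hl, hd⟩, ev_P4P] at h2
      exact h2

end Pool.Agent.Helper65.XR
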