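import Pool.Agent.Helper65.XR.St

set_option autoImplicit false

namespace Pool.Agent.Helper65.XR

open Finset

/-- An array of the space which vanishes at five entries is zero. -/
theorem k6_inj (α : Fin 5 → ℝ) (hα : ∀ i, α i ≠ 0) (e : Fin 5 → Fin 5 → ℝ)
    (hs : ∀ i j, e i j = e j i) (hd : ∀ i, e i i = 0)
    (hr : ∀ m, ∑ i, α i * e i m = 0)
    (h01 : e 0 1 = 0) (h02 : e 0 2 = 0) (h03 : e 0 3 = 0) (h12 : e 1 2 = 0)
    (h13 : e 1 3 = 0) : ∀ i m, e i m = 0 := by
  have r0 := hr 0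
  have r1 := hr 1
  have r2 := hr 2
  have r3 := hr 3
  have r4 := hr 4
  simp only [Fin.sum_univ_five] at r0 r1 r2 r3 r4
  have h10 : e 1 0 = 0 := by rw [hs, h01]
  have h20 : e 2 0 = 0 := by rw [hs, h02]
  have h30 : e 3 0 = 0 := by rw [hs, h03]
  have h21 : e 2 1 = 0 := by rw [hs, h12]
  have h31 : e 3 1 = 0 := by rw [hs, h13]
  have h40 : e 4 0 = 0 := by
    rw [hd 0, h10, h20, h30] at r0
    have : α 4 * e 4 0 = 0 := by linarith
    exact (mul_eq_zero.1 this).resolve_left (hα 4)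
  have h41 : e 4 1 = 0 := by
    rw [hd 1, h01, h21, h31] at r1
    have : α 4 * e 4 1 = 0 := by linarith
    exact (mul_eq_zero.1 this).resolve_left (hα 4)
  have h04 : e 0 4 = 0 := by rw [hs, h40]
  have h14 : e 1 4 = 0 := by rw [hs, h41]
  rw [h02, h12, hd 2, hs 3 2, hs 4 2] at r2
  rw [h03, h13, hd 3, hs 4 3] at r3
  rw [h04, h14, hd 4] at r4
  have h23 : e 2 3 = 0 := by
    have h : α 2 * α 3 * e 2 3 = 0 := by
      linear_combination (α 2 / 2) * r2 + (α 3 / 2) * r3 - (α 4 / 2) * r4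
    exact (mul_eq_zero.1 h).resolve_left (mul_ne_zero (hα 2) (hα 3))
  have h32 : e 3 2 = 0 := by rw [hs, h23]
  have h24 : e 2 4 = 0 := by
    rw [h23] at r2
    have : α 4 * e 2 4 = 0 := by linarith
    exact (mul_eq_zero.1 this).resolve_left (hα 4)
  have h34 : e 3 4 = 0 := by
    rw [h23] at r3
    have : α 4 * e 3 4 = 0 := by linarith
    exact (mul_eq_zero.1 this).resolve_left (hα 4)
  have h42 : e 4 2 = 0 := by rw [hs, h24]
  have h43 : e 4 3 = 0 := by rw [hs, h34]
  have d0 := hd 0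
  have d1 := hd 1
  have d2 := hd 2
  have d3 := hd 3
  have d4 := hd 4
  intro i m
  fin_cases i <;> fin_cases m <;> assumption

/-- (R17). -/
theorem k6 : StK6 := by
  intro α hα ε hs hd hr
  let L : (Fin 6 → ℝ) →ₗ[ℝ] (Fin 5 → ℝ) :=
    { toFun := fun c => ![∑ k, c k * ε k 0 1, ∑ k, c k * ε k 0 2, ∑ k, c k * ε k 0 3,
        ∑ k, c k * ε k 1 2, ∑ k, c k * ε k 1 3]
      map_add' := by
        intro a b
        ext i
        fin_cases i <;> simp [add_mul, Finset.sum_add_distrib]
      map_smul' := by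
        intro a b
        ext i
        fin_cases i <;> simp [mul_assoc, Finset.mul_sum] }
  have hker : LinearMap.ker L ≠ ⊥ := by
    apply LinearMap.ker_ne_bot_of_finrank_lt
    simp
  obtain ⟨c, hc, hc0⟩ := (Submodule.ne_bot_iff _).1 hker
  rw [LinearMap.mem_ker] at hc
  refine ⟨c, hc0, ?_⟩
  apply k6_inj α hα (fun i m => ∑ k, c k * ε k i m)
  · intro i j
    exact Finset.sum_congr rfl fun k _ => by rw [hs]
  · intro i
    exact Finset.sum_eq_zero fun k _ => by rw [hd, mul_zero]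
  · intro m
    calc ∑ i, α i * ∑ k, c k * ε k i m = ∑ i, ∑ k, c k * (α i * ε k i m) := by
          refine Finset.sum_congr rfl fun i _ => ?_
          rw [Finset.mul_sum]
          exact Finset.sum_congr rfl fun k _ => by ring
      _ = ∑ k, ∑ i, c k * (α i * ε k i m) := Finset.sum_comm
      _ = ∑ k, c k * ∑ i, α i * ε k i m := by
          refine Finset.sum_congr rfl fun k _ => ?_
          rw [Finset.mul_sum]
      _ = 0 := Finset.sum_eq_zero fun k _ => by rw [hr, mul_zero]
  · exact congrFun hc 0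
  · exact congrFun hc 1
  · exact congrFun hc 2
  · exact congrFun hc 3
  · exact congrFun hc 4

end Pool.Agent.Helper65.XR
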