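import Pool.Agent.Helper65.XR.St

set_option autoImplicit false

namespace Pool.Agent.Helper65.XR

theorem line : StLINE := by
  intro n R p j d hR
  set g : Fin n × Fin 3 → Polynomial ℝ := fun a =>
    if a.1 = j then Polynomial.C (p j a.2) + Polynomial.X * Polynomial.C (d a.2)
    else Polynomial.C (p a.1 a.2) with hg
  set P : Polynomial ℝ := MvPolynomial.aeval g R with hP
  have key : ∀ s : ℝ, P.eval s =
      MvPolynomial.eval (fun a => Function.update p j (p j + s • d) a.1 a.2) R := by
    intro s
    have h1 : P.eval s = MvPolynomial.aeval (fun a => (g a).eval s) R := by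
      rw [hP, ← Polynomial.coe_aeval_eq_eval, ← AlgHom.comp_apply, MvPolynomial.comp_aeval]
    rw [h1, MvPolynomial.aeval_eq_eval]
    have hfun : (fun a => Polynomial.eval s (g a)) =
        fun a => Function.update p j (p j + s • d) a.1 a.2 := by
      funext a
      by_cases ha : a.1 = j
      · simp [hg, ha, Function.update_self]; exact mul_comm _ _
      · simp [hg, ha, Function.update_of_ne]
    rw [hfun]
  have hP0 : P ≠ 0 := by
    intro h0
    apply hR
    have h2 := key 0
    rw [h0] at h2
    simp only [Polynomial.eval_zero, zero_smul, add_zero, Function.update_eq_self] at h2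
    exact h2.symm
  apply (P.roots.toFinset.finite_toSet).subset
  intro s hs
  simp only [Set.mem_ofPred_eq] at hs
  rw [Finset.mem_coe, Multiset.mem_toFinset, Polynomial.mem_roots hP0]
  change P.eval s = 0
  rw [key s, hs]

end Pool.Agent.Helper65.XR
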